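import Pool.Agent.Lib.MP_7ab245_nt.Cnt.Defs

/-!
CT-Cser: the series `cs`.

PROOF. Let `p = cx f`, `b = bb p`, `β = constantCoeff b ≠ 0` (bb_ne). `poly_eq` and `ho_const` give `kk p * β = p.coeff 0`, `‖kk p‖ = MM f` (norm_kk), so
`‖β‖ = |f.coeff 0| / MM f`, i.e. `‖β⁻¹‖ = μ := MM f / |f.coeff 0|`. `PC_bb`: `b` is a prefix contraction, so for every series `h`:
`pn (C β⁻¹ * b * h) R ≤ μ² pn h R` (cs_contr). `cs_sum`: `h = 1`. `mu_ge`: `‖β‖ ≤ 1` (`‖coeff 0 b‖² = pn (b*1) 1 ≤ 1`).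
`conv`: with `c = C β⁻¹ * b`: `ld p = ld b + ld (ho p)` (ld_poly), `ld b = ld c` (ld_C_mul), `c * ld c = X * derivative c` (unfold ld,
`c * c⁻¹ = 1`). So `c * (- ld p) = - c * ld (ho p) - X c'`; take the `m`-th coefficient (coeff_mul, Finset.Nat.sum_antidiagonal_eq_sum_range_succ).
`vbound`: `‖x - y‖² ≤ 2‖x‖² + 2‖y‖²`, `pn (c * ld ho) (N+1) ≤ μ² ∑ ‖QQ‖²`, `∑_{m≤N} m² ‖cs m f‖² ≤ N² μ²`.
-/

set_option autoImplicit false

open Finset

namespace Pool.Agent.Lib.MP_7ab245_nt.Cnt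

open Pool.Agent.Lib.MP_7ab245_nt.LogVar

private theorem Cser_coeff0 (f : Polynomial ℤ) : (cx f).coeff 0 = (f.coeff 0 : ℂ) := by
  simp [cx]

private theorem Cser_ne (f : Polynomial ℤ) (h0 : f.coeff 0 ≠ 0) : (cx f).coeff 0 ≠ 0 := by
  rw [Cser_coeff0]
  exact_mod_cast h0

private theorem Cser_norm (f : Polynomial ℤ) (h0 : f.coeff 0 ≠ 0) :
    ‖(PowerSeries.constantCoeff (bb (cx f)))⁻¹‖ = MM f / |(f.coeff 0 : ℝ)| := by
  have h0' := Cser_ne f h0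
  have h1 := congrArg (PowerSeries.coeff 0) (poly_eq (cx f) h0')
  rw [Polynomial.coeff_coe, PowerSeries.coeff_zero_eq_constantCoeff_apply, map_mul, map_mul,
    ho_const, PowerSeries.constantCoeff_C, mul_one] at h1
  have h2 : |(f.coeff 0 : ℝ)| = MM f * ‖PowerSeries.constantCoeff (bb (cx f))‖ := by
    have h3 := congrArg norm h1
    rw [Cser_coeff0, norm_mul, norm_kk] at h3
    unfold MM
    rw [← h3]
    simp
  have hb := bb_ne (cx f) h0'
  have hbn : ‖PowerSeries.constantCoeff (bb (cx f))‖ ≠ 0 := norm_ne_zero_iff.2 hb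
  have hf : |(f.coeff 0 : ℝ)| ≠ 0 := abs_ne_zero.2 (by exact_mod_cast h0)
  have hM : MM f ≠ 0 := by
    intro h
    rw [h, zero_mul] at h2
    exact hf h2
  rw [norm_inv, h2]
  field_simp

private theorem Cser_contr (f : Polynomial ℤ) (h0 : f.coeff 0 ≠ 0) (h : PowerSeries ℂ) (R : ℕ) :
    pn (PowerSeries.C (PowerSeries.constantCoeff (bb (cx f)))⁻¹ * bb (cx f) * h) R ≤
      (MM f / |(f.coeff 0 : ℝ)|) ^ 2 * pn h R := by
  have h1 := PC_bb (cx f) h R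
  have h2 : pn (PowerSeries.C (PowerSeries.constantCoeff (bb (cx f)))⁻¹ * bb (cx f) * h) R =
      (MM f / |(f.coeff 0 : ℝ)|) ^ 2 * pn (bb (cx f) * h) R := by
    unfold pn
    rw [mul_sum]
    refine sum_congr rfl fun m _ => ?_
    rw [mul_assoc, PowerSeries.coeff_C_mul, norm_mul, mul_pow, Cser_norm f h0]
  rw [h2]
  exact mul_le_mul_of_nonneg_left h1 (sq_nonneg _)

private theorem Cser_pn_one (R : ℕ) : pn (1 : PowerSeries ℂ) (R + 1) = 1 := by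
  induction R with
  | zero => simp [pn]
  | succ R ih =>
    rw [pn_succ, ih]
    simp [PowerSeries.coeff_one]

theorem cs_zero (f : Polynomial ℤ) (h0 : f.coeff 0 ≠ 0) : cs 0 f = 1 := by
  unfold cs
  rw [PowerSeries.coeff_C_mul, PowerSeries.coeff_zero_eq_constantCoeff_apply]
  exact inv_mul_cancel₀ (bb_ne _ (Cser_ne f h0))

theorem mu_ge (f : Polynomial ℤ) (h0 : f.coeff 0 ≠ 0) : 1 ≤ MM f / |(f.coeff 0 : ℝ)| := by
  rw [← Cser_norm f h0, norm_inv]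
  have h1 := PC_bb (cx f) 1 1
  have h2 : pn (1 : PowerSeries ℂ) 1 = 1 := Cser_pn_one 0
  rw [h2, mul_one] at h1
  have h3 : pn (bb (cx f)) 1 = ‖PowerSeries.constantCoeff (bb (cx f))‖ ^ 2 := by
    unfold pn
    rw [sum_range_one, PowerSeries.coeff_zero_eq_constantCoeff_apply]
  rw [h3] at h1
  have h4 : ‖PowerSeries.constantCoeff (bb (cx f))‖ ≤ 1 := by
    by_contra hc
    push Not at hc
    nlinarith
  have h5 : 0 < ‖PowerSeries.constantCoeff (bb (cx f))‖ :=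
    norm_pos_iff.2 (bb_ne _ (Cser_ne f h0))
  exact (one_le_inv₀ h5).2 h4

theorem cs_sum (f : Polynomial ℤ) (h0 : f.coeff 0 ≠ 0) (N : ℕ) :
    ∑ j ∈ range (N + 1), ‖cs j f‖ ^ 2 ≤ (MM f / |(f.coeff 0 : ℝ)|) ^ 2 := by
  have h := Cser_contr f h0 1 (N + 1)
  rw [Cser_pn_one, mul_one, mul_one] at h
  exact h

private theorem Cser_conv (a b : PowerSeries ℂ) (m : ℕ) :
    ∑ i ∈ range (m + 1), PowerSeries.coeff i a * PowerSeries.coeff (m - i) b =
      PowerSeries.coeff m (a * b) := by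
  rw [PowerSeries.coeff_mul, Finset.Nat.sum_antidiagonal_eq_sum_range_succ_mk]

private theorem Cser_ld (f : Polynomial ℤ) (h0 : f.coeff 0 ≠ 0) (m : ℕ) :
    PowerSeries.coeff m (PowerSeries.C (PowerSeries.constantCoeff (bb (cx f)))⁻¹ * bb (cx f) *
      ld (bb (cx f))) = m * cs m f := by
  have hb := bb_ne (cx f) (Cser_ne f h0)
  set β := PowerSeries.constantCoeff (bb (cx f)) with hβ
  set c : PowerSeries ℂ := PowerSeries.C β⁻¹ * bb (cx f) with hc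
  have h1 : ld (bb (cx f)) = ld c := (ld_C_mul (inv_ne_zero hb) hb).symm
  have hc0 : PowerSeries.constantCoeff c ≠ 0 := by
    rw [hc, map_mul, PowerSeries.constantCoeff_C]
    exact mul_ne_zero (inv_ne_zero hb) hb
  have h2 : c * ld c = PowerSeries.X * PowerSeries.derivative ℂ c := by
    unfold ld
    have h3 : c * c⁻¹ = 1 := PowerSeries.mul_inv_cancel _ hc0
    calc c * (PowerSeries.X * PowerSeries.derivative ℂ c * c⁻¹)
        = PowerSeries.X * PowerSeries.derivative ℂ c * (c * c⁻¹) := by ring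
      _ = _ := by rw [h3, mul_one]
  rw [h1, h2]
  have h4 : cs m f = PowerSeries.coeff m c := rfl
  rw [h4]
  cases m with
  | zero => simp
  | succ m =>
    rw [PowerSeries.coeff_succ_X_mul]
    simp only [PowerSeries.coeff_derivative]
    push_cast
    ring

theorem conv (f : Polynomial ℤ) (h0 : f.coeff 0 ≠ 0) (m : ℕ) :
    ∑ i ∈ range (m + 1), cs i f * PP (m - i) f =
      -(∑ i ∈ range (m + 1), cs i f * QQ (m - i) f) - m * cs m f := by
  have h1 : ∑ i ∈ range (m + 1), cs i f * QQ (m - i) f =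
      PowerSeries.coeff m (PowerSeries.C (PowerSeries.constantCoeff (bb (cx f)))⁻¹ * bb (cx f) *
        ld (ho (cx f))) := by
    rw [← Cser_conv]
    rfl
  have h2 : ∑ i ∈ range (m + 1), cs i f * PP (m - i) f =
      -PowerSeries.coeff m (PowerSeries.C (PowerSeries.constantCoeff (bb (cx f)))⁻¹ * bb (cx f) *
        ld ((cx f : Polynomial ℂ) : PowerSeries ℂ)) := by
    rw [← Cser_conv, ← sum_neg_distrib]
    refine sum_congr rfl fun i _ => ?_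
    unfold cs PP
    ring
  rw [h1, h2, ld_poly _ (Cser_ne f h0), mul_add, map_add, Cser_ld f h0 m]
  ring

theorem vbound (f : Polynomial ℤ) (h0 : f.coeff 0 ≠ 0) (N : ℕ) :
    ∑ m ∈ range (N + 1), ‖∑ i ∈ range (m + 1), cs i f * PP (m - i) f‖ ^ 2 ≤
      2 * (MM f / |(f.coeff 0 : ℝ)|) ^ 2 * (∑ m ∈ range (N + 1), ‖QQ m f‖ ^ 2 + N ^ 2) := by
  set μ := MM f / |(f.coeff 0 : ℝ)| with hμ
  have h1 : ∀ m, ∑ i ∈ range (m + 1), cs i f * QQ (m - i) f =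
      PowerSeries.coeff m (PowerSeries.C (PowerSeries.constantCoeff (bb (cx f)))⁻¹ * bb (cx f) *
        ld (ho (cx f))) := by
    intro m
    rw [← Cser_conv]
    rfl
  have h2 : ∀ m ∈ range (N + 1), ‖∑ i ∈ range (m + 1), cs i f * PP (m - i) f‖ ^ 2 ≤
      2 * ‖PowerSeries.coeff m (PowerSeries.C (PowerSeries.constantCoeff (bb (cx f)))⁻¹ *
        bb (cx f) * ld (ho (cx f)))‖ ^ 2 + 2 * ((N : ℝ) ^ 2 * ‖cs m f‖ ^ 2) := by
    intro m hm
    rw [conv f h0 m, h1 m]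
    set x := PowerSeries.coeff m (PowerSeries.C (PowerSeries.constantCoeff (bb (cx f)))⁻¹ *
        bb (cx f) * ld (ho (cx f)))
    have hmN : (m : ℝ) ≤ N := by
      have : m ≤ N := by simpa [Nat.lt_succ_iff] using hm
      exact_mod_cast this
    have h3 : ‖-x - m * cs m f‖ ≤ ‖x‖ + m * ‖cs m f‖ := by
      calc ‖-x - m * cs m f‖ ≤ ‖-x‖ + ‖(m : ℂ) * cs m f‖ := norm_sub_le _ _
        _ = ‖x‖ + m * ‖cs m f‖ := by rw [norm_neg, norm_mul]; simp
    have h4 : ‖-x - m * cs m f‖ ^ 2 ≤ (‖x‖ + m * ‖cs m f‖) ^ 2 :=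
      pow_le_pow_left₀ (norm_nonneg _) h3 2
    have h5 : (m : ℝ) * ‖cs m f‖ ≤ N * ‖cs m f‖ :=
      mul_le_mul_of_nonneg_right hmN (norm_nonneg _)
    have h6 : ((m : ℝ) * ‖cs m f‖) ^ 2 ≤ (N * ‖cs m f‖) ^ 2 :=
      pow_le_pow_left₀ (by positivity) h5 2
    nlinarith [sq_nonneg (‖x‖ - m * ‖cs m f‖)]
  have h7 := Cser_contr f h0 (ld (ho (cx f))) (N + 1)
  have h8 := cs_sum f h0 N
  rw [← hμ] at h7 h8
  have h9 : pn (ld (ho (cx f))) (N + 1) = ∑ m ∈ range (N + 1), ‖QQ m f‖ ^ 2 := rfl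
  rw [h9] at h7
  calc ∑ m ∈ range (N + 1), ‖∑ i ∈ range (m + 1), cs i f * PP (m - i) f‖ ^ 2
      ≤ ∑ m ∈ range (N + 1), (2 * ‖PowerSeries.coeff m (PowerSeries.C
          (PowerSeries.constantCoeff (bb (cx f)))⁻¹ * bb (cx f) * ld (ho (cx f)))‖ ^ 2 +
          2 * ((N : ℝ) ^ 2 * ‖cs m f‖ ^ 2)) := sum_le_sum h2
    _ = 2 * pn (PowerSeries.C (PowerSeries.constantCoeff (bb (cx f)))⁻¹ * bb (cx f) *
          ld (ho (cx f))) (N + 1) +
          2 * ((N : ℝ) ^ 2 * ∑ m ∈ range (N + 1), ‖cs m f‖ ^ 2) := by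
        rw [sum_add_distrib, ← mul_sum, ← mul_sum, ← mul_sum]
        rfl
    _ ≤ 2 * (μ ^ 2 * ∑ m ∈ range (N + 1), ‖QQ m f‖ ^ 2) + 2 * ((N : ℝ) ^ 2 * μ ^ 2) := by
        have h10 : (N : ℝ) ^ 2 * ∑ m ∈ range (N + 1), ‖cs m f‖ ^ 2 ≤ (N : ℝ) ^ 2 * μ ^ 2 :=
          mul_le_mul_of_nonneg_left h8 (sq_nonneg _)
        linarith
    _ = _ := by ring

end Pool.Agent.Lib.MP_7ab245_nt.Cnt
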