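import Pool.Agent.Lib.MP_7ab245_nt.Cnt.Defs

/-!
CT-Disc: the discriminant of a squarefree integer polynomial (not monic in general) is at least 1.

PROOF. `sqf_roots`: if `f` is squarefree in `ℤ[X]` then the complex roots are distinct. E.g.: `f` squarefree in `ℤ[X]` implies `f` squarefree in
`ℚ[X]` (if `r² ∣ f` in `ℚ[X]` with `r` irreducible, let `q` be a primitive integer polynomial associated to `r` over `ℚ`; `q² ` is primitive and divides
`f` over `ℚ`, hence `q² ∣ f` in `ℤ[X]`: Gauss lemma, `Polynomial.IsPrimitive.Int.dvd_iff_map_cast_dvd_map_cast` applied to `q²` and the primitive part of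
`f`), so `f` is separable over `ℚ` (PerfectField.separable_iff_squarefree), separable over `ℂ` (Separable.map), `nodup_roots`.
`disc`: let `R` be the resultant of `f` and `f'` (integer): `R = ± lc^{n-1} ∏_i f'(α_i)` (resultant_eq_prod_eval, see Len/Disc.lean abs_discr_eq for
the monic case), `f'(α_i) = lc ∏_{j≠i} (α_i - α_j) ≠ 0`. So `|R| = |lc|^{2n-1} ∏_{i≠j}|α_i - α_j|` is a positive integer, `≥ 1`. Logarithm.
-/

set_option autoImplicit false

open Finset

namespace Pool.Agent.Lib.MP_7ab245_nt.Cnt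

open Polynomial in
private theorem disc_prim (x : ℚ[X]) (hx : x ≠ 0) :
    ∃ q : ℤ[X], q.IsPrimitive ∧ Associated (q.map (Int.castRingHom ℚ)) x := by
  obtain ⟨b, hb, h⟩ := IsLocalization.integerNormalization_spec (nonZeroDivisors ℤ) x
  set p := IsLocalization.integerNormalization (nonZeroDivisors ℤ) x with hp
  have hb0 : (b : ℤ) ≠ 0 := nonZeroDivisors.ne_zero hb
  have hmap : p.map (Int.castRingHom ℚ) = C (b : ℚ) * x := by
    have h' : p.map (algebraMap ℤ ℚ) = b • x := h
    rw [eq_comm, ← smul_eq_C_mul]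
    rw [show (Int.castRingHom ℚ) = algebraMap ℤ ℚ from rfl, h']
    ext k
    simp
  have hb1 : IsUnit (C (b : ℚ) : ℚ[X]) :=
    isUnit_C.mpr (isUnit_iff_ne_zero.mpr (by exact_mod_cast hb0))
  have hp0 : p ≠ 0 := by
    intro h0
    rw [h0, Polynomial.map_zero] at hmap
    rcases mul_eq_zero.mp hmap.symm with h1 | h1
    · exact hb1.ne_zero h1
    · exact hx h1
  refine ⟨p.primPart, p.isPrimitive_primPart, ?_⟩
  have h2 : p.map (Int.castRingHom ℚ) = C (p.content : ℚ) * p.primPart.map (Int.castRingHom ℚ) := by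
    conv_lhs => rw [p.eq_C_content_mul_primPart]
    rw [Polynomial.map_mul, map_C]
    rfl
  have h3 : IsUnit (C (p.content : ℚ) : ℚ[X]) := by
    refine isUnit_C.mpr (isUnit_iff_ne_zero.mpr ?_)
    have : p.content ≠ 0 := fun h => hp0 (content_eq_zero_iff.mp h)
    exact_mod_cast this
  have h4 : Associated (p.map (Int.castRingHom ℚ)) (p.primPart.map (Int.castRingHom ℚ)) := by
    rw [h2]
    exact (associated_unit_mul_left _ _ h3)
  have h5 : Associated (p.map (Int.castRingHom ℚ)) x := by
    rw [hmap]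
    exact (associated_unit_mul_left _ _ hb1)
  exact h4.symm.trans h5

theorem sqf_roots (f : Polynomial ℤ) (hf : Squarefree f) : (cx f).roots.Nodup := by
  have hf0 : f ≠ 0 := hf.ne_zero
  have hF : Squarefree (f.map (Int.castRingHom ℚ)) := by
    intro x hx
    have hF0 : f.map (Int.castRingHom ℚ) ≠ 0 := by
      rw [Ne, Polynomial.map_eq_zero_iff (RingHom.injective_int _)]
      exact hf0
    have hx0 : x ≠ 0 := by
      rintro rfl
      rw [mul_zero, zero_dvd_iff] at hx
      exact hF0 hx
    obtain ⟨q, hq, hqx⟩ := disc_prim x hx0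
    have h1 : (q * q).map (Int.castRingHom ℚ) ∣ f.map (Int.castRingHom ℚ) := by
      rw [Polynomial.map_mul]
      exact ((hqx.mul_mul hqx).dvd).trans hx
    have h2 : q * q ∣ f := (Polynomial.IsPrimitive.Int.dvd_iff_map_cast_dvd_map_cast (q * q) f
      (hq.mul hq)).mpr h1
    have h3 : IsUnit q := hf q h2
    exact hqx.isUnit (h3.map (Polynomial.mapRingHom (Int.castRingHom ℚ)))
  have hsep : (f.map (Int.castRingHom ℚ)).Separable := PerfectField.separable_iff_squarefree.mpr hF
  have hcx : cx f = (f.map (Int.castRingHom ℚ)).map (algebraMap ℚ ℂ) := by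
    rw [cx, Polynomial.map_map]
    congr 1
  rw [hcx]
  exact Polynomial.nodup_roots hsep.map

theorem disc (f : Polynomial ℤ) (n : ℕ) (hn : f.natDegree = n) (hn0 : 0 < n) (α : Fin n → ℂ)
    (hα : (cx f).roots = univ.val.map α) (hinj : Function.Injective α) :
    0 ≤ (2 * n - 1) * Real.log |(f.leadingCoeff : ℝ)| +
      ∑ i, ∑ j ∈ univ.erase i, Real.log ‖α i - α j‖ := by
  have hf0 : f ≠ 0 := by
    rintro rfl
    simp at hn
    omega
  have ha : f.leadingCoeff ≠ 0 := Polynomial.leadingCoeff_ne_zero.mpr hf0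
  set F := cx f with hF
  have hFl : F.leadingCoeff = (f.leadingCoeff : ℂ) := by
    rw [hF, cx, Polynomial.leadingCoeff_map_of_injective (RingHom.injective_int _)]
    rfl
  have hFd : F.natDegree = n := by
    rw [hF, cx, Polynomial.natDegree_map_eq_of_injective (RingHom.injective_int _), hn]
  have hfac : F = Polynomial.C (f.leadingCoeff : ℂ) * ∏ j, (Polynomial.X - Polynomial.C (α j)) := by
    have h1 := (IsAlgClosed.splits F).eq_prod_roots
    rw [hFl, hα, Multiset.map_map] at h1
    exact h1
  have h8 : ∀ i, F.derivative.eval (α i) =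
      (f.leadingCoeff : ℂ) * ∏ j ∈ univ.erase i, (α i - α j) := by
    intro i
    rw [hfac, Polynomial.derivative_C_mul, Polynomial.derivative_prod_finset]
    simp only [Polynomial.derivative_sub, Polynomial.derivative_X, Polynomial.derivative_C,
      sub_zero, mul_one]
    rw [Polynomial.eval_C_mul, Polynomial.eval_finsetSum, Finset.sum_eq_single i]
    · rw [Polynomial.eval_prod]
      simp
    · intro k _ hk
      rw [Polynomial.eval_prod]
      apply Finset.prod_eq_zero (Finset.mem_erase.mpr ⟨hk.symm, Finset.mem_univ i⟩)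
      simp
    · intro h; exact absurd (Finset.mem_univ i) h
  set R : ℤ := Polynomial.resultant f f.derivative n (n - 1) with hR
  have h5 : (Int.castRingHom ℂ) R = Polynomial.resultant F F.derivative n (n - 1) := by
    rw [hR, ← Polynomial.resultant_map_map, hF, cx, Polynomial.derivative_map]
  have h7 := Polynomial.resultant_eq_prod_eval F F.derivative (n - 1)
    ((Polynomial.natDegree_derivative_le F).trans (by rw [hFd])) (IsAlgClosed.splits F)
  rw [hFl, hFd, ← h5, hα, Multiset.map_map] at h7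
  have h9 : ((R : ℤ) : ℂ) = (f.leadingCoeff : ℂ) ^ (n - 1) * ∏ i, F.derivative.eval (α i) := h7
  have hne : ∀ i, ∀ j ∈ univ.erase i, ‖α i - α j‖ ≠ 0 := by
    intro i j hj
    rw [norm_ne_zero_iff, sub_ne_zero]
    intro h
    exact (Finset.mem_erase.mp hj).1 (hinj h).symm
  have h10 : |(R : ℝ)| = |(f.leadingCoeff : ℝ)| ^ (2 * n - 1) *
      ∏ i, ∏ j ∈ univ.erase i, ‖α i - α j‖ := by
    have h11 := congrArg norm h9
    rw [Complex.norm_intCast, norm_mul, norm_pow, Complex.norm_intCast, norm_prod] at h11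
    rw [h11]
    simp only [h8, norm_mul, Complex.norm_intCast, norm_prod]
    rw [Finset.prod_mul_distrib, Finset.prod_const, Finset.card_univ, Fintype.card_fin, ← mul_assoc,
      ← pow_add]
    congr 2
    omega
  have ha' : |(f.leadingCoeff : ℝ)| ≠ 0 := by
    rw [abs_ne_zero]
    exact_mod_cast ha
  have hprod : ∏ i, ∏ j ∈ univ.erase i, ‖α i - α j‖ ≠ 0 :=
    Finset.prod_ne_zero_iff.mpr fun i _ => Finset.prod_ne_zero_iff.mpr (hne i)
  have hR0 : |(R : ℝ)| ≠ 0 := by
    rw [h10]
    exact mul_ne_zero (pow_ne_zero _ ha') hprod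
  have hR1 : (1 : ℝ) ≤ |(R : ℝ)| := by
    have h12 : R ≠ 0 := by
      rintro h
      rw [h] at hR0
      simp at hR0
    have := Int.one_le_abs h12
    exact_mod_cast this
  have h13 := Real.log_nonneg hR1
  rw [h10, Real.log_mul (pow_ne_zero _ ha') hprod, Real.log_pow,
    Real.log_prod (fun i _ => Finset.prod_ne_zero_iff.mpr (hne i))] at h13
  have h14 : ∀ i, Real.log (∏ j ∈ univ.erase i, ‖α i - α j‖) =
      ∑ j ∈ univ.erase i, Real.log ‖α i - α j‖ := fun i => Real.log_prod (hne i)
  simp only [h14] at h13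
  have h15 : ((2 * n - 1 : ℕ) : ℝ) = 2 * n - 1 := by
    rw [Nat.cast_sub (by omega)]
    push_cast
    ring
  rw [h15] at h13
  exact h13

end Pool.Agent.Lib.MP_7ab245_nt.Cnt
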