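import Mathlib
import Pool.Agent.Lib.MP_7ab245_nt.LogVar.Blaschke

/-!
Counting integer polynomials of bounded Mahler measure: definitions. Do not edit.
-/

set_option autoImplicit false

open Finset

namespace Pool.Agent.Lib.MP_7ab245_nt.Cnt

open Pool.Agent.Lib.MP_7ab245_nt.LogVar

section avg

variable {ι : Type} [Fintype ι]

/-- the objects whose integer data `a j`, `j < k`, agree with those of `f` -/
def cls (a : ℕ → ι → ℤ) (k : ℕ) (f : ι) : Finset ι :=
  univ.filter fun g => ∀ j < k, a j g = a j f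

/-- average over the class -/
noncomputable def av (a : ℕ → ι → ℤ) (k : ℕ) (X : ι → ℂ) (f : ι) : ℂ :=
  (∑ g ∈ cls a k f, X g) / ((cls a k f).card : ℂ)

/-- the convolution of `c` and `p` -/
noncomputable def vv (c p : ℕ → ι → ℂ) (m : ℕ) (f : ι) : ℂ :=
  ∑ i ∈ range (m + 1), c i f * p (m - i) f

/-- the predictor -/
noncomputable def ph (a : ℕ → ι → ℤ) (c p : ℕ → ι → ℂ) (k : ℕ) (f : ι) : ℂ :=
  -∑ i ∈ Icc 1 k, av a k (c i) f * p (k - i) f

end avg

/-- the partial sums of `∑ exp (- s y ^ 2)`, `y` integer -/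
noncomputable def gs (s : ℝ) (B : ℕ) : ℝ :=
  ∑ y ∈ Icc (-(B : ℤ)) (B : ℤ), Real.exp (-(s * (y : ℝ) ^ 2))

/-- complex version of an integer polynomial -/
noncomputable def cx (f : Polynomial ℤ) : Polynomial ℂ := f.map (Int.castRingHom ℂ)

/-- Mahler measure -/
noncomputable def MM (f : Polynomial ℤ) : ℝ := (cx f).mahlerMeasure

/-- power sums of the inverses of the zeros: the coefficients of `- x f' / f` -/
noncomputable def PP (m : ℕ) (f : Polynomial ℤ) : ℂ :=
  - PowerSeries.coeff m (ld ((cx f : Polynomial ℂ) : PowerSeries ℂ))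

/-- the power sums after reflection of the zeros in the open unit disc (up to the sign) -/
noncomputable def QQ (m : ℕ) (f : Polynomial ℤ) : ℂ :=
  PowerSeries.coeff m (ld (ho (cx f)))

/-- the coefficients of the Blaschke product of the zeros in the open unit disc, divided by its
value at `0` -/
noncomputable def cs (m : ℕ) (f : Polynomial ℤ) : ℂ :=
  PowerSeries.coeff m (PowerSeries.C (PowerSeries.constantCoeff (bb (cx f)))⁻¹ * bb (cx f))

/-- the exponent in the bounds, `0` for `n = 0` -/
noncomputable def XX (n : ℕ) (T : ℝ) : ℝ := T ^ 2 * √(n * Real.log (2 * n * T))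

end Pool.Agent.Lib.MP_7ab245_nt.Cnt
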