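import Pool.Agent.Lib.MP_7ab245_nt.Cnt.Defs

/-!
CT-Gauss: bounds for the partial sums `gs s B` of `∑ exp (- s y²)`.

PROOF. `gs s B = 1 + 2 ∑_{y=1}^B exp (- s y²)`. (1) `∑_{y=1}^B exp(-s y²) ≤ ∫_0^∞ exp(-s t²) dt = √(π/s)/2 ≤ 2/√s`; or elementary:
with `Y = ⌈1/√s⌉`: the terms `y ≤ Y`, at most `1` each, if `s ≤ 1` then `Y ≤ 2/√s`... any proof of `≤ 2/√s` is fine, e.g.
`exp (-s y²) ≤ 1/(1 + s y²) ≤ (1/√s) (arctan (√s y) - arctan (√s (y-1)))` (the function 1/(1+s t²) is decreasing, or the mean value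
theorem) and `arctan ≤ π/2 ≤ 2`. (2) for `s ≥ 1`: `exp(-s y²) ≤ exp(-s y) `, geometric series: `∑_{y≥1} e^{-s y} = e^{-s}/(1-e^{-s}) ≤ 2 e^{-s}`
as `e^{-1} ≤ 1/2`.
-/

set_option autoImplicit false

open Finset

namespace Pool.Agent.Lib.MP_7ab245_nt.Cnt

theorem gs_pos (s : ℝ) (B : ℕ) : 0 < gs s B := by
  unfold gs
  refine Finset.sum_pos (fun y _ => Real.exp_pos _) ?_
  exact ⟨0, by simp⟩

private theorem gs_eq (s : ℝ) (B : ℕ) :
    gs s B = 1 + 2 * ∑ y ∈ range B, Real.exp (-(s * ((y : ℝ) + 1) ^ 2)) := by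
  induction B with
  | zero => simp [gs]
  | succ B ih =>
    rw [sum_range_succ]
    have h1 : gs s (B + 1) = gs s B + 2 * Real.exp (-(s * ((B : ℝ) + 1) ^ 2)) := by
      unfold gs
      have hset : Icc (-((B + 1 : ℕ) : ℤ)) ((B + 1 : ℕ) : ℤ) =
          insert (((B : ℤ) + 1)) (insert (-((B : ℤ) + 1)) (Icc (-(B : ℤ)) (B : ℤ))) := by
        ext z
        simp only [mem_Icc, mem_insert]
        push_cast
        omega
      rw [hset, sum_insert, sum_insert]
      · push_cast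
        ring_nf
      · simp only [mem_Icc]
        omega
      · simp only [mem_insert, mem_Icc]
        omega
    rw [h1, ih]
    ring

private theorem arctan_step {a b : ℝ} (ha : 0 ≤ a) (hab : a ≤ b) :
    1 / (1 + b ^ 2) * (b - a) ≤ Real.arctan b - Real.arctan a := by
  have h := Convex.mul_sub_le_image_sub_of_le_deriv (convex_Icc a b) (f := Real.arctan)
    (Real.continuous_arctan.continuousOn) (Real.differentiable_arctan.differentiableOn)
    (C := 1 / (1 + b ^ 2)) ?_ a (Set.left_mem_Icc.2 hab) b (Set.right_mem_Icc.2 hab) hab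
  · exact h
  · intro x hx
    rw [interior_Icc] at hx
    rw [Real.deriv_arctan]
    have hx0 : 0 ≤ x := ha.trans hx.1.le
    have hxb : x ≤ b := hx.2.le
    apply one_div_le_one_div_of_le
    · positivity
    · nlinarith

theorem gs_le (s : ℝ) (hs : 0 < s) (B : ℕ) : gs s B ≤ 1 + 4 / √s := by
  rw [gs_eq]
  have hsq : 0 < √s := Real.sqrt_pos.2 hs
  have hss : √s ^ 2 = s := Real.sq_sqrt hs.le
  have key : ∀ y : ℕ, Real.exp (-(s * ((y : ℝ) + 1) ^ 2)) ≤
      (1 / √s) * (Real.arctan (√s * ((y + 1 : ℕ) : ℝ)) - Real.arctan (√s * (y : ℝ))) := by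
    intro y
    have h1 : Real.exp (-(s * ((y : ℝ) + 1) ^ 2)) ≤ 1 / (1 + s * ((y : ℝ) + 1) ^ 2) := by
      rw [Real.exp_neg, ← one_div]
      apply one_div_le_one_div_of_le
      · positivity
      · have := Real.add_one_le_exp (s * ((y : ℝ) + 1) ^ 2)
        linarith
    have h2 := arctan_step (a := √s * (y : ℝ)) (b := √s * ((y + 1 : ℕ) : ℝ)) (by positivity)
      (by push_cast; nlinarith)
    have h3 : √s * ((y + 1 : ℕ) : ℝ) - √s * (y : ℝ) = √s := by
      push_cast; ring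
    have h4 : 1 + (√s * ((y + 1 : ℕ) : ℝ)) ^ 2 = 1 + s * ((y : ℝ) + 1) ^ 2 := by
      rw [mul_pow, hss]; push_cast; ring
    rw [h3, h4] at h2
    calc Real.exp (-(s * ((y : ℝ) + 1) ^ 2)) ≤ 1 / (1 + s * ((y : ℝ) + 1) ^ 2) := h1
      _ = (1 / √s) * (1 / (1 + s * ((y : ℝ) + 1) ^ 2) * √s) := by
          field_simp
      _ ≤ _ := mul_le_mul_of_nonneg_left h2 (by positivity)
  have h5 : ∑ y ∈ range B, Real.exp (-(s * ((y : ℝ) + 1) ^ 2)) ≤ (1 / √s) * 2 := by
    calc ∑ y ∈ range B, Real.exp (-(s * ((y : ℝ) + 1) ^ 2))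
        ≤ ∑ y ∈ range B, (1 / √s) *
            (Real.arctan (√s * ((y + 1 : ℕ) : ℝ)) - Real.arctan (√s * (y : ℝ))) :=
          sum_le_sum fun y _ => key y
      _ = (1 / √s) * (Real.arctan (√s * (B : ℝ)) - Real.arctan (√s * ((0 : ℕ) : ℝ))) := by
          rw [← mul_sum, sum_range_sub (fun y : ℕ => Real.arctan (√s * (y : ℝ)))]
      _ ≤ (1 / √s) * 2 := by
          apply mul_le_mul_of_nonneg_left _ (by positivity)
          simp only [Nat.cast_zero, mul_zero, Real.arctan_zero, sub_zero]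
          have := Real.arctan_lt_pi_div_two (√s * (B : ℝ))
          have := Real.pi_le_four
          linarith
  have h6 : (4 : ℝ) / √s = 2 * ((1 / √s) * 2) := by ring
  rw [h6]
  linarith

theorem gs_le_exp (s : ℝ) (hs : 1 ≤ s) (B : ℕ) : gs s B ≤ 1 + 4 * Real.exp (-s) := by
  rw [gs_eq]
  set r := Real.exp (-s) with hr
  have hr0 : 0 < r := Real.exp_pos _
  have hr2 : r ≤ 1 / 2 := by
    have h1 : r ≤ Real.exp (-1) := Real.exp_le_exp.2 (by linarith)
    have h2 : Real.exp (-1) ≤ 1 / 2 := by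
      rw [Real.exp_neg, ← one_div]
      apply one_div_le_one_div_of_le (by norm_num)
      have := Real.add_one_le_exp (1 : ℝ)
      linarith
    exact h1.trans h2
  have key : ∀ y : ℕ, Real.exp (-(s * ((y : ℝ) + 1) ^ 2)) ≤ r * (1 / 2) ^ y := by
    intro y
    have h1 : Real.exp (-(s * ((y : ℝ) + 1) ^ 2)) ≤ r ^ (y + 1) := by
      rw [hr, ← Real.exp_nat_mul]
      apply Real.exp_le_exp.2
      push_cast
      have hy : (0 : ℝ) ≤ y := Nat.cast_nonneg y
      nlinarith [mul_nonneg hy (by linarith : (0 : ℝ) ≤ s)]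
    calc _ ≤ r ^ (y + 1) := h1
      _ = r * r ^ y := by ring
      _ ≤ r * (1 / 2) ^ y := by gcongr
  have hgeo : ∀ B : ℕ, ∑ y ∈ range B, ((1 : ℝ) / 2) ^ y ≤ 2 := by
    intro B
    have : ∑ y ∈ range B, ((1 : ℝ) / 2) ^ y = 2 - 2 * (1 / 2) ^ B := by
      induction B with
      | zero => simp
      | succ B ih => rw [sum_range_succ, ih]; ring
    rw [this]
    have : (0 : ℝ) ≤ (1 / 2) ^ B := by positivity
    linarith
  have h5 : ∑ y ∈ range B, Real.exp (-(s * ((y : ℝ) + 1) ^ 2)) ≤ r * 2 := by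
    calc _ ≤ ∑ y ∈ range B, r * (1 / 2) ^ y := sum_le_sum fun y _ => key y
      _ = r * ∑ y ∈ range B, ((1 : ℝ) / 2) ^ y := by rw [mul_sum]
      _ ≤ r * 2 := mul_le_mul_of_nonneg_left (hgeo B) hr0.le
  linarith

end Pool.Agent.Lib.MP_7ab245_nt.Cnt
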