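import Pool.Agent.Lib.MP_7ab245_nt.Cnt.Abel
import Pool.Agent.Lib.MP_7ab245_nt.Cnt.Gauss

/-!
CT-Weights: the choice of the weights.

PROOF. `s k = k²/K²` and `Z k = 1 + 4K/k` if `k ≤ K`; `s k = √(k/K)`, `Z k = 1 + 4 exp (-√(k/K))` if `k > K`. (gs_le, gs_le_exp.)
`∑ log Z`: for `k ≤ K`: `log (1 + x) ≤ √x`, so `≤ 2√K/√k`, sum `≤ 4K` (sum_sqrt). For `k > K`: `log Z ≤ 4 exp(-√t)`, `t = k/K`, and
`exp(-√t) ≤ 24/t²` (`exp u ≥ u⁴/24`), so `≤ 96 K²/k²`, sum `≤ 192 K` (sum_inv_sq). Total `≤ 196 K`.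
Last part: `∑ s k S k = ∑ w k (k² S k)`, `w k = s k / k²`: `1/K²` for `k ≤ K`, `1/(√K k √k)` for `k > K`, nonincreasing (at the change:
`1/(√K k √k) ≤ 1/K²` as `k ≥ K`). `abel` with `A = K²`: `≤ K² ∑ w k ≤ K² (K/K² + (1/√K)(3/√K)) = K + 3K = 4 K` (number of `k ≤ K` is `≤ K`).
-/

set_option autoImplicit false

open Finset

namespace Pool.Agent.Lib.MP_7ab245_nt.Cnt

private theorem log_one_add_sq_le (u : ℝ) (hu : 0 ≤ u) : Real.log (1 + u ^ 2) ≤ u := by
  rw [Real.log_le_iff_le_exp (by positivity)]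
  have h1 : 1 + u / 2 + (u / 2) ^ 2 / 2 ≤ Real.exp (u / 2) :=
    Real.quadratic_le_exp_of_nonneg (by positivity)
  have h2 : Real.exp u = Real.exp (u / 2) ^ 2 := by
    rw [← Real.exp_nat_mul]
    congr 1
    push_cast
    ring
  have h3 : (1 + u / 2 + (u / 2) ^ 2 / 2) ^ 2 ≤ Real.exp (u / 2) ^ 2 :=
    pow_le_pow_left₀ (by positivity) h1 2
  rw [h2]
  refine le_trans ?_ h3
  have h4 : 0 ≤ u * (1 - u / 2 + u ^ 2 / 8 + u ^ 3 / 64) := by
    apply mul_nonneg hu
    have : 0 ≤ u ^ 3 / 64 := by positivity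
    nlinarith [sq_nonneg (u - 2)]
  nlinarith

/-- the weights `s k / k ^ 2` -/
private noncomputable def ww (K : ℝ) (k : ℕ) : ℝ :=
  if (k : ℝ) ≤ K then 1 / K ^ 2 else 1 / √K * (1 / ((k : ℝ) * √k))

private theorem ww_anti (K : ℝ) (hK : 1 ≤ K) (k : ℕ) (hk : 1 ≤ k) : ww K (k + 1) ≤ ww K k := by
  have hK0 : 0 < K := by linarith
  have hk0 : (0 : ℝ) < k := by exact_mod_cast hk
  have hsK : 0 < √K := Real.sqrt_pos.mpr hK0
  have hKK : √K * √K = K := Real.mul_self_sqrt hK0.le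
  unfold ww
  push_cast
  split_ifs with h1 h2 h2
  · exact le_refl _
  · exact absurd (by linarith : (k : ℝ) ≤ K) h2
  · push Not at h1
    have h3 : √K * (K * √K) = K ^ 2 := by linear_combination K * hKK
    have h4 : √K * (K * √K) ≤ √K * (((k : ℝ) + 1) * √((k : ℝ) + 1)) := by
      refine mul_le_mul_of_nonneg_left ?_ hsK.le
      exact mul_le_mul h1.le (Real.sqrt_le_sqrt h1.le) hsK.le (by positivity)
    rw [one_div_mul_one_div]
    rw [h3] at h4
    exact one_div_le_one_div_of_le (by positivity) h4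
  · push Not at h1 h2
    refine mul_le_mul_of_nonneg_left ?_ (by positivity)
    refine one_div_le_one_div_of_le (by positivity) ?_
    refine mul_le_mul (by linarith) (Real.sqrt_le_sqrt (by linarith)) (by positivity) (by positivity)

theorem weights (n : ℕ) (K : ℝ) (hK : 1 ≤ K) : ∃ s Z : ℕ → ℝ,
    (∀ k ∈ Icc 1 n, 0 < Z k) ∧ (∀ k ∈ Icc 1 n, 0 ≤ s k) ∧
    (∀ k ∈ Icc 1 n, ∀ B : ℕ, gs (s k) B ≤ Z k) ∧
    ∑ k ∈ Icc 1 n, Real.log (Z k) ≤ 196 * K ∧
    ∀ S : ℕ → ℝ, (∀ k, 0 ≤ S k) → (∀ N ≤ n, ∑ k ∈ Icc 1 N, (k : ℝ) ^ 2 * S k ≤ K ^ 2 * N) →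
      ∑ k ∈ Icc 1 n, s k * S k ≤ 4 * K := by
  have hK0 : 0 < K := by linarith
  have hsK : 0 < √K := Real.sqrt_pos.mpr hK0
  have hKK : √K * √K = K := Real.mul_self_sqrt hK0.le
  refine ⟨fun k => if (k : ℝ) ≤ K then (k : ℝ) ^ 2 / K ^ 2 else √((k : ℝ) / K),
    fun k => if (k : ℝ) ≤ K then 1 + 4 * K / k else 1 + 4 * Real.exp (-√((k : ℝ) / K)),
    ?_, ?_, ?_, ?_, ?_⟩
  · intro k hk
    beta_reduce
    split_ifs <;> positivity
  · intro k hk
    beta_reduce
    split_ifs <;> positivity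
  · intro k hk B
    have hk1 : (0 : ℝ) < k := by exact_mod_cast (mem_Icc.mp hk).1
    beta_reduce
    split_ifs with h
    · have h1 := gs_le ((k : ℝ) ^ 2 / K ^ 2) (by positivity) B
      have h2 : √((k : ℝ) ^ 2 / K ^ 2) = k / K := by
        rw [← div_pow, Real.sqrt_sq (by positivity)]
      rw [h2] at h1
      have h3 : 4 / ((k : ℝ) / K) = 4 * K / k := by
        field_simp
      rwa [h3] at h1
    · push Not at h
      apply gs_le_exp
      rw [Real.one_le_sqrt, one_le_div hK0]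
      exact h.le
  · rw [← Finset.sum_filter_add_sum_filter_not (Icc 1 n) (fun k : ℕ => (k : ℝ) ≤ K)]
    have h1 : ∑ k ∈ (Icc 1 n).filter (fun k : ℕ => (k : ℝ) ≤ K),
        Real.log (if (k : ℝ) ≤ K then 1 + 4 * K / k else 1 + 4 * Real.exp (-√((k : ℝ) / K))) ≤
        4 * K := by
      calc ∑ k ∈ (Icc 1 n).filter (fun k : ℕ => (k : ℝ) ≤ K),
            Real.log (if (k : ℝ) ≤ K then 1 + 4 * K / k else 1 + 4 * Real.exp (-√((k : ℝ) / K)))
          ≤ ∑ k ∈ (Icc 1 n).filter (fun k : ℕ => (k : ℝ) ≤ K), 2 * √K * (1 / √(k : ℝ)) := by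
            refine Finset.sum_le_sum fun k hk => ?_
            rw [Finset.mem_filter] at hk
            have hk1 : (0 : ℝ) < k := by exact_mod_cast (mem_Icc.mp hk.1).1
            rw [if_pos hk.2]
            have h2 : 4 * K / k = (2 * √K * (1 / √(k : ℝ))) ^ 2 := by
              rw [mul_pow, mul_pow, div_pow, Real.sq_sqrt hK0.le, Real.sq_sqrt hk1.le]
              ring
            rw [h2]
            exact log_one_add_sq_le _ (by positivity)
        _ = 2 * √K * ∑ k ∈ (Icc 1 n).filter (fun k : ℕ => (k : ℝ) ≤ K), 1 / √(k : ℝ) := by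
            rw [Finset.mul_sum]
        _ ≤ 2 * √K * (2 * √K) := mul_le_mul_of_nonneg_left (sum_sqrt n K hK) (by positivity)
        _ = 4 * K := by linear_combination 4 * hKK
    have h2 : ∑ k ∈ (Icc 1 n).filter (fun k : ℕ => ¬ (k : ℝ) ≤ K),
        Real.log (if (k : ℝ) ≤ K then 1 + 4 * K / k else 1 + 4 * Real.exp (-√((k : ℝ) / K))) ≤
        192 * K := by
      have e : (Icc 1 n).filter (fun k : ℕ => ¬ (k : ℝ) ≤ K) =
          (Icc 1 n).filter (fun k : ℕ => K < (k : ℝ)) := by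
        simp only [not_le]
      calc ∑ k ∈ (Icc 1 n).filter (fun k : ℕ => ¬ (k : ℝ) ≤ K),
            Real.log (if (k : ℝ) ≤ K then 1 + 4 * K / k else 1 + 4 * Real.exp (-√((k : ℝ) / K)))
          ≤ ∑ k ∈ (Icc 1 n).filter (fun k : ℕ => ¬ (k : ℝ) ≤ K), 96 * K ^ 2 * (1 / (k : ℝ) ^ 2) := by
            refine Finset.sum_le_sum fun k hk => ?_
            rw [Finset.mem_filter] at hk
            have hk1 : (0 : ℝ) < k := by exact_mod_cast (mem_Icc.mp hk.1).1
            rw [if_neg hk.2]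
            set u : ℝ := √((k : ℝ) / K) with hu
            have hu0 : 0 < u := Real.sqrt_pos.mpr (by positivity)
            have h3 : Real.log (1 + 4 * Real.exp (-u)) ≤ 4 * Real.exp (-u) := by
              have := Real.log_le_sub_one_of_pos (show 0 < 1 + 4 * Real.exp (-u) by positivity)
              linarith
            have h4 : u ^ 4 / 24 ≤ Real.exp u := by
              have := Real.pow_div_factorial_le_exp u hu0.le 4
              norm_num [Nat.factorial] at this
              exact this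
            have h5 : Real.exp (-u) ≤ 24 / u ^ 4 := by
              rw [Real.exp_neg, inv_eq_one_div, div_le_div_iff₀ (Real.exp_pos _) (by positivity)]
              linarith
            have h6 : u ^ 4 = ((k : ℝ) / K) ^ 2 := by
              rw [hu, show (4 : ℕ) = 2 * 2 from rfl, pow_mul, Real.sq_sqrt (by positivity)]
            rw [h6] at h5
            have h7 : 4 * (24 / ((k : ℝ) / K) ^ 2) = 96 * K ^ 2 * (1 / (k : ℝ) ^ 2) := by
              field_simp
              ring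
            linarith
        _ = 96 * K ^ 2 * ∑ k ∈ (Icc 1 n).filter (fun k : ℕ => K < (k : ℝ)), 1 / (k : ℝ) ^ 2 := by
            rw [e, Finset.mul_sum]
        _ ≤ 96 * K ^ 2 * (2 / K) := mul_le_mul_of_nonneg_left (sum_inv_sq n K hK) (by positivity)
        _ = 192 * K := by
            field_simp
            ring
    linarith
  · intro S hS hN
    have h1 : ∑ k ∈ Icc 1 n, (if (k : ℝ) ≤ K then (k : ℝ) ^ 2 / K ^ 2 else √((k : ℝ) / K)) * S k =
        ∑ k ∈ Icc 1 n, ww K k * ((k : ℝ) ^ 2 * S k) := by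
      refine Finset.sum_congr rfl fun k hk => ?_
      have hk1 : (0 : ℝ) < k := by exact_mod_cast (mem_Icc.mp hk).1
      have hsk : 0 < √(k : ℝ) := Real.sqrt_pos.mpr hk1
      have hkk : √(k : ℝ) * √(k : ℝ) = k := Real.mul_self_sqrt hk1.le
      unfold ww
      split_ifs with h
      · ring
      · rw [Real.sqrt_div hk1.le]
        have h2 : √(k : ℝ) / √K = 1 / √K * (1 / ((k : ℝ) * √k)) * (k : ℝ) ^ 2 := by
          field_simp
          nlinarith
        rw [h2]
        ring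
    beta_reduce
    rw [h1]
    have h2 := abel n (ww K) (fun k => (k : ℝ) ^ 2 * S k) (K ^ 2) (fun k hk => ww_anti K hK k hk)
      (fun k _ => by unfold ww; split_ifs <;> positivity) hN
    refine h2.trans ?_
    have h3 : ∑ k ∈ Icc 1 n, ww K k ≤ 4 / K := by
      rw [← Finset.sum_filter_add_sum_filter_not (Icc 1 n) (fun k : ℕ => (k : ℝ) ≤ K)]
      have e : (Icc 1 n).filter (fun k : ℕ => ¬ (k : ℝ) ≤ K) =
          (Icc 1 n).filter (fun k : ℕ => K < (k : ℝ)) := by
        simp only [not_le]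
      have h4 : ∑ k ∈ (Icc 1 n).filter (fun k : ℕ => (k : ℝ) ≤ K), ww K k ≤ 1 / K := by
        have h5 : ∑ k ∈ (Icc 1 n).filter (fun k : ℕ => (k : ℝ) ≤ K), ww K k =
            ((Icc 1 n).filter (fun k : ℕ => (k : ℝ) ≤ K)).card * (1 / K ^ 2) := by
          rw [← nsmul_eq_mul, ← Finset.sum_const]
          refine Finset.sum_congr rfl fun k hk => ?_
          unfold ww
          rw [if_pos (Finset.mem_filter.mp hk).2]
        have h6 : (((Icc 1 n).filter (fun k : ℕ => (k : ℝ) ≤ K)).card : ℝ) ≤ K := by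
          have h7 : ((Icc 1 n).filter (fun k : ℕ => (k : ℝ) ≤ K)).card ≤ ⌊K⌋₊ := by
            refine (Finset.card_le_card (t := Icc 1 ⌊K⌋₊) ?_).trans (by simp)
            intro k hk
            rw [Finset.mem_filter, Finset.mem_Icc] at hk
            rw [Finset.mem_Icc]
            exact ⟨hk.1.1, Nat.le_floor hk.2⟩
          calc (((Icc 1 n).filter (fun k : ℕ => (k : ℝ) ≤ K)).card : ℝ) ≤ (⌊K⌋₊ : ℝ) := by
                exact_mod_cast h7
            _ ≤ K := Nat.floor_le hK0.le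
        rw [h5]
        calc (((Icc 1 n).filter (fun k : ℕ => (k : ℝ) ≤ K)).card : ℝ) * (1 / K ^ 2) ≤
              K * (1 / K ^ 2) := mul_le_mul_of_nonneg_right h6 (by positivity)
          _ = 1 / K := by
              field_simp
      have h5 : ∑ k ∈ (Icc 1 n).filter (fun k : ℕ => ¬ (k : ℝ) ≤ K), ww K k ≤ 3 / K := by
        calc ∑ k ∈ (Icc 1 n).filter (fun k : ℕ => ¬ (k : ℝ) ≤ K), ww K k
            = ∑ k ∈ (Icc 1 n).filter (fun k : ℕ => ¬ (k : ℝ) ≤ K), 1 / √K * (1 / ((k : ℝ) * √k)) := by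
              refine Finset.sum_congr rfl fun k hk => ?_
              unfold ww
              rw [if_neg (Finset.mem_filter.mp hk).2]
          _ = 1 / √K * ∑ k ∈ (Icc 1 n).filter (fun k : ℕ => K < (k : ℝ)), 1 / ((k : ℝ) * √k) := by
              rw [e, Finset.mul_sum]
          _ ≤ 1 / √K * (3 / √K) :=
              mul_le_mul_of_nonneg_left (sum_inv_32 n K hK) (by positivity)
          _ = 3 / K := by
              rw [div_mul_div_comm, one_mul, hKK]
      have h6 : 4 / K = 1 / K + 3 / K := by ring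
      rw [h6]
      exact add_le_add h4 h5
    calc K ^ 2 * ∑ k ∈ Icc 1 n, ww K k ≤ K ^ 2 * (4 / K) :=
          mul_le_mul_of_nonneg_left h3 (by positivity)
      _ = 4 * K := by
          field_simp

end Pool.Agent.Lib.MP_7ab245_nt.Cnt
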