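import Pool.Agent.Lib.MP_7ab245_nt.Cnt.Code
import Pool.Agent.Lib.MP_7ab245_nt.Cnt.Weights

/-!
CT-Coding: counting from a good predictor of the integer data, in one residue class mod `m`.

PROOF. Fix `f₁ : ι`, `r k := a k f₁`; for `k ≤ n`, `a k f - r k = m * b k f` with integers `b k f` (hmod). `y k f := b k f - round ((ah k f - r k)/m)`.
`|y k f| ≤ 2 |b k f - (ah k f - r k)/m| = 2 |a k f - ah k f| / m` (nearest integer: `|x - round x| ≤ |x - b|` for every integer `b`, `round_le`; triangle inequality).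
The `y k` determine `f`: by strong induction on `k ≤ n` (starting with ha0), if `y j f = y j g` for `1 ≤ j ≤ n` then `a j f = a j g` for all
`j ≤ n` (`ah k f = ah k g` by hah). With `K' := max 1 (K/m)`, `S k := (∑ f, (y k f)²)/|ι|`: `∑_{k≤N} k² S k ≤ 4 (K/m)² N ≤ (2K')² N`. `weights n (2K')` and `code`:
`log |ι| ≤ 196·2K' + 4·2K' = 400 K'`. (`code` wants `y k` only for `k ∈ Icc 1 n`; define `y k f` by `Int.ediv`: `b k f := (a k f - r k) / m`.)
-/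

set_option autoImplicit false

open Finset

namespace Pool.Agent.Lib.MP_7ab245_nt.Cnt

theorem coding {ι : Type} [Fintype ι] [Nonempty ι] (n m : ℕ) (hm : 1 ≤ m) (a : ℕ → ι → ℤ)
    (ah : ℕ → ι → ℝ) (K : ℝ) (hK : 0 ≤ K) (hinj : ∀ f g, (∀ j ≤ n, a j f = a j g) → f = g)
    (ha0 : ∀ f g, a 0 f = a 0 g)
    (hmod : ∀ k ≤ n, ∀ f g, (m : ℤ) ∣ a k f - a k g)
    (hah : ∀ k f g, (∀ j < k, a j f = a j g) → ah k f = ah k g)
    (hsum : ∀ N ≤ n, ∑ k ∈ Icc 1 N, (k : ℝ) ^ 2 * ∑ f, ((a k f : ℝ) - ah k f) ^ 2 ≤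
      K ^ 2 * N * Fintype.card ι) :
    Real.log (Fintype.card ι) ≤ 400 * max 1 (K / m) := by
  classical
  obtain ⟨f₁⟩ := ‹Nonempty ι›
  have : Nonempty ι := ⟨f₁⟩
  have hmpos : (0 : ℝ) < (m : ℝ) := by exact_mod_cast hm
  obtain ⟨K', hK'⟩ : ∃ K' : ℝ, K' = max 1 (K / m) := ⟨_, rfl⟩
  have hK1 : 1 ≤ K' := by rw [hK']; exact le_max_left _ _
  have hK2 : K / m ≤ K' := by rw [hK']; exact le_max_right _ _
  have hKm : 0 ≤ K / m := div_nonneg hK hmpos.le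
  obtain ⟨y, hydef⟩ : ∃ y : ℕ → ι → ℤ, ∀ k f, y k f =
      (a k f - a k f₁) / (m : ℤ) - round ((ah k f - (a k f₁ : ℝ)) / (m : ℝ)) :=
    ⟨fun k f => (a k f - a k f₁) / (m : ℤ) - round ((ah k f - (a k f₁ : ℝ)) / (m : ℝ)),
      fun _ _ => rfl⟩
  have hb : ∀ k ≤ n, ∀ f, (m : ℤ) * ((a k f - a k f₁) / (m : ℤ)) = a k f - a k f₁ :=
    fun k hk f => Int.mul_ediv_cancel' (hmod k hk f f₁)
  have hbR : ∀ k ≤ n, ∀ f, (m : ℝ) * (((a k f - a k f₁) / (m : ℤ) : ℤ) : ℝ) =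
      (a k f : ℝ) - (a k f₁ : ℝ) := by
    intro k hk f
    have := congrArg (fun z : ℤ => (z : ℝ)) (hb k hk f)
    push_cast at this ⊢
    exact this
  have hy : ∀ k ≤ n, ∀ f, |(y k f : ℝ)| ≤ 2 * |(a k f : ℝ) - ah k f| / (m : ℝ) := by
    intro k hk f
    obtain ⟨b, hbb⟩ : ∃ b : ℤ, b = (a k f - a k f₁) / (m : ℤ) := ⟨_, rfl⟩
    obtain ⟨x, hx⟩ : ∃ x : ℝ, x = (ah k f - (a k f₁ : ℝ)) / (m : ℝ) := ⟨_, rfl⟩
    have h1 : (m : ℝ) * (b : ℝ) = (a k f : ℝ) - (a k f₁ : ℝ) := by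
      rw [hbb]; exact hbR k hk f
    have h2 : (m : ℝ) * x = ah k f - (a k f₁ : ℝ) := by
      rw [hx]; field_simp
    have h3 : (y k f : ℝ) = (b : ℝ) - (round x : ℝ) := by
      rw [hydef, hbb, hx]; push_cast; ring
    have h4 : |x - (round x : ℝ)| ≤ |x - (b : ℝ)| := round_le x b
    have h5 : |(y k f : ℝ)| ≤ 2 * |(b : ℝ) - x| := by
      rw [h3]
      calc |(b : ℝ) - (round x : ℝ)| = |((b : ℝ) - x) + (x - (round x : ℝ))| := by ring_nf
        _ ≤ |(b : ℝ) - x| + |x - (round x : ℝ)| := abs_add_le _ _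
        _ ≤ |(b : ℝ) - x| + |x - (b : ℝ)| := by linarith
        _ = 2 * |(b : ℝ) - x| := by rw [abs_sub_comm x (b : ℝ)]; ring
    have h6 : (a k f : ℝ) - ah k f = (m : ℝ) * ((b : ℝ) - x) := by
      rw [mul_sub, h1, h2]; ring
    rw [h6, abs_mul, abs_of_pos hmpos]
    calc |(y k f : ℝ)| ≤ 2 * |(b : ℝ) - x| := h5
      _ = 2 * ((m : ℝ) * |(b : ℝ) - x|) / (m : ℝ) := by field_simp
  have hinj' : ∀ f g, (∀ k ∈ Icc 1 n, y k f = y k g) → f = g := by
    intro f g h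
    apply hinj
    intro j
    induction j using Nat.strong_induction_on with
    | _ j ih =>
      intro hj
      rcases Nat.eq_zero_or_pos j with rfl | hjpos
      · exact ha0 f g
      · have hah' : ah j f = ah j g := hah j f g (fun i hi => ih i hi (le_trans hi.le hj))
        have hyy := h j (Finset.mem_Icc.2 ⟨hjpos, hj⟩)
        rw [hydef, hydef, hah'] at hyy
        have hq : (a j f - a j f₁) / (m : ℤ) = (a j g - a j f₁) / (m : ℤ) := by linarith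
        have e1 := hb j hj f
        have e2 := hb j hj g
        rw [hq] at e1
        linarith
  obtain ⟨s, Z, hZ0, hs0, hZ, hlog, hS⟩ := weights n (2 * K') (by linarith)
  have h1 := code n y s Z hinj' hZ0 hZ
  have hcard : (0 : ℝ) < (Fintype.card ι : ℝ) := by exact_mod_cast Fintype.card_pos
  have h2 := hS (fun k => (∑ f, (y k f : ℝ) ^ 2) / (Fintype.card ι : ℝ))
    (fun k => div_nonneg (Finset.sum_nonneg fun f _ => sq_nonneg _) hcard.le) (by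
      intro N hN
      have hterm : ∀ k ∈ Icc 1 N, (k : ℝ) ^ 2 * ((∑ f, (y k f : ℝ) ^ 2) / (Fintype.card ι : ℝ)) ≤
          (4 / ((m : ℝ) ^ 2 * (Fintype.card ι : ℝ))) *
            ((k : ℝ) ^ 2 * ∑ f, ((a k f : ℝ) - ah k f) ^ 2) := by
        intro k hk
        have hkn : k ≤ n := le_trans (Finset.mem_Icc.1 hk).2 hN
        have hle : ∑ f, (y k f : ℝ) ^ 2 ≤
            (4 / (m : ℝ) ^ 2) * ∑ f, ((a k f : ℝ) - ah k f) ^ 2 := by
          rw [Finset.mul_sum]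
          refine Finset.sum_le_sum fun f _ => ?_
          have hyf := hy k hkn f
          have : (y k f : ℝ) ^ 2 ≤ (2 * |(a k f : ℝ) - ah k f| / (m : ℝ)) ^ 2 := by
            rw [← sq_abs (y k f : ℝ)]
            exact pow_le_pow_left₀ (abs_nonneg _) hyf 2
          calc (y k f : ℝ) ^ 2 ≤ (2 * |(a k f : ℝ) - ah k f| / (m : ℝ)) ^ 2 := this
            _ = (4 / (m : ℝ) ^ 2) * |(a k f : ℝ) - ah k f| ^ 2 := by ring
            _ = (4 / (m : ℝ) ^ 2) * ((a k f : ℝ) - ah k f) ^ 2 := by rw [sq_abs]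
        calc (k : ℝ) ^ 2 * ((∑ f, (y k f : ℝ) ^ 2) / (Fintype.card ι : ℝ))
            ≤ (k : ℝ) ^ 2 * (((4 / (m : ℝ) ^ 2) * ∑ f, ((a k f : ℝ) - ah k f) ^ 2) /
                (Fintype.card ι : ℝ)) := by gcongr
          _ = (4 / ((m : ℝ) ^ 2 * (Fintype.card ι : ℝ))) *
            ((k : ℝ) ^ 2 * ∑ f, ((a k f : ℝ) - ah k f) ^ 2) := by
              field_simp
      calc ∑ k ∈ Icc 1 N, (k : ℝ) ^ 2 * ((∑ f, (y k f : ℝ) ^ 2) / (Fintype.card ι : ℝ))
          ≤ ∑ k ∈ Icc 1 N, (4 / ((m : ℝ) ^ 2 * (Fintype.card ι : ℝ))) *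
            ((k : ℝ) ^ 2 * ∑ f, ((a k f : ℝ) - ah k f) ^ 2) := Finset.sum_le_sum hterm
        _ = (4 / ((m : ℝ) ^ 2 * (Fintype.card ι : ℝ))) *
            ∑ k ∈ Icc 1 N, ((k : ℝ) ^ 2 * ∑ f, ((a k f : ℝ) - ah k f) ^ 2) := by
              rw [Finset.mul_sum]
        _ ≤ (4 / ((m : ℝ) ^ 2 * (Fintype.card ι : ℝ))) * (K ^ 2 * N * Fintype.card ι) := by
              refine mul_le_mul_of_nonneg_left (hsum N hN) ?_
              positivity
        _ = (2 * (K / (m : ℝ))) ^ 2 * N := by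
              field_simp
              ring
        _ ≤ (2 * K') ^ 2 * N := by
              gcongr)
  have h3 : (∑ k ∈ Icc 1 n, s k * ∑ f, (y k f : ℝ) ^ 2) / (Fintype.card ι : ℝ) ≤
      4 * (2 * K') := by
    refine le_trans (le_of_eq ?_) h2
    rw [Finset.sum_div]
    refine Finset.sum_congr rfl fun k _ => ?_
    rw [mul_div_assoc]
  rw [← hK']
  linarith

end Pool.Agent.Lib.MP_7ab245_nt.Cnt
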