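import Pool.Agent.Lib.MP_7ab245_nt.Cnt.KerSum
import Pool.Agent.Lib.MP_7ab245_nt.Cnt.Disc
import Pool.Agent.Lib.MP_7ab245_nt.Len.Disc

/-!
CT-Energy: the energy bound.

PROOF. Let `α : Fin n → ℂ` list the complex roots of `f` (distinct, sqf_roots), `n = deg f ≥ 1`. `coeff_ld_ho`: for `m ≥ 1`
`QQ m f = - ∑_i (ww α_i)^m`, and `ww z = conj (refl z)` or differs from it only on the unit circle (where both are `conj z = z⁻¹`): so
`‖QQ m f‖ = ‖∑_i (refl α_i)^m‖`. By `sum_le_EE`: `∑_{m≤n} ‖QQ m f‖²/m ≤ 3 EE (refl ∘ α) (1/n) 1 1`. As in the proof of EE_le_disc (Len/Disc.lean) with `s = 1/n`,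
`ker_self_le`, `ker_refl_le` and `disc` in place of the discriminant of a monic polynomial:
`EE ≤ n log(2n) + n² s + 2 n hh α + (2n-1) log|lc| ≤ n log(2n) + n + 2 n log (MM f)` (`log MM f = log|lc| + ∑ log⁺|α_i|`,
Polynomial.mahlerMeasure_eq_leadingCoeff_mul_prod_roots), which is `≤ 5 n log(2nT)` as `log(2nT) ≥ log 2 ≥ 1/2`. So the sum is `≤ 15 n log(2nT)`.
`QQ_sum`: multiply by `m ≤ N`; `QQ 0 f = 0`.
-/

set_option autoImplicit false

open Finset

namespace Pool.Agent.Lib.MP_7ab245_nt.Cnt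

open Pool.Agent.Lib.MP_7ab245_nt.LogVar
open Pool.Agent.Lib.MP_7ab245_nt.Len

private lemma ww_eq (z : ℂ) : ww z = (starRingEnd ℂ) (refl z) := by
  unfold ww Len.refl
  rcases lt_trichotomy ‖z‖ 1 with h | h | h
  · rw [if_pos h, if_pos h.le]
  · rw [if_neg (by rw [h]; exact lt_irrefl _), if_pos h.le]
    rw [Complex.inv_def, Complex.normSq_eq_norm_sq, h]
    simp
  · rw [if_neg (not_lt.mpr h.le), if_neg (not_le.mpr h), map_inv₀, Complex.conj_conj]

private lemma norm_QQ (f : Polynomial ℤ) {n : ℕ} (α : Fin n → ℂ)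
    (hα : (cx f).roots = univ.val.map α) (m : ℕ) (hm : 1 ≤ m) :
    ‖QQ m f‖ = ‖∑ i, refl (α i) ^ m‖ := by
  unfold QQ
  rw [coeff_ld_ho _ m hm, norm_neg, hα, Multiset.map_map]
  have h1 : (Multiset.map ((fun z => ww z ^ m) ∘ α) univ.val).sum =
      (starRingEnd ℂ) (∑ i, refl (α i) ^ m) := by
    rw [map_sum]
    refine Finset.sum_congr rfl fun i _ => ?_
    simp only [Function.comp_apply]
    rw [ww_eq, map_pow]
  rw [h1, RCLike.norm_conj]

private lemma log_MM (f : Polynomial ℤ) (hf : f ≠ 0) {n : ℕ} (α : Fin n → ℂ)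
    (hα : (cx f).roots = univ.val.map α) :
    Real.log (MM f) = Real.log |(f.leadingCoeff : ℝ)| + hh α := by
  unfold MM
  rw [Polynomial.mahlerMeasure_eq_leadingCoeff_mul_prod_roots]
  have h1 : ‖(cx f).leadingCoeff‖ = |(f.leadingCoeff : ℝ)| := by
    unfold cx
    rw [Polynomial.leadingCoeff_map_of_injective (RingHom.injective_int _), eq_intCast,
      Complex.norm_intCast]
  have h2 : ((cx f).roots.map (fun a => max 1 ‖a‖)).prod = ∏ i, max 1 ‖α i‖ := by
    rw [hα, Multiset.map_map]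
    rfl
  have h3 : (f.leadingCoeff : ℝ) ≠ 0 := by
    exact_mod_cast Polynomial.leadingCoeff_ne_zero.mpr hf
  have h4 : ∀ i, (0 : ℝ) < max 1 ‖α i‖ := fun i => lt_of_lt_of_le one_pos (le_max_left _ _)
  rw [h1, h2, Real.log_mul (abs_ne_zero.mpr h3) (Finset.prod_pos fun i _ => h4 i).ne',
    Real.log_prod (fun i _ => (h4 i).ne')]
  unfold hh
  congr 1
  exact Finset.sum_congr rfl fun i _ => (Real.posLog_eq_log_max_one (norm_nonneg _)).symm

private lemma exists_roots (f : Polynomial ℤ) (n : ℕ) (hn : f.natDegree = n) :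
    ∃ α : Fin n → ℂ, (cx f).roots = univ.val.map α := by
  have h1 : (cx f).roots.card = n := by
    rw [IsAlgClosed.card_roots_eq_natDegree]
    unfold cx
    rw [Polynomial.natDegree_map_eq_of_injective (RingHom.injective_int _), hn]
  have h2 : (cx f).roots.toList.length = n := by
    rw [Multiset.length_toList, h1]
  subst h2
  refine ⟨fun i => (cx f).roots.toList.get i, ?_⟩
  rw [Fin.univ_val_map, List.ofFn_get, Multiset.coe_toList]

theorem energy (f : Polynomial ℤ) (n : ℕ) (T : ℝ) (hn : f.natDegree = n) (hn0 : 0 < n)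
    (hf : Squarefree f) (h0 : f.coeff 0 ≠ 0) (hT : MM f ≤ T) (hT1 : 1 ≤ T) :
    ∑ m ∈ Icc 1 n, ‖QQ m f‖ ^ 2 / m ≤ 15 * (n * Real.log (2 * n * T)) := by
  have hf0 : f ≠ 0 := by rintro rfl; simp at h0
  obtain ⟨α, hα⟩ := exists_roots f n hn
  have hinj : Function.Injective α := by
    have h1 := sqf_roots f hf
    rw [hα, Fin.univ_val_map] at h1
    exact List.nodup_ofFn.mp (Multiset.coe_nodup.mp h1)
  have hn' : (1 : ℝ) ≤ n := by exact_mod_cast hn0
  have hd := disc f n hn hn0 α hα hinj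
  have hs := sum_le_EE hn0 (fun i => refl (α i)) (fun i => norm_refl_le _)
  have hsum : ∑ m ∈ Icc 1 n, ‖QQ m f‖ ^ 2 / m = ∑ l ∈ Icc 1 n, ‖∑ i, refl (α i) ^ l‖ ^ 2 / l := by
    refine Finset.sum_congr rfl fun m hm => ?_
    rw [norm_QQ f α hα m (Finset.mem_Icc.mp hm).1]
  set s : ℝ := 1 / n with hsdef
  have hs0 : 0 < s := by positivity
  have hs1 : s ≤ 1 := by
    rw [hsdef, div_le_one (by positivity)]
    exact hn'
  have hne : ∀ i, ∀ j ∈ univ.erase i, α i ≠ α j := by
    intro i j hj h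
    exact (Finset.mem_erase.mp hj).1 (hinj h).symm
  have hh0 : 0 ≤ hh α := Finset.sum_nonneg fun i _ => Real.posLog_nonneg
  have h1 : EE (fun i => refl (α i)) s 1 1 = ∑ i, (ker s (refl (α i)) (refl (α i)) +
      ∑ j ∈ univ.erase i, ker s (refl (α i)) (refl (α j))) := by
    unfold EE
    simp only [pow_one]
    refine Finset.sum_congr rfl fun i _ => ?_
    rw [Finset.add_sum_erase _ (fun j => ker s (refl (α i)) (refl (α j))) (Finset.mem_univ i)]
  have h2 : ∀ i, ∑ j ∈ univ.erase i, ker s (refl (α i)) (refl (α j)) ≤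
      ∑ j ∈ univ.erase i, (s + Real.posLog ‖α i‖ + Real.posLog ‖α j‖) -
        ∑ j ∈ univ.erase i, Real.log ‖α i - α j‖ := by
    intro i
    rw [← Finset.sum_sub_distrib]
    apply Finset.sum_le_sum
    intro j hj
    have := ker_refl_le s hs0.le (α i) (α j) (hne i j hj)
    linarith
  have h3 : ∀ i, ∑ j ∈ univ.erase i, (s + Real.posLog ‖α i‖ + Real.posLog ‖α j‖) ≤
      n * s + n * Real.posLog ‖α i‖ + hh α := by
    intro i
    calc ∑ j ∈ univ.erase i, (s + Real.posLog ‖α i‖ + Real.posLog ‖α j‖)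
        ≤ ∑ j, (s + Real.posLog ‖α i‖ + Real.posLog ‖α j‖) := by
          apply Finset.sum_le_sum_of_subset_of_nonneg (Finset.erase_subset _ _)
          intro j _ _
          have h4 : 0 ≤ Real.posLog ‖α i‖ := Real.posLog_nonneg
          have h5 : 0 ≤ Real.posLog ‖α j‖ := Real.posLog_nonneg
          linarith
      _ = _ := by
          rw [hh]
          simp only [Finset.sum_add_distrib, Finset.sum_const, Finset.card_univ,
            Fintype.card_fin, nsmul_eq_mul]
  have h4 : EE (fun i => refl (α i)) s 1 1 ≤ n * Real.log (2 / s) + n * (n * s) + 2 * n * hh α -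
      ∑ i, ∑ j ∈ univ.erase i, Real.log ‖α i - α j‖ := by
    rw [h1]
    have h5 : ∀ i, ker s (refl (α i)) (refl (α i)) +
        ∑ j ∈ univ.erase i, ker s (refl (α i)) (refl (α j)) ≤
        Real.log (2 / s) + (n * s + n * Real.posLog ‖α i‖ + hh α) -
          ∑ j ∈ univ.erase i, Real.log ‖α i - α j‖ := by
      intro i
      have := ker_self_le s hs0 hs1 (refl (α i)) (norm_refl_le _)
      have := h2 i
      have := h3 i
      linarith
    refine (Finset.sum_le_sum fun i _ => h5 i).trans_eq ?_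
    simp only [Finset.sum_add_distrib, Finset.sum_sub_distrib, Finset.sum_const,
      Finset.card_univ, Fintype.card_fin, nsmul_eq_mul, ← Finset.mul_sum]
    have h9 : ∑ i, Real.posLog ‖α i‖ = hh α := rfl
    rw [h9]
    ring
  have h5 : Real.log (2 / s) = Real.log (2 * n) := by
    rw [hsdef, div_div_eq_mul_div, div_one]
  have h6 : (n : ℝ) * s = 1 := by
    rw [hsdef]; field_simp
  have hlc : 0 ≤ Real.log |(f.leadingCoeff : ℝ)| := by
    apply Real.log_nonneg
    have : (1 : ℤ) ≤ |f.leadingCoeff| := Int.one_le_abs (Polynomial.leadingCoeff_ne_zero.mpr hf0)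
    exact_mod_cast this
  have hM := log_MM f hf0 α hα
  have hMpos : 0 < MM f := by
    unfold MM
    apply Polynomial.mahlerMeasure_pos_of_ne_zero
    unfold cx
    rw [Ne, Polynomial.map_eq_zero_iff (RingHom.injective_int _)]
    exact hf0
  have hMT : Real.log (MM f) ≤ Real.log T := Real.log_le_log hMpos hT
  have hTlog : 0 ≤ Real.log T := Real.log_nonneg hT1
  have h7 : Real.log (2 * n * T) = Real.log (2 * n) + Real.log T := by
    rw [Real.log_mul (by positivity) (by positivity)]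
  have h8 : (1 : ℝ) ≤ 2 * Real.log (2 * n) := by
    have h9 : Real.log 2 ≤ Real.log (2 * n) := Real.log_le_log (by norm_num) (by linarith)
    have := Real.log_two_gt_d9
    linarith
  rw [hsum, h7]
  refine hs.trans ?_
  have h10 : EE (fun i => refl (α i)) s 1 1 ≤ n * Real.log (2 * n) + n +
      2 * n * Real.log (MM f) := by
    rw [h5, h6, mul_one] at h4
    rw [hM]
    nlinarith
  have h11 : (n : ℝ) * Real.log (MM f) ≤ n * Real.log T :=
    mul_le_mul_of_nonneg_left hMT (by linarith)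
  have h12 : (n : ℝ) ≤ n * (2 * Real.log (2 * n)) := by nlinarith
  have h13 : 0 ≤ (n : ℝ) * Real.log T := by positivity
  have h14 : 0 ≤ (n : ℝ) * Real.log (2 * n) := by
    apply mul_nonneg (by linarith)
    linarith
  nlinarith

theorem QQ_sum (f : Polynomial ℤ) (n : ℕ) (T : ℝ) (hn : f.natDegree = n) (hn0 : 0 < n)
    (hf : Squarefree f) (h0 : f.coeff 0 ≠ 0) (hT : MM f ≤ T) (hT1 : 1 ≤ T) (N : ℕ) (hN : N ≤ n) :
    ∑ m ∈ range (N + 1), ‖QQ m f‖ ^ 2 ≤ 15 * N * (n * Real.log (2 * n * T)) := by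
  have h1 := energy f n T hn hn0 hf h0 hT hT1
  have hQ0 : QQ 0 f = 0 := by
    unfold QQ ld
    simp [PowerSeries.coeff_zero_eq_constantCoeff]
  have h2 : ∑ m ∈ range (N + 1), ‖QQ m f‖ ^ 2 = ∑ m ∈ Icc 1 N, ‖QQ m f‖ ^ 2 := by
    rw [Finset.sum_range_succ', hQ0, norm_zero, zero_pow two_ne_zero, add_zero,
      Finset.range_eq_Ico, Finset.sum_Ico_add' (fun m => ‖QQ m f‖ ^ 2) 0 N 1]
    rfl
  rw [h2]
  calc ∑ m ∈ Icc 1 N, ‖QQ m f‖ ^ 2 ≤ ∑ m ∈ Icc 1 N, N * (‖QQ m f‖ ^ 2 / m) := by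
        refine Finset.sum_le_sum fun m hm => ?_
        rw [Finset.mem_Icc] at hm
        have hm1 : (0 : ℝ) < m := by exact_mod_cast hm.1
        have hm2 : (m : ℝ) ≤ N := by exact_mod_cast hm.2
        rw [mul_div_assoc', le_div_iff₀ hm1]
        nlinarith [sq_nonneg ‖QQ m f‖]
    _ = N * ∑ m ∈ Icc 1 N, ‖QQ m f‖ ^ 2 / m := by rw [Finset.mul_sum]
    _ ≤ N * ∑ m ∈ Icc 1 n, ‖QQ m f‖ ^ 2 / m := by
        apply mul_le_mul_of_nonneg_left _ (Nat.cast_nonneg _)
        apply Finset.sum_le_sum_of_subset_of_nonneg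
        · exact Finset.Icc_subset_Icc_right hN
        · intro m _ _
          positivity
    _ ≤ N * (15 * (n * Real.log (2 * n * T))) :=
        mul_le_mul_of_nonneg_left h1 (Nat.cast_nonneg _)
    _ = _ := by ring

end Pool.Agent.Lib.MP_7ab245_nt.Cnt
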