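import Pool.Agent.Lib.MP_7ab245_nt.Cnt.Defs

/-!
CT-Newton: Newton's identities for `PP`.

PROOF. `ld u * u = X u'` for `constantCoeff u ≠ 0` (unfold ld), here `u = cx f` as a power series; the `k`-th coefficient gives
`k a_k = - ∑_{j=0}^k a_j PP (k-j)`, and `PP 0 = 0` (ld has the factor X). `PP_congr`: strong induction on `m`: `m a_m = -∑_{j<m} a_j PP (m-j)`, so
`a_0 PP m = - m a_m - ∑_{1≤j<m} a_j PP (m-j)`.
-/

set_option autoImplicit false

open Finset

namespace Pool.Agent.Lib.MP_7ab245_nt.Cnt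

open Pool.Agent.Lib.MP_7ab245_nt.LogVar

theorem PP_zero (f : Polynomial ℤ) : PP 0 f = 0 := by
  unfold PP ld
  rw [mul_assoc, PowerSeries.coeff_zero_X_mul, neg_zero]

theorem newton (f : Polynomial ℤ) (h0 : f.coeff 0 ≠ 0) (k : ℕ) :
    (k : ℂ) * (f.coeff k : ℂ) = -∑ j ∈ range k, (f.coeff j : ℂ) * PP (k - j) f := by
  set u : PowerSeries ℂ := ((cx f : Polynomial ℂ) : PowerSeries ℂ) with hu
  have hcoeff : ∀ j, PowerSeries.coeff j u = (f.coeff j : ℂ) := by
    intro j
    rw [hu, Polynomial.coeff_coe, cx, Polynomial.coeff_map]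
    rfl
  have hc0 : PowerSeries.constantCoeff u ≠ 0 := by
    rw [← PowerSeries.coeff_zero_eq_constantCoeff_apply, hcoeff]
    exact_mod_cast h0
  have h1 : u * ld u = PowerSeries.X * PowerSeries.derivative ℂ u := by
    unfold ld
    have : u * u⁻¹ = 1 := PowerSeries.mul_inv_cancel _ hc0
    calc u * (PowerSeries.X * PowerSeries.derivative ℂ u * u⁻¹)
        = PowerSeries.X * PowerSeries.derivative ℂ u * (u * u⁻¹) := by ring
      _ = _ := by rw [this, mul_one]
  have h2 : PowerSeries.coeff k (PowerSeries.X * PowerSeries.derivative ℂ u) =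
      (k : ℂ) * (f.coeff k : ℂ) := by
    rcases k with _ | k
    · rw [PowerSeries.coeff_zero_X_mul]; simp
    · rw [PowerSeries.coeff_succ_X_mul, PowerSeries.coeff_derivative, hcoeff]
      push_cast; ring
  rw [← h2, ← h1, PowerSeries.coeff_mul, Finset.Nat.sum_antidiagonal_eq_sum_range_succ
    (fun i j => PowerSeries.coeff i u * PowerSeries.coeff j (ld u)), sum_range_succ,
    ← sum_neg_distrib]
  have h3 : PowerSeries.coeff k u * PowerSeries.coeff (k - k) (ld u) = 0 := by
    have h4 := PP_zero f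
    unfold PP at h4
    rw [Nat.sub_self, neg_eq_zero.1 h4, mul_zero]
  rw [h3, add_zero]
  refine sum_congr rfl (fun j _ => ?_)
  rw [hcoeff]
  unfold PP
  ring

theorem PP_congr (f g : Polynomial ℤ) (h0 : f.coeff 0 ≠ 0) (m k : ℕ) (hm : m < k)
    (h : ∀ j < k, f.coeff j = g.coeff j) : PP m f = PP m g := by
  have hg0 : g.coeff 0 ≠ 0 := by
    rw [← h 0 (by omega)]; exact h0
  induction m using Nat.strong_induction_on with
  | _ m ih =>
    rcases m with _ | m
    · rw [PP_zero, PP_zero]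
    · have hf := newton f h0 (m + 1)
      have hg := newton g hg0 (m + 1)
      rw [sum_range_succ'] at hf hg
      rw [Nat.sub_zero] at hf hg
      have e1 : ∑ j ∈ range m, (f.coeff (j + 1) : ℂ) * PP (m + 1 - (j + 1)) f =
          ∑ j ∈ range m, (g.coeff (j + 1) : ℂ) * PP (m + 1 - (j + 1)) g := by
        refine sum_congr rfl (fun j hj => ?_)
        rw [mem_range] at hj
        rw [h (j + 1) (by omega), ih (m + 1 - (j + 1)) (by omega) (by omega)]
      rw [e1, h (m + 1) hm] at hf
      rw [h 0 (by omega)] at hf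
      have e2 : (g.coeff 0 : ℂ) * PP (m + 1) f = (g.coeff 0 : ℂ) * PP (m + 1) g := by
        linear_combination hf - hg
      have hg0' : (g.coeff 0 : ℂ) ≠ 0 := by exact_mod_cast hg0
      exact mul_left_cancel₀ hg0' e2

end Pool.Agent.Lib.MP_7ab245_nt.Cnt
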