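import Pool.Agent.Lib.MP_7ab245_nt.Cnt.Pred
import Pool.Agent.Lib.MP_7ab245_nt.Cnt.Coding
import Pool.Agent.Lib.MP_7ab245_nt.Cnt.Energy
import Pool.Agent.Lib.MP_7ab245_nt.Cnt.Cser
import Pool.Agent.Lib.MP_7ab245_nt.Cnt.Newton

/-!
CT-Fam: squarefree polynomials of degree `n` with a fixed constant coefficient, in one residue class mod `m`.

PROOF. `ι := F` (subtype), nonempty w.l.o.g. `a j f := f.coeff j`; `L = log (2nT) ≥ log 2 ≥ 1/2`, `μ = T/|a₀|` (`≥ 1`, from mu_ge and MM f ≤ T).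
`c i f := cs i f`, `p m f := PP m f`. For `N ≤ n`: hv of pred_main with `V² = 2 μ² (15 N n L + N²)` (vbound, QQ_sum; `MM f/|a₀| ≤ μ`), hc by cs_sum.
pred_main: `∑_{k≤N} ∑_f ‖PP k f - ph k f‖² ≤ 10 μ² V² |ι| = 20 μ⁴ (15 N n L + N²) |ι| ≤ 20 μ⁴ · 17 N n L |ι| = 340 μ⁴ N n L |ι|` (`N ≤ n`, `2L ≥ 1`).
`ah k f := Re (-(∑_{j=1}^{k-1} a_j PP (k-j) f + a₀ ph k f)/k)` for `k ≥ 1` (and `0` for `k = 0`): depends only on `a_j`, `j < k` (PP_congr, ph_congr), and by newton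
`a_k - ah k f = Re (-(a₀/k)(PP k f - ph k f))`. So `k² (a_k - ah k)² ≤ a₀² ‖PP k f - ph k f‖²` and
`∑_{k≤N} k² ∑_f (a_k - ah_k)² ≤ 340 a₀² μ⁴ N n L |ι| ≤ 340 T⁴ n L N |ι|` (`a₀² ≥ 1`: `a₀² μ⁴ = T⁴/a₀² ≤ T⁴`). `coding` with `K := 19 T² √(nL)` (`K² = 361 T⁴ n L`):
`log |F| ≤ 400 max 1 (K/m)`. hinj: a polynomial of degree `n` is determined by the coefficients up to `n`. (If `F = ∅` the claim is `0 ≤ exp _`.)
-/

set_option autoImplicit false

open Finset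

namespace Pool.Agent.Lib.MP_7ab245_nt.Cnt

theorem fam (n m : ℕ) (T : ℝ) (hn : 1 ≤ n) (hm : 1 ≤ m) (hT : 1 ≤ T) (a₀ : ℤ) (ha₀ : a₀ ≠ 0)
    (F : Finset (Polynomial ℤ))
    (hF : ∀ f ∈ F, f.natDegree = n ∧ f.coeff 0 = a₀ ∧ Squarefree f ∧ MM f ≤ T)
    (hmod : ∀ f ∈ F, ∀ g ∈ F, ∀ k, (m : ℤ) ∣ f.coeff k - g.coeff k) :
    (F.card : ℝ) ≤ Real.exp (400 * max 1 (19 * XX n T / m)) := by
  classical
  rcases F.eq_empty_or_nonempty with hF0 | ⟨f₁, hf₁⟩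
  · rw [hF0, Finset.card_empty, Nat.cast_zero]
    positivity
  have hne : Nonempty F := ⟨⟨f₁, hf₁⟩⟩
  have hnR : (1 : ℝ) ≤ n := by exact_mod_cast hn
  obtain ⟨L, hL⟩ : ∃ L : ℝ, L = Real.log (2 * n * T) := ⟨_, rfl⟩
  have hL2 : 1 ≤ 2 * L := by
    have h1 : (2 : ℝ) ≤ 2 * n * T := by nlinarith
    have h2 : Real.log 2 ≤ L := by rw [hL]; exact Real.log_le_log (by norm_num) h1
    have h3 := Real.log_two_gt_d9
    linarith
  have hL0 : 0 < L := by linarith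
  have ha1 : (1 : ℝ) ≤ |(a₀ : ℝ)| := by
    have h1 : 1 ≤ |a₀| := Int.one_le_abs ha₀
    have h2 : ((1 : ℤ) : ℝ) ≤ ((|a₀| : ℤ) : ℝ) := by exact_mod_cast h1
    simpa using h2
  have ha0 : (0 : ℝ) < |(a₀ : ℝ)| := by linarith
  obtain ⟨μ, hμ⟩ : ∃ μ : ℝ, μ = T / |(a₀ : ℝ)| := ⟨_, rfl⟩
  have hc0 : ∀ f : F, (f : Polynomial ℤ).coeff 0 ≠ 0 := fun f => by rw [(hF f f.2).2.1]; exact ha₀
  have hMMμ : ∀ f : F, MM (f : Polynomial ℤ) / |(((f : Polynomial ℤ).coeff 0 : ℤ) : ℝ)| ≤ μ := by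
    intro f
    rw [(hF f f.2).2.1, hμ]
    exact div_le_div_of_nonneg_right (hF f f.2).2.2.2 ha0.le
  have hMM1 : ∀ f : F, 1 ≤ MM (f : Polynomial ℤ) / |(((f : Polynomial ℤ).coeff 0 : ℤ) : ℝ)| :=
    fun f => mu_ge f (hc0 f)
  have hμ1 : 1 ≤ μ := (hMM1 ⟨f₁, hf₁⟩).trans (hMMμ ⟨f₁, hf₁⟩)
  have hMM2 : ∀ f : F, (MM (f : Polynomial ℤ) / |(((f : Polynomial ℤ).coeff 0 : ℤ) : ℝ)|) ^ 2 ≤ μ ^ 2 :=
    fun f => pow_le_pow_left₀ (by linarith [hMM1 f]) (hMMμ f) 2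
  -- the data
  obtain ⟨a, ha⟩ : ∃ a : ℕ → F → ℤ, a = fun (j : ℕ) (f : F) => (f : Polynomial ℤ).coeff j := ⟨_, rfl⟩
  obtain ⟨c, hc⟩ : ∃ c : ℕ → F → ℂ, c = fun (i : ℕ) (f : F) => cs i (f : Polynomial ℤ) := ⟨_, rfl⟩
  obtain ⟨p, hp⟩ : ∃ p : ℕ → F → ℂ, p = fun (i : ℕ) (f : F) => PP i (f : Polynomial ℤ) := ⟨_, rfl⟩
  have hpcongr : ∀ m k f g, m < k → (∀ j < k, a j f = a j g) → p m f = p m g := by
    intro m k f g hmk h
    rw [hp]
    refine PP_congr f g (hc0 f) m k hmk fun j hj => ?_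
    have := h j hj
    rw [ha] at this
    exact this
  have hp0 : ∀ f, p 0 f = 0 := fun f => by rw [hp]; exact PP_zero f
  have hcc0 : ∀ f, c 0 f = 1 := fun f => by rw [hc]; exact cs_zero f (hc0 f)
  have hι0 : (0 : ℝ) ≤ Fintype.card F := by positivity
  -- the predictor
  have hpred : ∀ N ≤ n, ∑ k ∈ range (N + 1), ∑ f, ‖p k f - ph a c p k f‖ ^ 2 ≤
      340 * μ ^ 4 * (N * (n * L)) * Fintype.card F := by
    intro N hN
    have hNR : (N : ℝ) ≤ n := by exact_mod_cast hN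
    have hN0 : (0 : ℝ) ≤ N := by positivity
    obtain ⟨V, hV⟩ : ∃ V : ℝ, V = √(2 * μ ^ 2 * (15 * N * (n * L) + N ^ 2)) := ⟨_, rfl⟩
    have hV2 : V ^ 2 = 2 * μ ^ 2 * (15 * N * (n * L) + N ^ 2) := by
      rw [hV, Real.sq_sqrt (by positivity)]
    have h1 := pred_main a c p N μ V hμ1 hcc0 hp0 hpcongr (by
      intro f
      rw [hc]
      exact (cs_sum f (hc0 f) N).trans (hMM2 f)) (by
      intro f
      rw [hV2]
      have h2 := vbound f (hc0 f) N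
      have h3 := QQ_sum f n T (hF f f.2).1 (by omega) (hF f f.2).2.2.1 (hc0 f) (hF f f.2).2.2.2 hT N hN
      rw [← hL] at h3
      have h4 : ∀ m, vv c p m f = ∑ i ∈ range (m + 1), cs i f * PP (m - i) f := by
        intro m
        rw [hc, hp]
        rfl
      simp only [h4]
      refine h2.trans ?_
      have h5 := hMM2 f
      have h6 : 0 ≤ ∑ m ∈ range (N + 1), ‖QQ m (f : Polynomial ℤ)‖ ^ 2 :=
        Finset.sum_nonneg fun _ _ => by positivity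
      gcongr)
    refine h1.trans ?_
    rw [hV2]
    have h7 : (N : ℝ) ^ 2 ≤ 2 * (N * (n * L)) := by nlinarith [mul_nonneg hN0 (by linarith : (0:ℝ) ≤ n)]
    have h8 : 15 * (N : ℝ) * (n * L) + N ^ 2 ≤ 17 * (N * (n * L)) := by nlinarith
    have h9 : 10 * μ ^ 2 * (2 * μ ^ 2 * (15 * N * (n * L) + N ^ 2)) ≤ 340 * μ ^ 4 * (N * (n * L)) := by
      calc 10 * μ ^ 2 * (2 * μ ^ 2 * (15 * N * (n * L) + N ^ 2))
          = 20 * μ ^ 4 * (15 * N * (n * L) + N ^ 2) := by ring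
        _ ≤ 20 * μ ^ 4 * (17 * (N * (n * L))) := by gcongr
        _ = 340 * μ ^ 4 * (N * (n * L)) := by ring
    exact mul_le_mul_of_nonneg_right h9 hι0
  -- the predicted coefficient
  obtain ⟨ah, hah⟩ : ∃ ah : ℕ → F → ℝ, ah = fun k f =>
      if k = 0 then 0 else
        (-(∑ j ∈ Ico 1 k, (a j f : ℂ) * p (k - j) f + (a₀ : ℂ) * ph a c p k f) / (k : ℂ)).re := ⟨_, rfl⟩
  have hahc : ∀ k f g, (∀ j < k, a j f = a j g) → ah k f = ah k g := by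
    intro k f g h
    rw [hah]
    by_cases hk : k = 0
    · simp [hk]
    · simp only [if_neg hk]
      have h1 : ∑ j ∈ Ico 1 k, (a j f : ℂ) * p (k - j) f = ∑ j ∈ Ico 1 k, (a j g : ℂ) * p (k - j) g := by
        refine Finset.sum_congr rfl fun j hj => ?_
        rw [Finset.mem_Ico] at hj
        rw [h j hj.2, hpcongr (k - j) k f g (by omega) h]
      rw [h1, ph_congr a c p hp0 hpcongr h]
  have herr : ∀ k : ℕ, 1 ≤ k → ∀ f, (k : ℝ) ^ 2 * ((a k f : ℝ) - ah k f) ^ 2 ≤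
      (a₀ : ℝ) ^ 2 * ‖p k f - ph a c p k f‖ ^ 2 := by
    intro k hk f
    have hk0 : (k : ℂ) ≠ 0 := by exact_mod_cast (by omega : k ≠ 0)
    have h1 := newton f (hc0 f) k
    have h2 : ∑ j ∈ range k, (((f : Polynomial ℤ).coeff j : ℤ) : ℂ) * PP (k - j) f =
        (a₀ : ℂ) * p k f + ∑ j ∈ Ico 1 k, (a j f : ℂ) * p (k - j) f := by
      rw [Finset.range_eq_Ico, Finset.sum_eq_sum_Ico_succ_bot (by omega), (hF f f.2).2.1, Nat.sub_zero,
        hp, ha]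
    rw [h2] at h1
    have h3 : (a k f : ℂ) = -((a₀ : ℂ) * p k f + ∑ j ∈ Ico 1 k, (a j f : ℂ) * p (k - j) f) / k := by
      rw [← h1, ha]
      field_simp
    have h4 : (((a k f : ℝ) - ah k f : ℝ)) = (-((a₀ : ℂ) / k * (p k f - ph a c p k f))).re := by
      have h5 : ah k f =
          (-(∑ j ∈ Ico 1 k, (a j f : ℂ) * p (k - j) f + (a₀ : ℂ) * ph a c p k f) / (k : ℂ)).re := by
        rw [hah]
        simp only [if_neg (by omega : ¬ k = 0)]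
      have h6 : ((a k f : ℤ) : ℝ) = ((a k f : ℤ) : ℂ).re := by simp
      rw [h6, h5, ← Complex.sub_re, h3]
      congr 1
      field_simp
      ring
    have h7 : |(a k f : ℝ) - ah k f| ≤ |(a₀ : ℝ)| / k * ‖p k f - ph a c p k f‖ := by
      rw [h4]
      refine (Complex.abs_re_le_norm _).trans (le_of_eq ?_)
      rw [norm_neg, norm_mul, norm_div, Complex.norm_natCast, Complex.norm_intCast]
    have hkR : (0 : ℝ) < k := by exact_mod_cast hk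
    have h8 : ((a k f : ℝ) - ah k f) ^ 2 ≤ (|(a₀ : ℝ)| / k * ‖p k f - ph a c p k f‖) ^ 2 := by
      rw [← sq_abs]
      exact pow_le_pow_left₀ (abs_nonneg _) h7 2
    calc (k : ℝ) ^ 2 * ((a k f : ℝ) - ah k f) ^ 2
        ≤ (k : ℝ) ^ 2 * (|(a₀ : ℝ)| / k * ‖p k f - ph a c p k f‖) ^ 2 := by gcongr
      _ = |(a₀ : ℝ)| ^ 2 * ‖p k f - ph a c p k f‖ ^ 2 := by
          field_simp
      _ = (a₀ : ℝ) ^ 2 * ‖p k f - ph a c p k f‖ ^ 2 := by rw [sq_abs]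
  obtain ⟨K, hK⟩ : ∃ K : ℝ, K = 19 * XX n T := ⟨_, rfl⟩
  have hXX : XX n T = T ^ 2 * √(n * L) := by
    unfold XX
    rw [hL]
  have hK0 : 0 ≤ K := by rw [hK, hXX]; positivity
  have hK2 : K ^ 2 = 361 * T ^ 4 * (n * L) := by
    rw [hK, hXX, mul_pow, mul_pow, Real.sq_sqrt (by positivity)]
    ring
  have haμ : (a₀ : ℝ) ^ 2 * μ ^ 4 ≤ T ^ 4 := by
    have h1 : (a₀ : ℝ) ^ 2 = |(a₀ : ℝ)| ^ 2 := (sq_abs _).symm
    rw [h1, hμ]
    have h2 : |(a₀ : ℝ)| ^ 2 * (T / |(a₀ : ℝ)|) ^ 4 = T ^ 4 / |(a₀ : ℝ)| ^ 2 := by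
      field_simp
    rw [h2]
    exact div_le_self (by positivity) (one_le_pow₀ ha1)
  have hcod := coding n m hm a ah K hK0 (by
      intro f g h
      apply Subtype.ext
      apply Polynomial.ext
      intro j
      rcases Nat.lt_or_ge n j with hj | hj
      · rw [Polynomial.coeff_eq_zero_of_natDegree_lt (by rw [(hF f f.2).1]; exact hj),
          Polynomial.coeff_eq_zero_of_natDegree_lt (by rw [(hF g g.2).1]; exact hj)]
      · have := h j hj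
        rw [ha] at this
        exact this) (by
      intro f g
      rw [ha]
      simp only
      rw [(hF f f.2).2.1, (hF g g.2).2.1]) (by
      intro k _ f g
      rw [ha]
      exact hmod f f.2 g g.2 k) hahc (by
      intro N hN
      have hN0 : (0 : ℝ) ≤ N := by positivity
      calc ∑ k ∈ Icc 1 N, (k : ℝ) ^ 2 * ∑ f, ((a k f : ℝ) - ah k f) ^ 2
          = ∑ k ∈ Icc 1 N, ∑ f, (k : ℝ) ^ 2 * ((a k f : ℝ) - ah k f) ^ 2 :=
            Finset.sum_congr rfl fun k _ => Finset.mul_sum _ _ _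
        _ ≤ ∑ k ∈ Icc 1 N, ∑ f, (a₀ : ℝ) ^ 2 * ‖p k f - ph a c p k f‖ ^ 2 :=
            Finset.sum_le_sum fun k hk => Finset.sum_le_sum fun f _ =>
              herr k (Finset.mem_Icc.mp hk).1 f
        _ = (a₀ : ℝ) ^ 2 * ∑ k ∈ Icc 1 N, ∑ f, ‖p k f - ph a c p k f‖ ^ 2 := by
            simp only [← Finset.mul_sum]
        _ ≤ (a₀ : ℝ) ^ 2 * ∑ k ∈ range (N + 1), ∑ f, ‖p k f - ph a c p k f‖ ^ 2 := by
            refine mul_le_mul_of_nonneg_left ?_ (sq_nonneg _)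
            apply Finset.sum_le_sum_of_subset_of_nonneg
            · intro k hk
              rw [Finset.mem_Icc] at hk
              rw [Finset.mem_range]
              omega
            · intro k _ _
              exact Finset.sum_nonneg fun _ _ => by positivity
        _ ≤ (a₀ : ℝ) ^ 2 * (340 * μ ^ 4 * (N * (n * L)) * Fintype.card F) :=
            mul_le_mul_of_nonneg_left (hpred N hN) (sq_nonneg _)
        _ = 340 * ((a₀ : ℝ) ^ 2 * μ ^ 4) * (N * (n * L)) * Fintype.card F := by ring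
        _ ≤ 340 * T ^ 4 * (N * (n * L)) * Fintype.card F := by gcongr
        _ ≤ 361 * T ^ 4 * (N * (n * L)) * Fintype.card F := by
            have h1 : 0 ≤ T ^ 4 * (N * (n * L)) * Fintype.card F := by positivity
            nlinarith
        _ = K ^ 2 * N * Fintype.card F := by rw [hK2]; ring)
  have hcardF : (Fintype.card F : ℝ) = F.card := by rw [Fintype.card_coe]
  rw [hcardF] at hcod
  have hcpos : (0 : ℝ) < F.card := by
    exact_mod_cast Finset.card_pos.mpr ⟨f₁, hf₁⟩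
  rw [hK] at hcod
  calc (F.card : ℝ) = Real.exp (Real.log F.card) := (Real.exp_log hcpos).symm
    _ ≤ _ := Real.exp_le_exp.mpr hcod

end Pool.Agent.Lib.MP_7ab245_nt.Cnt
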