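import Pool.Agent.Lib.MP_7ab245_nt.Cnt.Defs

/-!
CT-Choose: products of subsets; the number of elements of a set from the number of its `r`-element subsets.
-/

set_option autoImplicit false

open Finset

namespace Pool.Agent.Lib.MP_7ab245_nt.Cnt

private lemma eq_of_assoc {f g : Polynomial ℤ} (h : Associated f g) (hf : 0 < f.leadingCoeff)
    (hg : 0 < g.leadingCoeff) : f = g := by
  obtain ⟨u, hu⟩ := h
  obtain ⟨r, hr, hru⟩ := Polynomial.isUnit_iff.mp u.isUnit
  rw [← hru] at hu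
  have h1 : f.leadingCoeff * r = g.leadingCoeff := by
    rw [← hu, Polynomial.leadingCoeff_mul, Polynomial.leadingCoeff_C]
  rcases Int.isUnit_iff.mp hr with h2 | h2
  · rw [← hu, h2, map_one, mul_one]
  · exfalso
    rw [h2] at h1
    linarith

private lemma sub_of_prod (G : Finset (Polynomial ℤ))
    (hG : ∀ f ∈ G, Irreducible f ∧ 0 < f.leadingCoeff)
    (S S' : Finset (Polynomial ℤ)) (hS : S ⊆ G) (hS' : S' ⊆ G) (h : ∏ f ∈ S, f = ∏ f ∈ S', f) :
    S ⊆ S' := by
  intro f hf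
  have h1 : Prime f := (hG f (hS hf)).1.prime
  have h2 : f ∣ ∏ g ∈ S', g := by
    rw [← h]
    exact Finset.dvd_prod_of_mem _ hf
  obtain ⟨g, hg, hfg⟩ := (Prime.dvd_finsetProd_iff h1 _).mp h2
  have h3 : Associated f g := (hG f (hS hf)).1.associated_of_dvd (hG g (hS' hg)).1 hfg
  rw [eq_of_assoc h3 (hG f (hS hf)).2 (hG g (hS' hg)).2]
  exact hg

/-- the products of different subsets are different -/
theorem prod_inj (G : Finset (Polynomial ℤ)) (hG : ∀ f ∈ G, Irreducible f ∧ 0 < f.leadingCoeff)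
    (S S' : Finset (Polynomial ℤ)) (hS : S ⊆ G) (hS' : S' ⊆ G) (h : ∏ f ∈ S, f = ∏ f ∈ S', f) :
    S = S' :=
  Finset.Subset.antisymm (sub_of_prod G hG S S' hS hS' h) (sub_of_prod G hG S' S hS' hS h.symm)

theorem choose_root (N r : ℕ) (hr : 1 ≤ r) (B : ℝ) (hB : 0 ≤ B)
    (h : (N.choose r : ℝ) ≤ Real.exp B) : (N : ℝ) ≤ 2 * r * Real.exp (B / r) := by
  have hr0 : (0 : ℝ) < r := by exact_mod_cast hr
  have h1 : 1 ≤ Real.exp (B / r) := Real.one_le_exp (by positivity)
  by_cases hN : N < r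
  · have : (N : ℝ) ≤ r := by exact_mod_cast hN.le
    nlinarith
  · push Not at hN
    have h2 : ((N + 1 - r : ℕ) : ℝ) ^ r ≤ (r * Real.exp (B / r)) ^ r := by
      have h3 : (N + 1 - r) ^ r ≤ r ^ r * N.choose r := by
        calc (N + 1 - r) ^ r ≤ N.descFactorial r := Nat.pow_sub_le_descFactorial N r
          _ = r.factorial * N.choose r := Nat.descFactorial_eq_factorial_mul_choose N r
          _ ≤ r ^ r * N.choose r := Nat.mul_le_mul_right _ (Nat.factorial_le_pow r)
      have h4 : ((N + 1 - r : ℕ) : ℝ) ^ r ≤ (r : ℝ) ^ r * N.choose r := by exact_mod_cast h3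
      have h5 : (r * Real.exp (B / r)) ^ r = (r : ℝ) ^ r * Real.exp B := by
        rw [mul_pow, ← Real.exp_nat_mul]
        congr 2
        field_simp
      rw [h5]
      refine h4.trans ?_
      gcongr
    have h3 : ((N + 1 - r : ℕ) : ℝ) ≤ r * Real.exp (B / r) :=
      (pow_le_pow_iff_left₀ (Nat.cast_nonneg _) (by positivity) (by omega)).mp h2
    have h4 : ((N + 1 - r : ℕ) : ℝ) = N + 1 - r := by
      rw [Nat.cast_sub (by omega)]
      push_cast
      ring
    rw [h4] at h3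
    nlinarith

theorem MM_neg (f : Polynomial ℤ) : MM (-f) = MM f := by
  unfold MM cx
  rw [Polynomial.map_neg]
  rw [neg_eq_neg_one_mul, Polynomial.mahlerMeasure_mul]
  have : (-1 : Polynomial ℂ) = Polynomial.C (-1) := by simp
  rw [this, Polynomial.mahlerMeasure_const]
  simp

private lemma MM_one : MM 1 = 1 := by
  unfold MM cx
  simp

private lemma MM_mul' (f g : Polynomial ℤ) : MM (f * g) = MM f * MM g := by
  unfold MM cx
  rw [Polynomial.map_mul, Polynomial.mahlerMeasure_mul]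

theorem mm_prod (S : Finset (Polynomial ℤ)) (B : ℝ) (hB : 1 ≤ B) (hS : ∀ f ∈ S, MM f ≤ B) :
    MM (∏ f ∈ S, f) ≤ B ^ S.card := by
  classical
  induction S using Finset.induction_on with
  | empty => simp [MM_one]
  | insert a S ha ih =>
    rw [Finset.prod_insert ha, MM_mul', Finset.card_insert_of_notMem ha, pow_succ, mul_comm]
    have h1 := ih (fun f hf => hS f (Finset.mem_insert_of_mem hf))
    have h2 := hS a (Finset.mem_insert_self a S)
    exact mul_le_mul h1 h2 (Polynomial.mahlerMeasure_nonneg _) (by positivity)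

theorem deg_prod (S : Finset (Polynomial ℤ)) (n : ℕ) (hS : ∀ f ∈ S, f ≠ 0 ∧ f.natDegree = n) :
    (∏ f ∈ S, f) ≠ 0 ∧ (∏ f ∈ S, f).natDegree = n * S.card := by
  constructor
  · exact Finset.prod_ne_zero_iff.mpr fun f hf => (hS f hf).1
  · rw [Polynomial.natDegree_prod _ _ (fun f hf => (hS f hf).1),
      Finset.sum_congr rfl (fun f hf => (hS f hf).2), Finset.sum_const, smul_eq_mul, mul_comm]

/-- the choice of `r` -/
theorem choose_r (n : ℕ) (hn : 1 ≤ n) (lam : ℝ) (h0 : 0 ≤ lam) (h1 : lam ≤ 1) :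
    ∃ r : ℕ, 1 ≤ r ∧ r ≤ n ∧ (1 + lam) ^ r ≤ 3 ∧ 1 / (r : ℝ) ≤ 2 * lam + 1 / n := by
  have hn0 : (0 : ℝ) < n := by exact_mod_cast hn
  have hb : ∀ r : ℕ, (r : ℝ) * lam ≤ 1 → (1 + lam) ^ r ≤ 3 := by
    intro r hr
    calc (1 + lam) ^ r ≤ (Real.exp lam) ^ r := by
          apply pow_le_pow_left₀ (by linarith)
          linarith [Real.add_one_le_exp lam]
      _ = Real.exp (r * lam) := by rw [← Real.exp_nat_mul]
      _ ≤ Real.exp 1 := Real.exp_le_exp.mpr hr
      _ ≤ 3 := by have := Real.exp_one_lt_d9; linarith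
  by_cases h : (n : ℝ) * lam ≤ 1
  · exact ⟨n, hn, le_refl n, hb n h, by linarith [show 0 ≤ 2 * lam by positivity]⟩
  · push Not at h
    have hl : 0 < lam := by
      by_contra hc
      have : lam = 0 := le_antisymm (not_lt.mp hc) h0
      rw [this, mul_zero] at h
      linarith
    have h2 : 1 ≤ 1 / lam := by rw [le_div_iff₀ hl]; linarith
    have h3 : 1 ≤ ⌊1 / lam⌋₊ := Nat.le_floor (by simpa using h2)
    have h4 : (⌊1 / lam⌋₊ : ℝ) ≤ 1 / lam := Nat.floor_le (by positivity)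
    have h5 : 1 / lam < ⌊1 / lam⌋₊ + 1 := Nat.lt_floor_add_one _
    have h3' : (1 : ℝ) ≤ ⌊1 / lam⌋₊ := by exact_mod_cast h3
    refine ⟨⌊1 / lam⌋₊, h3, ?_, hb _ ?_, ?_⟩
    · have h6 : (⌊1 / lam⌋₊ : ℝ) ≤ n := by
        refine h4.trans ?_
        rw [div_le_iff₀ hl]
        exact h.le
      exact_mod_cast h6
    · calc (⌊1 / lam⌋₊ : ℝ) * lam ≤ 1 / lam * lam := by gcongr
        _ = 1 := by field_simp
    · have h6 : 1 / (2 * lam) ≤ ⌊1 / lam⌋₊ := by
        have : 1 / (2 * lam) = (1 / lam) / 2 := by field_simp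
        rw [this]
        linarith
      have h7 : 1 / (⌊1 / lam⌋₊ : ℝ) ≤ 2 * lam := by
        rw [div_le_iff₀ (by linarith)]
        rw [div_le_iff₀ (by positivity)] at h6
        linarith
      have h8 : 0 ≤ 1 / (n : ℝ) := by positivity
      linarith

end Pool.Agent.Lib.MP_7ab245_nt.Cnt
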