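import Pool.Agent.Lib.MP_7ab245_nt.Cnt.Rec
import Pool.Agent.Lib.MP_7ab245_nt.Cnt.Choose

/-!
All polynomials (`r = 1`) and irreducible polynomials (`r ≥ 1`) with `M(f) ^ r ≤ T`.
-/

set_option autoImplicit false

open Finset

namespace Pool.Agent.Lib.MP_7ab245_nt.Cnt

private theorem all' (n : ℕ) (T : ℝ) (hn : 1 ≤ n) (hT : 1 ≤ T) (F : Finset (Polynomial ℤ))
    (hF : ∀ f ∈ F, f ≠ 0 ∧ f.natDegree = n ∧ MM f ≤ T) :
    (F.card : ℝ) ≤ Real.exp (32000 * XX n T) := by
  have hn0 : (1 : ℝ) ≤ n := by exact_mod_cast hn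
  have h1 := all n T hT F hF
  have h2 := log_le_XX hn T hT
  have h3 : 4 * T ≤ Real.exp (5 * XX n T) := by
    calc 4 * T ≤ 8 * n * T := by nlinarith
      _ = Real.exp (Real.log (8 * n * T)) := by rw [Real.exp_log (by positivity)]
      _ ≤ _ := Real.exp_le_exp.mpr h2
  have h4 := XX_nonneg n T
  calc (F.card : ℝ) ≤ 4 * T * Real.exp (31000 * XX n T) := h1
    _ ≤ Real.exp (5 * XX n T) * Real.exp (31000 * XX n T) := by gcongr
    _ = Real.exp (5 * XX n T + 31000 * XX n T) := by rw [Real.exp_add]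
    _ ≤ _ := by
        apply Real.exp_le_exp.mpr
        nlinarith

private theorem uni_pos (n r : ℕ) (T : ℝ) (hn : 1 ≤ n) (hr : 1 ≤ r) (hT : 1 ≤ T)
    (G : Finset (Polynomial ℤ))
    (hG : ∀ f ∈ G, f.natDegree = n ∧ MM f ^ r ≤ T ∧ Irreducible f)
    (hpos : ∀ f ∈ G, 0 < f.leadingCoeff) :
    (G.card : ℝ) ≤ 2 * r * Real.exp (32000 * XX (n * r) T / r) := by
  classical
  have hr0 : (0 : ℝ) < r := by exact_mod_cast hr
  set P : Finset (Polynomial ℤ) := (powersetCard r G).image (fun S => ∏ f ∈ S, f) with hP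
  have hcard : P.card = G.card.choose r := by
    rw [hP, Finset.card_image_of_injOn, Finset.card_powersetCard]
    intro S hS S' hS' h
    rw [Finset.mem_coe, Finset.mem_powersetCard] at hS hS'
    exact prod_inj G (fun f hf => ⟨(hG f hf).2.2, hpos f hf⟩) S S' hS.1 hS'.1 h
  have hroot : ∀ f ∈ G, MM f ≤ T ^ (1 / (r : ℝ)) := by
    intro f hf
    have h1 := (hG f hf).2.1
    have h2 : 0 ≤ MM f := Polynomial.mahlerMeasure_nonneg _
    calc MM f = (MM f ^ r) ^ (1 / (r : ℝ)) := by
          rw [one_div, Real.pow_rpow_inv_natCast h2 (by omega)]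
      _ ≤ T ^ (1 / (r : ℝ)) := by
          apply Real.rpow_le_rpow (by positivity) h1 (by positivity)
  have hB1 : 1 ≤ T ^ (1 / (r : ℝ)) := Real.one_le_rpow hT (by positivity)
  have hall := all' (n * r) T (Nat.mul_pos hn hr) hT P (by
    intro f hf
    rw [hP, Finset.mem_image] at hf
    obtain ⟨S, hS, rfl⟩ := hf
    rw [Finset.mem_powersetCard] at hS
    have h2 := deg_prod S n (fun f hf => ⟨(hG f (hS.1 hf)).2.2.ne_zero, (hG f (hS.1 hf)).1⟩)
    rw [hS.2] at h2
    refine ⟨h2.1, h2.2, ?_⟩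
    have h3 := mm_prod S _ hB1 (fun f hf => hroot f (hS.1 hf))
    rw [hS.2] at h3
    refine h3.trans_eq ?_
    rw [one_div, Real.rpow_inv_natCast_pow (by linarith) (by omega)])
  have hXX : 0 ≤ XX (n * r) T := XX_nonneg _ _
  rw [hcard] at hall
  exact choose_root G.card r hr _ (by positivity) hall

private lemma XX_div (n r : ℕ) (T : ℝ) (hr : 1 ≤ r) :
    XX (n * r) T / r = T ^ 2 * √(n * Real.log (2 * n * r * T) / r) := by
  have hr0 : (0 : ℝ) < r := by exact_mod_cast hr
  unfold XX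
  rw [mul_div_assoc]
  congr 1
  have h1 : (r : ℝ) = √((r : ℝ) ^ 2) := (Real.sqrt_sq hr0.le).symm
  conv_lhs => rw [h1]
  rw [← Real.sqrt_div' _ (by positivity)]
  congr 1
  push_cast
  rw [show 2 * ((n : ℝ) * r) * T = 2 * n * r * T by ring]
  field_simp

theorem uni (n r : ℕ) (T : ℝ) (hn : 1 ≤ n) (hr : 1 ≤ r) (hT : 1 ≤ T)
    (F : Finset (Polynomial ℤ))
    (hF : ∀ f ∈ F, f.natDegree = n ∧ MM f ^ r ≤ T ∧ (r = 1 ∨ Irreducible f)) :
    (F.card : ℝ) ≤
      4 * r * Real.exp (32000 * (T ^ 2 * √(n * Real.log (2 * n * r * T) / r))) := by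
  classical
  rw [← XX_div n r T hr, ← mul_div_assoc]
  have hr0 : (1 : ℝ) ≤ r := by exact_mod_cast hr
  rcases eq_or_ne r 1 with rfl | hr1
  · have h1 := all' n T hn hT F (by
      intro f hf
      obtain ⟨h1, h2, _⟩ := hF f hf
      refine ⟨?_, h1, by simpa using h2⟩
      rintro rfl
      rw [Polynomial.natDegree_zero] at h1
      omega)
    rw [Nat.mul_one, Nat.cast_one, div_one, mul_one]
    have h2 : 0 ≤ Real.exp (32000 * XX n T) := (Real.exp_pos _).le
    linarith
  · set H : Finset (Polynomial ℤ) := F ∪ F.image (fun f => -f) with hH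
    have hHF : ∀ f ∈ H, f.natDegree = n ∧ MM f ^ r ≤ T ∧ Irreducible f := by
      intro f hf
      rw [hH, Finset.mem_union, Finset.mem_image] at hf
      rcases hf with hf | ⟨g, hg, rfl⟩
      · obtain ⟨h2, h3, h4⟩ := hF f hf
        exact ⟨h2, h3, h4.resolve_left hr1⟩
      · obtain ⟨h2, h3, h4⟩ := hF g hg
        exact ⟨by rw [Polynomial.natDegree_neg]; exact h2, by rw [MM_neg]; exact h3,
          (Associated.neg_left (Associated.refl g)).irreducible_iff.mpr (h4.resolve_left hr1)⟩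
    set G : Finset (Polynomial ℤ) := H.filter (fun f => 0 < f.leadingCoeff) with hGdef
    have hG := uni_pos n r T hn hr hT G (fun f hf => hHF f (Finset.mem_filter.mp hf).1)
      (fun f hf => (Finset.mem_filter.mp hf).2)
    have hsub : F ⊆ G ∪ G.image (fun f => -f) := by
      intro f hf
      rw [Finset.mem_union]
      have hne : f.leadingCoeff ≠ 0 :=
        Polynomial.leadingCoeff_ne_zero.mpr ((hF f hf).2.2.resolve_left hr1).ne_zero
      rcases lt_or_gt_of_ne hne with h | h
      · right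
        rw [Finset.mem_image]
        refine ⟨-f, ?_, neg_neg f⟩
        rw [hGdef, Finset.mem_filter]
        refine ⟨?_, by rw [Polynomial.leadingCoeff_neg]; linarith⟩
        rw [hH, Finset.mem_union]
        exact Or.inr (Finset.mem_image_of_mem _ hf)
      · left
        rw [hGdef, Finset.mem_filter]
        exact ⟨by rw [hH, Finset.mem_union]; exact Or.inl hf, h⟩
    have hcard : (F.card : ℝ) ≤ 2 * G.card := by
      have h2 : F.card ≤ G.card + G.card := by
        calc F.card ≤ (G ∪ G.image (fun f => -f)).card := Finset.card_le_card hsub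
          _ ≤ G.card + (G.image (fun f => -f)).card := Finset.card_union_le _ _
          _ ≤ G.card + G.card := Nat.add_le_add_left Finset.card_image_le _
      have : (F.card : ℝ) ≤ G.card + G.card := by exact_mod_cast h2
      linarith
    linarith

end Pool.Agent.Lib.MP_7ab245_nt.Cnt
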