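import Pool.Agent.Lib.MP_7ab245_nt.Cnt.Defs

/-!
CT-Split: every nonzero integer polynomial is `s h²` with `s` squarefree; elementary facts on `MM`.

PROOF. Well-founded induction (WfDvdMonoid: `DvdNotUnit` is well founded on the nonzero elements; or strong induction on the number of
normalized factors): if `f` is not squarefree there is a non-unit `x` with `f = x * x * g`; `g` is a proper divisor, `g = s h²`, `f = s (x h)²`.
MM: `Polynomial.mahlerMeasure_mul`, and `1 ≤ MM f` for `f ≠ 0` (one_le_mahlerMeasure_of_ne_zero).
-/

set_option autoImplicit false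

open Finset

namespace Pool.Agent.Lib.MP_7ab245_nt.Cnt

theorem split (f : Polynomial ℤ) (hf : f ≠ 0) : ∃ s h : Polynomial ℤ, f = s * h ^ 2 ∧ Squarefree s := by
  have wf := (inferInstance : WfDvdMonoid (Polynomial ℤ)).wf
  revert hf
  induction f using wf.induction with
  | _ f ih =>
    intro hf
    by_cases hs : Squarefree f
    · exact ⟨f, 1, by simp, hs⟩
    · unfold Squarefree at hs
      push Not at hs
      obtain ⟨x, ⟨g, hg⟩, hx⟩ := hs
      have hx0 : x ≠ 0 := by
        rintro rfl
        apply hf
        rw [hg]
        simp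
      have hg0 : g ≠ 0 := by
        rintro rfl
        apply hf
        rw [hg]
        simp
      have hd : DvdNotUnit g f := by
        refine ⟨hg0, x * x, ?_, ?_⟩
        · intro hu
          exact hx (isUnit_of_mul_isUnit_left hu)
        · rw [hg]
          ring
      obtain ⟨s, h, hsh, hsq⟩ := ih g hd hg0
      refine ⟨s, x * h, ?_, hsq⟩
      rw [hg, hsh]
      ring

theorem MM_mul (f g : Polynomial ℤ) : MM (f * g) = MM f * MM g := by
  unfold MM cx
  rw [Polynomial.map_mul, Polynomial.mahlerMeasure_mul]

theorem one_le_MM (f : Polynomial ℤ) (hf : f ≠ 0) : 1 ≤ MM f := by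
  unfold MM cx
  exact Polynomial.one_le_mahlerMeasure_of_ne_zero hf

end Pool.Agent.Lib.MP_7ab245_nt.Cnt
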