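import Pool.Agent.Lib.MP_7ab245_nt.Cnt.Defs

/-!
CT-Abel: summation by parts, two sums.

PROOF. `abel`: `∑_{k≤n} w k * b k = w n * ∑_{k≤n} b k + ∑_{N<n} (w N - w (N+1)) ∑_{k≤N} b k ≤ A (w n * n + ∑_{N<n} (w N - w (N+1)) N) = A ∑_{k≤n} w k`
(induction on n is simplest: prove the statement for all n with the extra term, or: strengthen to
`∑_{k≤n} w k b k ≤ A ∑_{k≤n} w k - w n (A n - ∑_{k≤n} b k)`, which follows by induction as `w (n+1) ≤ w n` and `A n - ∑ b ≥ 0`).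
`sum_inv_sq`: for `k > K ≥ 1`, `1/k² ≤ 1/(k-1) - 1/k`, telescoping from the first integer `k₀ > K`: `≤ 1/(k₀-1) ≤ 2/K` as `k₀ - 1 > K - 1` and
`k₀ - 1 ≥ 1`, so `k₀ - 1 ≥ K/2`. `sum_inv_32`: `k^{-3/2} ≤ 2 (1/√(k-1) - 1/√k)`, total `≤ 2/√(k₀-1) ≤ 2 √2/√K ≤ 3/√K`.
`sum_sqrt`: `1/√k ≤ 2(√k - √(k-1))`.
-/

set_option autoImplicit false

open Finset

namespace Pool.Agent.Lib.MP_7ab245_nt.Cnt

theorem abel (n : ℕ) (w b : ℕ → ℝ) (A : ℝ) (hw : ∀ k, 1 ≤ k → w (k + 1) ≤ w k)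
    (hw0 : ∀ k, 1 ≤ k → 0 ≤ w k) (hb : ∀ N ≤ n, ∑ k ∈ Icc 1 N, b k ≤ A * N) :
    ∑ k ∈ Icc 1 n, w k * b k ≤ A * ∑ k ∈ Icc 1 n, w k := by
  have key : ∀ N ≤ n, ∑ k ∈ Icc 1 N, w k * b k ≤
      A * ∑ k ∈ Icc 1 N, w k - w N * (A * N - ∑ k ∈ Icc 1 N, b k) := by
    intro N
    induction N with
    | zero => intro _; simp
    | succ N ih =>
      intro hN
      have h1 := ih (by omega)
      have h2 := hb N (by omega)
      rw [sum_Icc_succ_top (by omega), sum_Icc_succ_top (by omega), sum_Icc_succ_top (by omega)]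
      have h3 : w (N + 1) * (A * N - ∑ k ∈ Icc 1 N, b k) ≤
          w N * (A * N - ∑ k ∈ Icc 1 N, b k) := by
        rcases Nat.eq_zero_or_pos N with h0 | h0
        · subst h0; simp
        · exact mul_le_mul_of_nonneg_right (hw N h0) (by linarith)
      push_cast
      nlinarith
  have h1 := key n le_rfl
  rcases Nat.eq_zero_or_pos n with h0 | h0
  · subst h0; simp
  · have h2 := hb n le_rfl
    have h3 := mul_nonneg (hw0 n h0) (show 0 ≤ A * n - ∑ k ∈ Icc 1 n, b k by linarith)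
    linarith

private theorem tele (n : ℕ) (K : ℝ) (hK : 1 ≤ K) (f h : ℕ → ℝ)
    (hf : ∀ k, ⌊K⌋₊ ≤ k → f (k + 1) ≤ h k - h (k + 1)) (hh : ∀ k, 0 ≤ h k) :
    ∑ k ∈ (Icc 1 n).filter (fun k : ℕ => K < (k : ℝ)), f k ≤ h ⌊K⌋₊ := by
  have key : ∀ N : ℕ, ∑ k ∈ (Icc 1 N).filter (fun k : ℕ => K < (k : ℝ)), f k ≤
      h ⌊K⌋₊ - h (max N ⌊K⌋₊) := by
    intro N
    induction N with
    | zero => simp
    | succ N ih =>
      rw [← insert_Icc_right_eq_Icc_add_one (show 1 ≤ N + 1 by omega), filter_insert]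
      by_cases hc : K < ((N + 1 : ℕ) : ℝ)
      · have hc' : ⌊K⌋₊ < N + 1 := (Nat.floor_lt (by linarith)).mpr hc
        rw [if_pos hc, sum_insert (by simp)]
        have h1 := hf N (by omega)
        rw [max_eq_left (by omega)] at ih
        rw [max_eq_left (by omega)]
        linarith
      · have hc' : ¬ ⌊K⌋₊ < N + 1 := fun h => hc ((Nat.floor_lt (by linarith)).mp h)
        rw [if_neg hc]
        rw [max_eq_right (by omega)] at ih
        rw [max_eq_right (by omega)]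
        exact ih
  linarith [key n, hh (max n ⌊K⌋₊)]

private theorem floor_facts (K : ℝ) (hK : 1 ≤ K) : 1 ≤ ⌊K⌋₊ ∧ K ≤ 2 * (⌊K⌋₊ : ℝ) := by
  have h1 : 1 ≤ ⌊K⌋₊ := (Nat.one_le_floor_iff K).mpr hK
  refine ⟨h1, ?_⟩
  have h2 := Nat.lt_floor_add_one K
  have h3 : (1 : ℝ) ≤ (⌊K⌋₊ : ℝ) := by exact_mod_cast h1
  linarith

theorem sum_inv_sq (n : ℕ) (K : ℝ) (hK : 1 ≤ K) :
    ∑ k ∈ (Icc 1 n).filter (fun k : ℕ => K < (k : ℝ)), 1 / (k : ℝ) ^ 2 ≤ 2 / K := by
  obtain ⟨h1, h2⟩ := floor_facts K hK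
  have h3 : (1 : ℝ) ≤ (⌊K⌋₊ : ℝ) := by exact_mod_cast h1
  refine (tele n K hK (fun k => 1 / (k : ℝ) ^ 2) (fun k => 1 / (k : ℝ)) ?_ ?_).trans ?_
  · intro k hk
    have hk0 : (1 : ℝ) ≤ (k : ℝ) := by exact_mod_cast (h1.trans hk)
    push_cast
    rw [div_sub_div _ _ (by positivity) (by positivity), div_le_div_iff₀ (by positivity) (by positivity)]
    nlinarith
  · intro k; positivity
  · rw [div_le_div_iff₀ (by linarith) (by linarith)]
    linarith

theorem sum_inv_32 (n : ℕ) (K : ℝ) (hK : 1 ≤ K) :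
    ∑ k ∈ (Icc 1 n).filter (fun k : ℕ => K < (k : ℝ)), 1 / ((k : ℝ) * √k) ≤ 3 / √K := by
  obtain ⟨h1, h2⟩ := floor_facts K hK
  have h3 : (1 : ℝ) ≤ (⌊K⌋₊ : ℝ) := by exact_mod_cast h1
  refine (tele n K hK (fun k => 1 / ((k : ℝ) * √k)) (fun k => 2 / √(k : ℝ)) ?_ ?_).trans ?_
  · intro k hk
    have hk0 : (1 : ℝ) ≤ (k : ℝ) := by exact_mod_cast (h1.trans hk)
    push_cast
    set a := √(k : ℝ) with ha
    set b := √((k : ℝ) + 1) with hb
    have ha0 : 0 < a := Real.sqrt_pos.mpr (by linarith)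
    have hb0 : 0 < b := Real.sqrt_pos.mpr (by linarith)
    have ha2 : a ^ 2 = k := Real.sq_sqrt (by linarith)
    have hb2 : b ^ 2 = (k : ℝ) + 1 := Real.sq_sqrt (by linarith)
    have hab : a ≤ b := Real.sqrt_le_sqrt (by linarith)
    rw [← hb2, div_sub_div _ _ ha0.ne' hb0.ne', div_le_div_iff₀ (by positivity) (by positivity)]
    have e1 : (b - a) * (b + a) = 1 := by nlinarith
    have e2 : 0 < b - a := by
      by_contra h
      push Not at h
      nlinarith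
    have e3 : a * b * 1 ≤ 2 * (b - a) * (b ^ 2 * b) := by
      have : a * b * ((b - a) * (b + a)) ≤ 2 * (b - a) * (b ^ 2 * b) := by
        have h5 : a * (b + a) ≤ 2 * b ^ 2 := by nlinarith
        nlinarith [mul_le_mul_of_nonneg_left h5 (mul_nonneg e2.le hb0.le)]
      rwa [e1] at this
    linarith
  · intro k; positivity
  · rw [div_le_div_iff₀ (Real.sqrt_pos.mpr (by linarith)) (Real.sqrt_pos.mpr (by linarith))]
    have h4 : 2 * √K ≤ 3 * √(⌊K⌋₊ : ℝ) := by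
      have hs : (2 * √K) ^ 2 ≤ (3 * √(⌊K⌋₊ : ℝ)) ^ 2 := by
        rw [mul_pow, mul_pow, Real.sq_sqrt (by linarith), Real.sq_sqrt (by linarith)]
        linarith
      exact (abs_le_of_sq_le_sq' hs (by positivity)).2
    exact h4

theorem sum_sqrt (n : ℕ) (K : ℝ) (hK : 1 ≤ K) :
    ∑ k ∈ (Icc 1 n).filter (fun k : ℕ => (k : ℝ) ≤ K), 1 / √(k : ℝ) ≤ 2 * √K := by
  have key : ∀ N : ℕ, ∑ k ∈ (Icc 1 N).filter (fun k : ℕ => (k : ℝ) ≤ K), 1 / √(k : ℝ) ≤
      2 * √(min (N : ℝ) K) := by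
    intro N
    induction N with
    | zero => simp
    | succ N ih =>
      rw [← insert_Icc_right_eq_Icc_add_one (show 1 ≤ N + 1 by omega), filter_insert]
      by_cases hc : ((N + 1 : ℕ) : ℝ) ≤ K
      · rw [if_pos hc, sum_insert (by simp)]
        have hN : (N : ℝ) ≤ K := by push_cast at hc; linarith
        rw [min_eq_left hN] at ih
        rw [min_eq_left hc]
        push_cast
        set a := √(N : ℝ) with ha
        set b := √((N : ℝ) + 1) with hb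
        have hN0 : (0 : ℝ) ≤ N := Nat.cast_nonneg N
        have ha0 : 0 ≤ a := Real.sqrt_nonneg _
        have hb0 : 0 < b := Real.sqrt_pos.mpr (by linarith)
        have ha2 : a ^ 2 = N := Real.sq_sqrt hN0
        have hb2 : b ^ 2 = (N : ℝ) + 1 := Real.sq_sqrt (by linarith)
        have e1 : 1 / b ≤ 2 * b - 2 * a := by
          rw [div_le_iff₀ hb0]
          nlinarith [sq_nonneg (b - a)]
        linarith
      · rw [if_neg hc]
        refine ih.trans ?_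
        have : √(min (N : ℝ) K) ≤ √(min ((N + 1 : ℕ) : ℝ) K) := by
          apply Real.sqrt_le_sqrt
          exact min_le_min (by push_cast; linarith) le_rfl
        linarith
  refine (key n).trans ?_
  have : √(min (n : ℝ) K) ≤ √K := Real.sqrt_le_sqrt (min_le_right _ _)
  linarith

end Pool.Agent.Lib.MP_7ab245_nt.Cnt
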