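import Pool.Agent.Lib.MP_7ab245_nt.Cnt.Defs

/-!
CT-AvA: the averages over the classes, elementary properties.

PROOF. `cls a k f` contains `f`, so its cardinality is positive. If `a j f = a j g` for `j < k` then `cls a k f = cls a k g`.
Everything else: finite sums. `av_tower`: for `k ≤ l` the class `cls a k f` is a disjoint union of classes `cls a l g`; equivalently
`∑ g ∈ cls a k f, av a l X g = ∑ g ∈ cls a k f, X g`: exchange the two sums, for fixed `h` the inner sum
`∑ g ∈ cls a k f, if h ∈ cls a l g then 1/|cls a l g| else 0` is `∑ g ∈ cls a l h, 1/|cls a l h| = 1` if `h ∈ cls a k f`, else `0`.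
`norm_av_sq_le`: Cauchy-Schwarz (`sq_sum_le_card_mul_sum_sq` and the triangle inequality). `sum_norm_av_sq_le`: the same exchange
with `‖X‖²` in place of `X` and `k = 0` outside.
-/

set_option autoImplicit false

open Finset

namespace Pool.Agent.Lib.MP_7ab245_nt.Cnt

variable {ι : Type} [Fintype ι] (a : ℕ → ι → ℤ)

theorem mem_cls {k : ℕ} {f g : ι} : g ∈ cls a k f ↔ ∀ j < k, a j g = a j f := by
  unfold cls
  simp

theorem self_mem_cls (k : ℕ) (f : ι) : f ∈ cls a k f := by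
  rw [mem_cls]
  intro j _
  rfl

theorem card_cls_pos (k : ℕ) (f : ι) : 0 < (cls a k f).card :=
  Finset.card_pos.mpr ⟨f, self_mem_cls a k f⟩

theorem cls_congr {k : ℕ} {f g : ι} (h : ∀ j < k, a j f = a j g) : cls a k f = cls a k g := by
  ext x
  rw [mem_cls, mem_cls]
  exact ⟨fun h1 j hj => (h1 j hj).trans (h j hj), fun h1 j hj => (h1 j hj).trans (h j hj).symm⟩

theorem av_congr {k : ℕ} {f g : ι} (X : ι → ℂ) (h : ∀ j < k, a j f = a j g) :
    av a k X f = av a k X g := by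
  unfold av
  rw [cls_congr a h]

private theorem ava_card_ne (k : ℕ) (f : ι) : ((cls a k f).card : ℂ) ≠ 0 := by
  have := card_cls_pos a k f
  exact_mod_cast this.ne'

/-- the average of a function which is constant on the classes -/
theorem av_const {k : ℕ} (X : ι → ℂ) (f : ι) (h : ∀ g, (∀ j < k, a j g = a j f) → X g = X f) :
    av a k X f = X f := by
  unfold av
  rw [Finset.sum_congr rfl (fun g hg => h g ((mem_cls a).mp hg)), Finset.sum_const, nsmul_eq_mul,
    mul_div_cancel_left₀ _ (ava_card_ne a k f)]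

theorem av_sum {k : ℕ} {κ : Type} (S : Finset κ) (X : κ → ι → ℂ) (f : ι) :
    av a k (fun g => ∑ i ∈ S, X i g) f = ∑ i ∈ S, av a k (X i) f := by
  unfold av
  rw [Finset.sum_comm, Finset.sum_div]

/-- a factor which is constant on the class -/
theorem av_mul {k : ℕ} (X Y : ι → ℂ) (f : ι) (h : ∀ g, (∀ j < k, a j g = a j f) → Y g = Y f) :
    av a k (fun g => X g * Y g) f = av a k X f * Y f := by
  unfold av
  have h1 : ∀ g ∈ cls a k f, X g * Y g = X g * Y f := fun g hg => by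
    rw [h g ((mem_cls a).mp hg)]
  rw [Finset.sum_congr rfl h1, ← Finset.sum_mul]
  ring

theorem norm_av_sq_le (k : ℕ) (X : ι → ℂ) (f : ι) :
    ‖av a k X f‖ ^ 2 ≤ (∑ g ∈ cls a k f, ‖X g‖ ^ 2) / (cls a k f).card := by
  have hpos : (0 : ℝ) < (cls a k f).card := by exact_mod_cast card_cls_pos a k f
  unfold av
  rw [norm_div, Complex.norm_natCast, div_pow, div_le_div_iff₀ (by positivity) hpos]
  have h1 : ‖∑ g ∈ cls a k f, X g‖ ^ 2 ≤ (∑ g ∈ cls a k f, ‖X g‖) ^ 2 :=
    pow_le_pow_left₀ (norm_nonneg _) (norm_sum_le _ _) 2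
  have h2 : (∑ g ∈ cls a k f, ‖X g‖) ^ 2 ≤ (cls a k f).card * ∑ g ∈ cls a k f, ‖X g‖ ^ 2 :=
    sq_sum_le_card_mul_sum_sq
  nlinarith [mul_le_mul_of_nonneg_right (h1.trans h2) hpos.le]

/-- if `∑ i ∈ S, ‖X i g‖ ^ 2 ≤ B` for all `g` then the same holds for the averages -/
theorem sum_av_sq_le {k : ℕ} {κ : Type} (S : Finset κ) (X : κ → ι → ℂ) (B : ℝ)
    (h : ∀ g, ∑ i ∈ S, ‖X i g‖ ^ 2 ≤ B) (f : ι) : ∑ i ∈ S, ‖av a k (X i) f‖ ^ 2 ≤ B := by
  have hpos : (0 : ℝ) < (cls a k f).card := by exact_mod_cast card_cls_pos a k f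
  calc ∑ i ∈ S, ‖av a k (X i) f‖ ^ 2
      ≤ ∑ i ∈ S, (∑ g ∈ cls a k f, ‖X i g‖ ^ 2) / (cls a k f).card :=
        Finset.sum_le_sum fun i _ => norm_av_sq_le a k (X i) f
    _ = (∑ g ∈ cls a k f, ∑ i ∈ S, ‖X i g‖ ^ 2) / (cls a k f).card := by
        rw [← Finset.sum_div, Finset.sum_comm]
    _ ≤ (∑ g ∈ cls a k f, B) / (cls a k f).card :=
        div_le_div_of_nonneg_right (Finset.sum_le_sum fun g _ => h g) hpos.le
    _ = B := by
        rw [Finset.sum_const, nsmul_eq_mul, mul_div_cancel_left₀ _ hpos.ne']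

private theorem ava_exchange {R : Type} [Field R] [CharZero R] {k l : ℕ} (hkl : k ≤ l) (X : ι → R)
    (f : ι) : ∑ g ∈ cls a k f, (∑ h ∈ cls a l g, X h) / ((cls a l g).card : R) =
      ∑ g ∈ cls a k f, X g := by
  classical
  have hne : ∀ g, ((cls a l g).card : R) ≠ 0 := fun g => by
    have := card_cls_pos a l g
    exact_mod_cast this.ne'
  have h1 : ∀ g ∈ cls a k f, (∑ h ∈ cls a l g, X h) / ((cls a l g).card : R) =
      ∑ h ∈ cls a k f, if h ∈ cls a l g then X h / ((cls a l g).card : R) else 0 := by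
    intro g hg
    rw [Finset.sum_div, ← Finset.sum_filter]
    apply Finset.sum_congr _ (fun _ _ => rfl)
    ext h
    rw [Finset.mem_filter]
    refine ⟨fun hh => ⟨?_, hh⟩, fun hh => hh.2⟩
    rw [mem_cls] at hg hh ⊢
    intro j hj
    rw [hh j (lt_of_lt_of_le hj hkl), hg j hj]
  rw [Finset.sum_congr rfl h1, Finset.sum_comm]
  refine Finset.sum_congr rfl fun h hh => ?_
  have h2 : ∀ g ∈ cls a k f, (if h ∈ cls a l g then X h / ((cls a l g).card : R) else 0) =
      if g ∈ cls a l h then X h / ((cls a l h).card : R) else 0 := by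
    intro g _
    by_cases hgh : h ∈ cls a l g
    · have h3 : cls a l g = cls a l h := cls_congr a fun j hj => ((mem_cls a).mp hgh j hj).symm
      rw [if_pos hgh, h3, if_pos (by rw [← h3]; exact self_mem_cls a l g)]
    · have h3 : g ∉ cls a l h := by
        intro h4
        apply hgh
        rw [mem_cls] at h4 ⊢
        exact fun j hj => (h4 j hj).symm
      rw [if_neg hgh, if_neg h3]
  rw [Finset.sum_congr rfl h2, ← Finset.sum_filter]
  have h4 : (cls a k f).filter (fun g => g ∈ cls a l h) = cls a l h := by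
    ext g
    rw [Finset.mem_filter]
    refine ⟨fun h5 => h5.2, fun h5 => ⟨?_, h5⟩⟩
    rw [mem_cls] at hh h5 ⊢
    intro j hj
    rw [h5 j (lt_of_lt_of_le hj hkl), hh j hj]
  rw [h4, Finset.sum_const, nsmul_eq_mul, mul_div_cancel₀ _ (hne h)]

theorem sum_cls_av {k l : ℕ} (hkl : k ≤ l) (X : ι → ℂ) (f : ι) :
    ∑ g ∈ cls a k f, av a l X g = ∑ g ∈ cls a k f, X g := by
  unfold av
  exact ava_exchange a hkl X f

theorem av_tower {k l : ℕ} (hkl : k ≤ l) (X : ι → ℂ) (f : ι) :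
    av a k (fun g => av a l X g) f = av a k X f := by
  have h := sum_cls_av a hkl X f
  unfold av at h ⊢
  rw [h]

theorem sum_norm_av_sq_le (k : ℕ) (X : ι → ℂ) : ∑ f, ‖av a k X f‖ ^ 2 ≤ ∑ f, ‖X f‖ ^ 2 := by
  classical
  rcases isEmpty_or_nonempty ι with hι | ⟨⟨f₀⟩⟩
  · simp
  have h0 : ∀ f : ι, cls a 0 f = univ := by
    intro f
    ext g
    rw [mem_cls]
    simp
  calc ∑ f, ‖av a k X f‖ ^ 2 ≤ ∑ f, (∑ g ∈ cls a k f, ‖X g‖ ^ 2) / (cls a k f).card :=
        Finset.sum_le_sum fun f _ => norm_av_sq_le a k X f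
    _ = ∑ f, ‖X f‖ ^ 2 := by
        have h1 := ava_exchange a (Nat.zero_le k) (fun g => ‖X g‖ ^ 2) f₀
        rw [h0 f₀] at h1
        exact h1

end Pool.Agent.Lib.MP_7ab245_nt.Cnt
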