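import Pool.Agent.Lib.MP_7ab245_nt.Cnt.AvA

/-!
CT-AvB: orthogonality of the increments of the averages.

PROOF. Write `Y f = av a k X f`, `Z f = av a (k+1) X f`. Then `‖Z - Y‖² = ‖Z‖² + ‖Y‖² - 2 Re (Z conj Y)` and
`∑ f, Z f * conj (Y f) = ∑ f, Y f * conj (Y f)`: for every `f` the sum over the class `cls a k f` of `Z g conj (Y g)` is
`conj (Y f) ∑_{g ∈ cls} Z g = conj (Y f) ∑_{g ∈ cls} Y g` (sum_cls_av with l = k+1 and with l = k; Y is constant on the class). To pass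
from classes to the full sum use `∑ f, W f = ∑ f, av a k W f` (sum_cls_av with k := 0, l := k, as cls a 0 f = univ) and av_mul.
`av_incr_sum`: telescoping sum of `av_incr`, `∑ f ‖av a N X f‖² ≤ ∑ f ‖X f‖²` (sum_norm_av_sq_le).
-/

set_option autoImplicit false

open Finset

namespace Pool.Agent.Lib.MP_7ab245_nt.Cnt

variable {ι : Type} [Fintype ι] (a : ℕ → ι → ℤ)

private theorem sum_av (k : ℕ) (W : ι → ℂ) : ∑ f, av a k W f = ∑ f, W f := by
  rcases isEmpty_or_nonempty ι with h | h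
  · simp
  · obtain ⟨f₀⟩ := h
    have h1 : cls a 0 f₀ = univ := by
      ext g
      rw [mem_cls]
      simp
    have h2 := sum_cls_av a (Nat.zero_le k) W f₀
    rwa [h1] at h2

private theorem sum_mul_conj (k : ℕ) (X : ι → ℂ) :
    ∑ f, av a (k + 1) X f * (starRingEnd ℂ) (av a k X f) =
      ∑ f, av a k X f * (starRingEnd ℂ) (av a k X f) := by
  rw [← sum_av a k]
  refine Finset.sum_congr rfl fun f _ => ?_
  rw [av_mul a (k := k) (fun g => av a (k + 1) X g) (fun g => (starRingEnd ℂ) (av a k X g)) f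
    (fun g hg => by rw [av_congr a X hg]), av_tower a (Nat.le_succ k)]

theorem av_incr (k : ℕ) (X : ι → ℂ) :
    ∑ f, ‖av a (k + 1) X f - av a k X f‖ ^ 2 =
      ∑ f, ‖av a (k + 1) X f‖ ^ 2 - ∑ f, ‖av a k X f‖ ^ 2 := by
  have h1 : ∀ z w : ℂ, ‖z - w‖ ^ 2 = ‖z‖ ^ 2 + ‖w‖ ^ 2 - 2 * (z * (starRingEnd ℂ) w).re := by
    intro z w
    rw [← Complex.normSq_eq_norm_sq, ← Complex.normSq_eq_norm_sq, ← Complex.normSq_eq_norm_sq,
      Complex.normSq_sub]
  have h2 : ∀ w : ℂ, (w * (starRingEnd ℂ) w).re = ‖w‖ ^ 2 := by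
    intro w
    rw [Complex.mul_conj, Complex.ofReal_re, Complex.normSq_eq_norm_sq]
  have h3 := congrArg Complex.re (sum_mul_conj a k X)
  rw [Complex.re_sum, Complex.re_sum] at h3
  simp only [h2] at h3
  simp only [h1]
  rw [Finset.sum_sub_distrib, Finset.sum_add_distrib, ← Finset.mul_sum, h3]
  ring

theorem av_incr_sum (N : ℕ) (X : ι → ℂ) :
    ∑ k ∈ range N, ∑ f, ‖av a (k + 1) X f - av a k X f‖ ^ 2 ≤ ∑ f, ‖X f‖ ^ 2 := by
  simp only [av_incr]
  rw [Finset.sum_range_sub (fun k => ∑ f, ‖av a k X f‖ ^ 2)]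
  have h1 := sum_norm_av_sq_le a N X
  have h2 : 0 ≤ ∑ f, ‖av a 0 X f‖ ^ 2 := Finset.sum_nonneg fun f _ => by positivity
  linarith

end Pool.Agent.Lib.MP_7ab245_nt.Cnt
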