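import Pool.Agent.Lib.MP_7ab245_nt.Cnt.Defs

/-!
CT-Code: the coding inequality.

PROOF. Choose `B` with `|y k f| ≤ B` for all `f` and `k ∈ Icc 1 n`. The map `f ↦ (y k f)_{k ∈ Icc 1 n}` is an injection into the
functions `Icc 1 n → [-B,B]` (Fintype.piFinset or Finset.pi), so
`∑ f, ∏_{k ∈ Icc 1 n} exp(-(s k * y k f²)) ≤ ∏_{k ∈ Icc 1 n} gs (s k) B ≤ ∏ Z k` (Finset.prod_univ_sum / Finset.prod_sum).
Jensen for exp (arithmetic-geometric mean; `Real.add_one_le_exp` suffices, or `Real.inner_le_nnorm_mul_nnorm`.. ; e.g.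
`convexOn_exp.map_sum_le` with weights `1/|ι|`): `exp(-(1/|ι|) ∑_f ∑_k s k y k f²) ≤ (1/|ι|) ∑_f exp(-∑_k s k y k f²)`. Take logarithms.
-/

set_option autoImplicit false

open Finset

namespace Pool.Agent.Lib.MP_7ab245_nt.Cnt

theorem code {ι : Type} [Fintype ι] [Nonempty ι] (n : ℕ) (y : ℕ → ι → ℤ) (s Z : ℕ → ℝ)
    (hinj : ∀ f g, (∀ k ∈ Icc 1 n, y k f = y k g) → f = g)
    (hZ0 : ∀ k ∈ Icc 1 n, 0 < Z k)
    (hZ : ∀ k ∈ Icc 1 n, ∀ B : ℕ, gs (s k) B ≤ Z k) :
    Real.log (Fintype.card ι) ≤ ∑ k ∈ Icc 1 n, Real.log (Z k) +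
      (∑ k ∈ Icc 1 n, s k * ∑ f, (y k f : ℝ) ^ 2) / Fintype.card ι := by
  classical
  set c : ℝ := (Fintype.card ι : ℝ) with hc
  have hc0 : 0 < c := by
    rw [hc]
    exact_mod_cast Fintype.card_pos
  set E : ι → ℝ := fun f => ∑ k ∈ Icc 1 n, s k * (y k f : ℝ) ^ 2 with hE
  set m : ℝ := (∑ f, E f) / c with hm
  have hsum : ∑ f, E f = ∑ k ∈ Icc 1 n, s k * ∑ f, (y k f : ℝ) ^ 2 := by
    rw [hE, Finset.sum_comm]
    exact Finset.sum_congr rfl fun k _ => by rw [Finset.mul_sum]
  -- Jensen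
  have hjen : c * Real.exp (-m) ≤ ∑ f, Real.exp (-E f) := by
    have h1 : ∀ f, Real.exp (-m) * (1 + (m - E f)) ≤ Real.exp (-E f) := by
      intro f
      have h2 := Real.add_one_le_exp (m - E f)
      have h3 : Real.exp (-E f) = Real.exp (-m) * Real.exp (m - E f) := by
        rw [← Real.exp_add]
        congr 1
        ring
      rw [h3]
      have := (Real.exp_pos (-m)).le
      nlinarith
    calc c * Real.exp (-m) = ∑ f, Real.exp (-m) * (1 + (m - E f)) := by
          rw [← Finset.mul_sum, Finset.sum_add_distrib, Finset.sum_sub_distrib]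
          simp only [Finset.sum_const, Finset.card_univ, nsmul_eq_mul, mul_one]
          have : (Fintype.card ι : ℝ) * m = ∑ f, E f := by
            rw [hm, ← hc]
            field_simp
          rw [this, ← hc]
          ring
      _ ≤ ∑ f, Real.exp (-E f) := Finset.sum_le_sum fun f _ => h1 f
  -- the coding
  have hcode : ∑ f, Real.exp (-E f) ≤ ∏ k ∈ Icc 1 n, Z k := by
    set B : ℕ := ∑ k ∈ Icc 1 n, ∑ f, (y k f).natAbs with hB
    have hyB : ∀ k ∈ Icc 1 n, ∀ f, y k f ∈ Icc (-(B : ℤ)) (B : ℤ) := by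
      intro k hk f
      have h1 : (y k f).natAbs ≤ ∑ f, (y k f).natAbs :=
        Finset.single_le_sum (f := fun f => (y k f).natAbs) (fun _ _ => Nat.zero_le _)
          (Finset.mem_univ f)
      have h2 : ∑ f, (y k f).natAbs ≤ B :=
        Finset.single_le_sum (f := fun k => ∑ f, (y k f).natAbs) (fun _ _ => Nat.zero_le _) hk
      have h3 : (y k f).natAbs ≤ B := h1.trans h2
      rw [Finset.mem_Icc]
      omega
    set g : ((a : ℕ) → a ∈ Icc 1 n → ℤ) → ℝ :=
      fun p => ∏ x ∈ (Icc 1 n).attach, Real.exp (-(s x.1 * (p x.1 x.2 : ℝ) ^ 2)) with hg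
    set F : ι → ((a : ℕ) → a ∈ Icc 1 n → ℤ) := fun f a _ => y a f with hF
    have hFinj : Function.Injective F := by
      intro f f' h
      apply hinj
      intro k hk
      have := congrFun (congrFun h k) hk
      exact this
    have hexp : ∀ f, Real.exp (-E f) = g (F f) := by
      intro f
      rw [hg]
      simp only [hF]
      rw [Finset.prod_attach (Icc 1 n) (fun k => Real.exp (-(s k * (y k f : ℝ) ^ 2))),
        ← Real.exp_sum, hE, ← Finset.sum_neg_distrib]
    calc ∑ f, Real.exp (-E f) = ∑ f, g (F f) := Finset.sum_congr rfl fun f _ => hexp f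
      _ = ∑ p ∈ univ.image F, g p := by
        rw [Finset.sum_image fun a _ b _ h => hFinj h]
      _ ≤ ∑ p ∈ (Icc 1 n).pi (fun _ => Icc (-(B : ℤ)) (B : ℤ)), g p := by
        apply Finset.sum_le_sum_of_subset_of_nonneg
        · intro p hp
          obtain ⟨f, _, rfl⟩ := Finset.mem_image.mp hp
          rw [Finset.mem_pi]
          intro a ha
          exact hyB a ha f
        · intro p _ _
          exact Finset.prod_nonneg fun x _ => (Real.exp_pos _).le
      _ = ∏ k ∈ Icc 1 n, gs (s k) B := by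
        unfold gs
        rw [Finset.prod_sum]
      _ ≤ ∏ k ∈ Icc 1 n, Z k := by
        apply Finset.prod_le_prod
        · intro k _
          exact Finset.sum_nonneg fun x _ => (Real.exp_pos _).le
        · intro k hk
          exact hZ k hk B
  have hfin : c * Real.exp (-m) ≤ ∏ k ∈ Icc 1 n, Z k := hjen.trans hcode
  have hlog := Real.log_le_log (by positivity) hfin
  rw [Real.log_mul hc0.ne' (Real.exp_pos _).ne', Real.log_exp,
    Real.log_prod (fun k hk => (hZ0 k hk).ne')] at hlog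
  rw [← hsum, ← hm]
  linarith

end Pool.Agent.Lib.MP_7ab245_nt.Cnt
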