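import Pool.Agent.Lib.MP_7ab245_nt.Cnt.Irr

/-!
CT-Final.

PROOF. `n ≥ 1`, so `f.natDegree = n` implies `f ≠ 0`. Finiteness: every finite subset has at most a fixed number of elements (`all`), `Set.Infinite.exists_subset_card_eq`
(or Northcott in Mathlib, `Polynomial.finite_mahlerMeasure_le`). `ncard` = card of `toFinset` (`Set.ncard_eq_toFinset_card`). (1) `all`: `4T ≤ exp(4 XX n T)` as
`4T ≤ 4 T² ≤ 5 XX n T ≤ exp (4 XX n T)`.. (`XX_ge`; any form). (2) `irr`. (3) `sf`: `f.map (Int.castRingHom (ZMod m)) = g` for two `f` gives `m ∣ coeff k f - coeff k f'`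
(`ZMod.intCast_eq_intCast_iff_dvd_sub` or `ZMod.intCast_zmod_eq_zero_iff_dvd`, coeff_map); `400 max 1 (19 X/m) ≤ 400 + 7600 X/m`, so `C ≥ 4 exp 400`, `C ≥ 7600` works.
`C := 4 exp 400 + 700000`. `MM f` unfolds to `(f.map (Int.castRingHom ℂ)).mahlerMeasure` (rfl).
-/

set_option autoImplicit false

open Finset

namespace Pool.Agent.Lib.MP_7ab245_nt.Cnt

private theorem fin_of_bound {α : Type} (S : Set α) (B : ℝ)
    (h : ∀ F : Finset α, (∀ f ∈ F, f ∈ S) → (F.card : ℝ) ≤ B) :
    S.Finite ∧ (S.ncard : ℝ) ≤ B := by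
  have hfin : S.Finite := by
    by_contra hinf
    obtain ⟨F, hF, hcard⟩ := Set.Infinite.exists_subset_card_eq hinf (⌈B⌉₊ + 1)
    have h1 := h F (fun f hf => hF hf)
    rw [hcard] at h1
    have h2 := Nat.le_ceil B
    push_cast at h1
    linarith
  refine ⟨hfin, ?_⟩
  rw [Set.ncard_eq_toFinset_card S hfin]
  exact h hfin.toFinset (fun f hf => hfin.mem_toFinset.1 hf)

theorem final : ∃ C : ℝ, 0 < C ∧
    (∀ (n : ℕ) (T : ℝ), 1 ≤ n → 1 ≤ T →
      {f : Polynomial ℤ | f.natDegree = n ∧
        (f.map (Int.castRingHom ℂ)).mahlerMeasure ≤ T}.Finite ∧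
      ({f : Polynomial ℤ | f.natDegree = n ∧
        (f.map (Int.castRingHom ℂ)).mahlerMeasure ≤ T}.ncard : ℝ) ≤
        Real.exp (C * (T ^ 2 * √(n * Real.log (2 * n * T))))) ∧
    (∀ (n : ℕ) (lam : ℝ), 1 ≤ n → 0 ≤ lam → lam ≤ 1 →
      ({f : Polynomial ℤ | f.natDegree = n ∧ Irreducible f ∧
        (f.map (Int.castRingHom ℂ)).mahlerMeasure ≤ 1 + lam}.ncard : ℝ) ≤
        Real.exp (C * (√(lam * n * Real.log (2 * n)) + Real.log (2 * n)))) ∧
    (∀ (n m : ℕ) (T : ℝ) (g : Polynomial (ZMod m)), 1 ≤ n → 1 ≤ m → 1 ≤ T →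
      ({f : Polynomial ℤ | f.natDegree = n ∧ Squarefree f ∧
        f.map (Int.castRingHom (ZMod m)) = g ∧
        (f.map (Int.castRingHom ℂ)).mahlerMeasure ≤ T}.ncard : ℝ) ≤
        C * T * Real.exp (C * (T ^ 2 * √(n * Real.log (2 * n * T)) / m))) := by
  have hC : (700000 : ℝ) ≤ 4 * Real.exp 400 + 700000 := by
    have := Real.exp_pos 400
    linarith
  refine ⟨4 * Real.exp 400 + 700000, by positivity, ?_, ?_, ?_⟩
  · intro n T hn hT
    refine fin_of_bound _ _ (fun F hF => ?_)
    have hX0 : 0 ≤ XX n T := XX_nonneg n T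
    have hXge := XX_ge hn T hT
    have h1 := all n T hT F (by
      intro f hf
      obtain ⟨h1, h2⟩ := hF f hf
      refine ⟨?_, h1, h2⟩
      rintro rfl
      rw [Polynomial.natDegree_zero] at h1
      omega)
    refine h1.trans ?_
    have h2 : 4 * T ≤ Real.exp (5 * XX n T) := by
      have h3 := Real.add_one_le_exp (5 * XX n T)
      nlinarith
    calc 4 * T * Real.exp (31000 * XX n T)
        ≤ Real.exp (5 * XX n T) * Real.exp (31000 * XX n T) :=
          mul_le_mul_of_nonneg_right h2 (Real.exp_pos _).le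
      _ = Real.exp (31005 * XX n T) := by rw [← Real.exp_add]; congr 1; ring
      _ ≤ Real.exp ((4 * Real.exp 400 + 700000) * XX n T) := by
          apply Real.exp_le_exp.2
          apply mul_le_mul_of_nonneg_right _ hX0
          linarith
      _ = _ := rfl
  · intro n lam hn h0 h1
    refine (fin_of_bound _ _ (fun F hF => ?_)).2
    refine (irr n lam hn h0 h1 F (fun f hf => hF f hf)).trans ?_
    apply Real.exp_le_exp.2
    apply mul_le_mul_of_nonneg_right hC
    have hn1 : (1 : ℝ) ≤ n := by exact_mod_cast hn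
    exact add_nonneg (Real.sqrt_nonneg _) (Real.log_nonneg (by linarith))
  · intro n m T g hn hm hT
    refine (fin_of_bound _ _ (fun F hF => ?_)).2
    have hX0 : 0 ≤ XX n T := XX_nonneg n T
    have hm1 : (1 : ℝ) ≤ m := by exact_mod_cast hm
    have hXm : 0 ≤ XX n T / m := div_nonneg hX0 (by linarith)
    have h1 := sf n m T hm hT F (fun f hf => ⟨(hF f hf).1, (hF f hf).2.1, (hF f hf).2.2.2⟩) (by
      intro f hf f' hf' k
      have h2 : f.map (Int.castRingHom (ZMod m)) = f'.map (Int.castRingHom (ZMod m)) := by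
        rw [(hF f hf).2.2.1, (hF f' hf').2.2.1]
      have h3 := congrArg (fun p => p.coeff k) h2
      simp only [Polynomial.coeff_map, eq_intCast] at h3
      have h4 := (ZMod.intCast_eq_intCast_iff_dvd_sub _ _ _).1 h3
      have h5 : f.coeff k - f'.coeff k = -(f'.coeff k - f.coeff k) := by ring
      rw [h5]
      exact (dvd_neg).2 h4)
    refine h1.trans ?_
    have hmax : 400 * max 1 (19 * XX n T / m) ≤ 400 + 7600 * (XX n T / m) := by
      have h2 : 19 * XX n T / m = 19 * (XX n T / m) := by ring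
      rw [h2]
      rcases max_cases 1 (19 * (XX n T / m)) with h | h
      · rw [h.1]; linarith
      · rw [h.1]; linarith
    have hT0 : 0 ≤ T := by linarith
    calc 4 * T * Real.exp (400 * max 1 (19 * XX n T / m))
        ≤ 4 * T * Real.exp (400 + 7600 * (XX n T / m)) := by
          apply mul_le_mul_of_nonneg_left (Real.exp_le_exp.2 hmax)
          linarith
      _ = (4 * Real.exp 400) * T * Real.exp (7600 * (XX n T / m)) := by
          rw [Real.exp_add]; ring
      _ ≤ (4 * Real.exp 400 + 700000) * T *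
            Real.exp ((4 * Real.exp 400 + 700000) * (XX n T / m)) := by
          apply mul_le_mul
          · apply mul_le_mul_of_nonneg_right _ hT0
            linarith
          · apply Real.exp_le_exp.2
            apply mul_le_mul_of_nonneg_right _ hXm
            linarith
          · exact (Real.exp_pos _).le
          · positivity
      _ = _ := rfl

end Pool.Agent.Lib.MP_7ab245_nt.Cnt
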