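import Pool.Agent.Lib.MP_7ab245_nt.Cnt.Defs

/-!
CT-Ident: the commutation identity.

PROOF. Let `P' m = P m` for `m < k` and `0` otherwise, and take the power series (PowerSeries.mk) of `C`, `δ`, `P'`. The
`k`-th coefficients of `C * (δ * P') = δ * (C * P')`: the coefficients of `δ * P'` are `w m` for `m < k` and, at `k`, the left side of
the claim (as `δ 0 = 0`, the value `P k` does not matter); those of `C * P'` are `v m` for `m < k`. So
`C 0 * LHS + ∑_{i=1}^k C i w (k-i) = δ 0 * _ + ∑_{i=1}^k δ i v (k-i)`. (Or by a direct exchange of finite sums.)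
-/

set_option autoImplicit false

open Finset

namespace Pool.Agent.Lib.MP_7ab245_nt.Cnt

private theorem Ident_range (k : ℕ) (f : ℕ → ℂ) :
    ∑ i ∈ range (k + 1), f i = f 0 + ∑ i ∈ Icc 1 k, f i := by
  have e : range (k + 1) = insert 0 (Icc 1 k) := by
    ext i
    simp only [mem_range, mem_insert, mem_Icc]
    omega
  rw [e, sum_insert (by simp)]

private theorem Ident_coeff (A B : ℕ → ℂ) (n : ℕ) :
    PowerSeries.coeff n (PowerSeries.mk A * PowerSeries.mk B) =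
      ∑ i ∈ range (n + 1), A i * B (n - i) := by
  rw [PowerSeries.coeff_mul,
    Finset.Nat.sum_antidiagonal_eq_sum_range_succ
      (fun i j => PowerSeries.coeff i (PowerSeries.mk A) * PowerSeries.coeff j (PowerSeries.mk B)) n]
  simp only [PowerSeries.coeff_mk, Nat.succ_eq_add_one]

theorem ident (k : ℕ) (C δ P v w : ℕ → ℂ) (hC0 : C 0 = 1) (hδ0 : δ 0 = 0)
    (hv : ∀ m < k, ∑ i ∈ range (m + 1), C i * P (m - i) = v m)
    (hw : ∀ m < k, ∑ i ∈ range (m + 1), δ i * P (m - i) = w m) :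
    ∑ i ∈ range (k + 1), δ i * P (k - i) =
      ∑ i ∈ Icc 1 k, δ i * v (k - i) - ∑ i ∈ Icc 1 k, C i * w (k - i) := by
  set P' : ℕ → ℂ := fun m => if m < k then P m else 0 with hP'
  set Wd : ℕ → ℂ := fun n => ∑ i ∈ range (n + 1), δ i * P' (n - i) with hWd
  set Vd : ℕ → ℂ := fun n => ∑ i ∈ range (n + 1), C i * P' (n - i) with hVd
  have hlt : ∀ (A : ℕ → ℂ) (m : ℕ), m < k →
      ∑ i ∈ range (m + 1), A i * P' (m - i) = ∑ i ∈ range (m + 1), A i * P (m - i) := by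
    intro A m hm
    apply sum_congr rfl
    intro i _
    have : m - i < k := by omega
    simp only [hP', if_pos this]
  have hWlt : ∀ m < k, Wd m = w m := fun m hm => (hlt δ m hm).trans (hw m hm)
  have hVlt : ∀ m < k, Vd m = v m := fun m hm => (hlt C m hm).trans (hv m hm)
  have hWk : Wd k = ∑ i ∈ range (k + 1), δ i * P (k - i) := by
    rw [hWd]
    simp only
    rw [Ident_range, Ident_range, hδ0, zero_mul, zero_mul]
    congr 1
    apply sum_congr rfl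
    intro i hi
    rw [mem_Icc] at hi
    have : k - i < k := by omega
    simp only [hP', if_pos this]
  have h1 : PowerSeries.mk δ * PowerSeries.mk P' = PowerSeries.mk Wd := by
    ext n
    rw [Ident_coeff, PowerSeries.coeff_mk]
  have h2 : PowerSeries.mk C * PowerSeries.mk P' = PowerSeries.mk Vd := by
    ext n
    rw [Ident_coeff, PowerSeries.coeff_mk]
  have h3 : PowerSeries.mk C * PowerSeries.mk Wd = PowerSeries.mk δ * PowerSeries.mk Vd := by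
    rw [← h1, ← h2]
    ring
  have h4 := congrArg (PowerSeries.coeff k) h3
  rw [Ident_coeff, Ident_coeff, Ident_range, Ident_range, hC0, hδ0, zero_mul, one_mul, Nat.sub_zero,
    hWk] at h4
  have h5 : ∑ i ∈ Icc 1 k, C i * Wd (k - i) = ∑ i ∈ Icc 1 k, C i * w (k - i) := by
    apply sum_congr rfl
    intro i hi
    rw [mem_Icc] at hi
    rw [hWlt (k - i) (by omega)]
  have h6 : ∑ i ∈ Icc 1 k, δ i * Vd (k - i) = ∑ i ∈ Icc 1 k, δ i * v (k - i) := by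
    apply sum_congr rfl
    intro i hi
    rw [mem_Icc] at hi
    rw [hVlt (k - i) (by omega)]
  rw [h5, h6, zero_add] at h4
  rw [← h4]
  ring

private theorem Ident_cs (k : ℕ) (A B : ℕ → ℂ) :
    ‖∑ i ∈ Icc 1 k, A i * B (k - i)‖ ^ 2 ≤
      (∑ i ∈ range (k + 1), ‖A i‖ ^ 2) * (∑ m ∈ range k, ‖B m‖ ^ 2) := by
  have h1 : ‖∑ i ∈ Icc 1 k, A i * B (k - i)‖ ≤ ∑ i ∈ Icc 1 k, ‖A i‖ * ‖B (k - i)‖ := by
    refine (norm_sum_le _ _).trans (le_of_eq ?_)
    apply sum_congr rfl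
    intro i _
    rw [norm_mul]
  have h2 : (∑ i ∈ Icc 1 k, ‖A i‖ * ‖B (k - i)‖) ^ 2 ≤
      (∑ i ∈ Icc 1 k, ‖A i‖ ^ 2) * (∑ i ∈ Icc 1 k, ‖B (k - i)‖ ^ 2) :=
    Finset.sum_mul_sq_le_sq_mul_sq _ _ _
  have h3 : ∑ i ∈ Icc 1 k, ‖A i‖ ^ 2 ≤ ∑ i ∈ range (k + 1), ‖A i‖ ^ 2 := by
    apply sum_le_sum_of_subset_of_nonneg
    · intro i hi
      rw [mem_Icc] at hi
      rw [mem_range]
      omega
    · intro i _ _
      positivity
  have h4 : ∑ i ∈ Icc 1 k, ‖B (k - i)‖ ^ 2 = ∑ m ∈ range k, ‖B m‖ ^ 2 := by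
    refine Finset.sum_nbij' (fun i => k - i) (fun m => k - m) ?_ ?_ ?_ ?_ ?_
    · intro i hi
      rw [mem_Icc] at hi
      rw [mem_range]
      omega
    · intro m hm
      rw [mem_range] at hm
      rw [mem_Icc]
      omega
    · intro i hi
      rw [mem_Icc] at hi
      omega
    · intro m hm
      rw [mem_range] at hm
      omega
    · intro i _
      rfl
  calc ‖∑ i ∈ Icc 1 k, A i * B (k - i)‖ ^ 2 ≤ (∑ i ∈ Icc 1 k, ‖A i‖ * ‖B (k - i)‖) ^ 2 :=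
        pow_le_pow_left₀ (norm_nonneg _) h1 2
    _ ≤ (∑ i ∈ Icc 1 k, ‖A i‖ ^ 2) * (∑ i ∈ Icc 1 k, ‖B (k - i)‖ ^ 2) := h2
    _ ≤ (∑ i ∈ range (k + 1), ‖A i‖ ^ 2) * (∑ m ∈ range k, ‖B m‖ ^ 2) := by
        rw [h4]
        exact mul_le_mul_of_nonneg_right h3 (sum_nonneg fun _ _ => by positivity)

/-- Cauchy-Schwarz for the right side -/
theorem ident_bound (k : ℕ) (C δ v w : ℕ → ℂ) :
    ‖∑ i ∈ Icc 1 k, δ i * v (k - i) - ∑ i ∈ Icc 1 k, C i * w (k - i)‖ ^ 2 ≤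
      2 * (∑ i ∈ range (k + 1), ‖δ i‖ ^ 2) * (∑ m ∈ range k, ‖v m‖ ^ 2) +
      2 * (∑ i ∈ range (k + 1), ‖C i‖ ^ 2) * (∑ m ∈ range k, ‖w m‖ ^ 2) := by
  have h1 := Ident_cs k δ v
  have h2 := Ident_cs k C w
  set S := ∑ i ∈ Icc 1 k, δ i * v (k - i)
  set T := ∑ i ∈ Icc 1 k, C i * w (k - i)
  have h3 : ‖S - T‖ ≤ ‖S‖ + ‖T‖ := norm_sub_le S T
  have h4 : ‖S - T‖ ^ 2 ≤ (‖S‖ + ‖T‖) ^ 2 := pow_le_pow_left₀ (norm_nonneg _) h3 2
  nlinarith [sq_nonneg (‖S‖ - ‖T‖)]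

end Pool.Agent.Lib.MP_7ab245_nt.Cnt
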