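import Pool.Agent.Lib.MP_7ab245_nt.Cnt.Rec
import Pool.Agent.Lib.MP_7ab245_nt.Cnt.Choose

/-!
CT-Irr: irreducible polynomials with `MM f ≤ 1 + lam`: products of `r ≈ 1/lam` of them.
-/

set_option autoImplicit false

open Finset

namespace Pool.Agent.Lib.MP_7ab245_nt.Cnt

/-- the case of positive leading coefficients -/
private theorem irr_pos (n : ℕ) (lam : ℝ) (hn : 1 ≤ n) (h0 : 0 ≤ lam) (h1 : lam ≤ 1)
    (G : Finset (Polynomial ℤ))
    (hG : ∀ f ∈ G, f.natDegree = n ∧ Irreducible f ∧ MM f ≤ 1 + lam)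
    (hpos : ∀ f ∈ G, 0 < f.leadingCoeff) :
    (G.card : ℝ) ≤
      24 * n * Real.exp (690000 * (√(lam * n * Real.log (2 * n)) + Real.log (2 * n))) := by
  classical
  obtain ⟨r, hr, hrn, hr3, hrl⟩ := choose_r n hn lam h0 h1
  have hr0 : (0 : ℝ) < r := by exact_mod_cast hr
  set P : Finset (Polynomial ℤ) := (powersetCard r G).image (fun S => ∏ f ∈ S, f) with hP
  have hcard : P.card = G.card.choose r := by
    rw [hP, Finset.card_image_of_injOn, Finset.card_powersetCard]
    intro S hS S' hS' h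
    rw [Finset.mem_coe, Finset.mem_powersetCard] at hS hS'
    exact prod_inj G (fun f hf => ⟨(hG f hf).2.1, hpos f hf⟩) S S' hS.1 hS'.1 h
  have hall := all (n * r) 3 (by norm_num) P (by
    intro f hf
    rw [hP, Finset.mem_image] at hf
    obtain ⟨S, hS, rfl⟩ := hf
    rw [Finset.mem_powersetCard] at hS
    have h2 := deg_prod S n (fun f hf => ⟨(hG f (hS.1 hf)).2.1.ne_zero, (hG f (hS.1 hf)).1⟩)
    rw [hS.2] at h2
    refine ⟨h2.1, h2.2, ?_⟩
    have h3 := mm_prod S (1 + lam) (by linarith) (fun f hf => (hG f (hS.1 hf)).2.2)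
    rw [hS.2] at h3
    exact h3.trans hr3)
  set B : ℝ := Real.log 12 + 31000 * XX (n * r) 3 with hB
  have hXX : 0 ≤ XX (n * r) 3 := XX_nonneg _ _
  have hlog12 : 0 ≤ Real.log 12 := Real.log_nonneg (by norm_num)
  have hB0 : 0 ≤ B := by positivity
  have hch : (G.card.choose r : ℝ) ≤ Real.exp B := by
    rw [← hcard]
    refine hall.trans_eq ?_
    rw [hB, Real.exp_add, Real.exp_log (by norm_num)]
    norm_num
  have h2 := choose_root G.card r hr B hB0 hch
  set E : ℝ := √(lam * n * Real.log (2 * n)) + Real.log (2 * n) with hE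
  have h3 : B / r ≤ Real.log 12 + 690000 * E := by
    have h4 := XX_mul hr hrn lam h0 hrl
    rw [hB, add_div]
    have h5 : Real.log 12 / r ≤ Real.log 12 := div_le_self hlog12 (by exact_mod_cast hr)
    have h6 : 31000 * XX (n * r) 3 / r ≤ 690000 * E := h4
    linarith
  have h4 : Real.exp (B / r) ≤ 12 * Real.exp (690000 * E) := by
    calc Real.exp (B / r) ≤ Real.exp (Real.log 12 + 690000 * E) := Real.exp_le_exp.mpr h3
      _ = _ := by rw [Real.exp_add, Real.exp_log (by norm_num)]
  have h5 : (r : ℝ) ≤ n := by exact_mod_cast hrn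
  calc (G.card : ℝ) ≤ 2 * r * Real.exp (B / r) := h2
    _ ≤ 2 * n * (12 * Real.exp (690000 * E)) := by gcongr
    _ = _ := by ring

theorem irr (n : ℕ) (lam : ℝ) (hn : 1 ≤ n) (h0 : 0 ≤ lam) (h1 : lam ≤ 1)
    (F : Finset (Polynomial ℤ))
    (hF : ∀ f ∈ F, f.natDegree = n ∧ Irreducible f ∧ MM f ≤ 1 + lam) :
    (F.card : ℝ) ≤
      Real.exp (700000 * (√(lam * n * Real.log (2 * n)) + Real.log (2 * n))) := by
  classical
  have hn0 : (1 : ℝ) ≤ n := by exact_mod_cast hn
  set H : Finset (Polynomial ℤ) := F ∪ F.image (fun f => -f) with hH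
  have hHF : ∀ f ∈ H, f.natDegree = n ∧ Irreducible f ∧ MM f ≤ 1 + lam := by
    intro f hf
    rw [hH, Finset.mem_union, Finset.mem_image] at hf
    rcases hf with hf | ⟨g, hg, rfl⟩
    · exact hF f hf
    · obtain ⟨h2, h3, h4⟩ := hF g hg
      exact ⟨by rw [Polynomial.natDegree_neg]; exact h2,
        (Associated.neg_left (Associated.refl g)).irreducible_iff.mpr h3, by rw [MM_neg]; exact h4⟩
  set G : Finset (Polynomial ℤ) := H.filter (fun f => 0 < f.leadingCoeff) with hGdef
  have hG := irr_pos n lam hn h0 h1 G (fun f hf => hHF f (Finset.mem_filter.mp hf).1)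
    (fun f hf => (Finset.mem_filter.mp hf).2)
  have hsub : F ⊆ G ∪ G.image (fun f => -f) := by
    intro f hf
    rw [Finset.mem_union]
    have hne : f.leadingCoeff ≠ 0 := Polynomial.leadingCoeff_ne_zero.mpr (hF f hf).2.1.ne_zero
    rcases lt_or_gt_of_ne hne with h | h
    · right
      rw [Finset.mem_image]
      refine ⟨-f, ?_, neg_neg f⟩
      rw [hGdef, Finset.mem_filter]
      refine ⟨?_, by rw [Polynomial.leadingCoeff_neg]; linarith⟩
      rw [hH, Finset.mem_union]
      exact Or.inr (Finset.mem_image_of_mem _ hf)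
    · left
      rw [hGdef, Finset.mem_filter]
      exact ⟨by rw [hH, Finset.mem_union]; exact Or.inl hf, h⟩
  have hcard : (F.card : ℝ) ≤ 2 * G.card := by
    have h2 : F.card ≤ G.card + G.card := by
      calc F.card ≤ (G ∪ G.image (fun f => -f)).card := Finset.card_le_card hsub
        _ ≤ G.card + (G.image (fun f => -f)).card := Finset.card_union_le _ _
        _ ≤ G.card + G.card := Nat.add_le_add_left Finset.card_image_le _
    have : (F.card : ℝ) ≤ G.card + G.card := by exact_mod_cast h2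
    linarith
  set l : ℝ := Real.log (2 * n) with hl
  set s : ℝ := √(lam * n * l) with hs
  have hs0 : 0 ≤ s := Real.sqrt_nonneg _
  have hl2 : Real.log 2 ≤ l := Real.log_le_log (by norm_num) (by linarith)
  have hlog2 := Real.log_two_gt_d9
  have hl0 : 0.69 ≤ l := by linarith
  have h48 : 48 * (n : ℝ) ≤ Real.exp (6 * l) := by
    have h2 : 48 * (n : ℝ) = Real.exp (Real.log 24 + l) := by
      rw [Real.exp_add, Real.exp_log (by norm_num), hl, Real.exp_log (by linarith)]
      ring
    rw [h2]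
    apply Real.exp_le_exp.mpr
    have h3 : Real.log 24 ≤ 5 * Real.log 2 := by
      have h4 : Real.log 24 ≤ Real.log 32 := Real.log_le_log (by norm_num) (by norm_num)
      have h5 : Real.log 32 = 5 * Real.log 2 := by
        rw [show (32 : ℝ) = 2 ^ 5 by norm_num, Real.log_pow]
        norm_num
      linarith
    linarith
  calc (F.card : ℝ) ≤ 2 * G.card := hcard
    _ ≤ 2 * (24 * n * Real.exp (690000 * (s + l))) := by gcongr
    _ = 48 * n * Real.exp (690000 * (s + l)) := by ring
    _ ≤ Real.exp (6 * l) * Real.exp (690000 * (s + l)) := by gcongr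
    _ = Real.exp (6 * l + 690000 * (s + l)) := by rw [Real.exp_add]
    _ ≤ Real.exp (700000 * (s + l)) := by
        apply Real.exp_le_exp.mpr
        nlinarith

end Pool.Agent.Lib.MP_7ab245_nt.Cnt
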