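import Pool.Agent.Lib.MP_7ab245_nt.Cnt.Defs
import Pool.Agent.Lib.MP_7ab245_nt.Len.Psd

/-!
CT-KerSum: partial sums of the energy series.

PROOF. For `‖w i‖ ≤ 1`, `s > 0`: `EE w s 1 1 = ∑_{l ≥ 1} (e^{-s l}/l) ‖∑_i w_i^l‖²` (see hasSum_EE, hasSum_ker in Len/Psd.lean, private
there: copy them), all terms are `≥ 0`, so the partial sums are `≤ EE`. For `l ≤ n` and `s = 1/n`: `e^{-s l} ≥ e^{-1} ≥ 1/3`.
-/

set_option autoImplicit false

open Finset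

namespace Pool.Agent.Lib.MP_7ab245_nt.Cnt

open Pool.Agent.Lib.MP_7ab245_nt.Len

/-- power sums -/
private noncomputable def KerSum_pw {n : ℕ} (w : Fin n → ℂ) (m : ℕ) : ℂ := ∑ i, w i ^ m

private theorem KerSum_hasSum_ker (s : ℝ) (hs : 0 < s) (x y : ℂ) (hx : ‖x‖ ≤ 1) (hy : ‖y‖ ≤ 1) :
    HasSum (fun l : ℕ => Real.exp (-s * l) / l * ((x * starRingEnd ℂ y) ^ l).re)
      (ker s x y) := by
  set z : ℂ := (Real.exp (-s) : ℂ) * (x * starRingEnd ℂ y) with hz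
  have hz1 : ‖z‖ < 1 := by
    rw [hz, norm_mul, norm_mul, Complex.norm_real, RCLike.norm_conj, Real.norm_eq_abs,
      abs_of_pos (Real.exp_pos _)]
    have h1 : ‖x‖ * ‖y‖ ≤ 1 := mul_le_one₀ hx (norm_nonneg _) hy
    have h2 : Real.exp (-s) < 1 := by
      rw [Real.exp_lt_one_iff]
      linarith
    calc Real.exp (-s) * (‖x‖ * ‖y‖) ≤ Real.exp (-s) * 1 :=
          mul_le_mul_of_nonneg_left h1 (Real.exp_pos _).le
      _ < 1 := by linarith
  have h' := Complex.hasSum_re (Complex.hasSum_taylorSeries_neg_log hz1)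
  have e1 : (-Complex.log (1 - z)).re = ker s x y := by
    rw [Complex.neg_re, Complex.log_re, ker]
  rw [e1] at h'
  have e2 : (fun l : ℕ => (z ^ l / (l : ℂ)).re) =
      fun l : ℕ => Real.exp (-s * l) / l * ((x * starRingEnd ℂ y) ^ l).re := by
    funext l
    have e3 : z ^ l / (l : ℂ) =
        ((Real.exp (-s * l) / l : ℝ) : ℂ) * (x * starRingEnd ℂ y) ^ l := by
      rw [hz, mul_pow, mul_comm (-s) (l : ℝ), Real.exp_nat_mul]
      push_cast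
      ring
    rw [e3, Complex.re_ofReal_mul]
  rwa [e2] at h'

/-- the general term -/
private noncomputable def KerSum_tm {n : ℕ} (w : Fin n → ℂ) (s : ℝ) (a b l : ℕ) : ℝ :=
  Real.exp (-s * l) / l * (KerSum_pw w (a * l) * starRingEnd ℂ (KerSum_pw w (b * l))).re

private theorem KerSum_hasSum_EE {n : ℕ} (w : Fin n → ℂ) (hw : ∀ i, ‖w i‖ ≤ 1) (s : ℝ) (hs : 0 < s)
    (a b : ℕ) : HasSum (KerSum_tm w s a b) (EE w s a b) := by
  have hn : ∀ i (m : ℕ), ‖w i ^ m‖ ≤ 1 := fun i m => by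
    rw [norm_pow]
    exact pow_le_one₀ (norm_nonneg _) (hw i)
  have h : HasSum (fun l : ℕ => ∑ i, ∑ j,
      Real.exp (-s * l) / l * ((w i ^ a * starRingEnd ℂ (w j ^ b)) ^ l).re) (EE w s a b) :=
    hasSum_sum fun i _ => hasSum_sum fun j _ => KerSum_hasSum_ker s hs _ _ (hn i a) (hn j b)
  have e : (fun l : ℕ => ∑ i, ∑ j,
      Real.exp (-s * l) / l * ((w i ^ a * starRingEnd ℂ (w j ^ b)) ^ l).re) = KerSum_tm w s a b := by
    funext l
    rw [KerSum_tm, KerSum_pw, KerSum_pw, map_sum, Finset.sum_mul_sum, Complex.re_sum, Finset.mul_sum]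
    refine Finset.sum_congr rfl fun i _ => ?_
    rw [Complex.re_sum, Finset.mul_sum]
    refine Finset.sum_congr rfl fun j _ => ?_
    rw [mul_pow, ← pow_mul, ← map_pow, ← pow_mul]
  rwa [e] at h

theorem sum_le_EE {n : ℕ} (hn : 0 < n) (w : Fin n → ℂ) (hw : ∀ i, ‖w i‖ ≤ 1) :
    ∑ l ∈ Icc 1 n, ‖∑ i, w i ^ l‖ ^ 2 / l ≤ 3 * EE w (1 / n) 1 1 := by
  have hn' : (0 : ℝ) < n := by exact_mod_cast hn
  have hs : (0 : ℝ) < 1 / n := by positivity
  have hsum := KerSum_hasSum_EE w hw (1 / (n : ℝ)) hs 1 1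
  have htm : ∀ l : ℕ, KerSum_tm w (1 / (n : ℝ)) 1 1 l =
      Real.exp (-(1 / (n : ℝ)) * l) / l * ‖∑ i, w i ^ l‖ ^ 2 := by
    intro l
    rw [KerSum_tm, one_mul, Complex.mul_conj, Complex.ofReal_re, Complex.normSq_eq_norm_sq,
      KerSum_pw]
  have hnn : ∀ l : ℕ, 0 ≤ KerSum_tm w (1 / (n : ℝ)) 1 1 l := by
    intro l
    rw [htm]
    exact mul_nonneg (div_nonneg (Real.exp_pos _).le (Nat.cast_nonneg _)) (by positivity)
  have h1 : ∑ l ∈ Icc 1 n, KerSum_tm w (1 / (n : ℝ)) 1 1 l ≤ EE w (1 / n) 1 1 :=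
    sum_le_hasSum _ (fun l _ => hnn l) hsum
  have h2 : ∑ l ∈ Icc 1 n, ‖∑ i, w i ^ l‖ ^ 2 / l ≤
      3 * ∑ l ∈ Icc 1 n, KerSum_tm w (1 / (n : ℝ)) 1 1 l := by
    rw [mul_sum]
    apply sum_le_sum
    intro l hl
    rw [mem_Icc] at hl
    have hl0 : (0 : ℝ) < l := by exact_mod_cast hl.1
    have hln : (l : ℝ) ≤ n := by exact_mod_cast hl.2
    rw [htm]
    have h3 : Real.exp (-1) ≤ Real.exp (-(1 / (n : ℝ)) * l) := by
      apply Real.exp_le_exp.2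
      have : (1 / (n : ℝ)) * l ≤ 1 := by
        rw [one_div, inv_mul_le_iff₀ hn']
        linarith
      linarith
    have h4 : (1 : ℝ) ≤ 3 * Real.exp (-1) := by
      have h5 : Real.exp 1 * Real.exp (-1) = 1 := by
        rw [← Real.exp_add]; simp
      have h6 := Real.exp_one_lt_d9
      have h7 := Real.exp_pos (-1)
      nlinarith
    have h5 : (1 : ℝ) ≤ 3 * Real.exp (-(1 / (n : ℝ)) * l) := by linarith
    have h6 : 0 ≤ ‖∑ i, w i ^ l‖ ^ 2 / (l : ℝ) := by positivity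
    calc ‖∑ i, w i ^ l‖ ^ 2 / (l : ℝ) = 1 * (‖∑ i, w i ^ l‖ ^ 2 / (l : ℝ)) := by ring
      _ ≤ (3 * Real.exp (-(1 / (n : ℝ)) * l)) * (‖∑ i, w i ^ l‖ ^ 2 / (l : ℝ)) :=
          mul_le_mul_of_nonneg_right h5 h6
      _ = 3 * (Real.exp (-(1 / (n : ℝ)) * l) / l * ‖∑ i, w i ^ l‖ ^ 2) := by ring
  exact h2.trans (mul_le_mul_of_nonneg_left h1 (by norm_num))

end Pool.Agent.Lib.MP_7ab245_nt.Cnt
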