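import Pool.Agent.Lib.MP_7ab245_nt.Cnt.AvB
import Pool.Agent.Lib.MP_7ab245_nt.Cnt.Ident

/-!
CT-Pred: the predictor is good.

PROOF. Fix `k ≤ N` and `f`. `c^{(k)}_i := av a k (c i) f`, `δ_i := c^{(k+1)}_i - c^{(k)}_i`; `c^{(k)}_0 = 1`, `δ_0 = 0` (av_const).
For `m < k`: `p j` (`j ≤ m`) is constant on the classes `cls a k` and `cls a (k+1)`, hence (av_sum, av_mul)
`∑_{i≤m} c^{(k)}_i p_{m-i} = av a k (vv c p m) f =: v^{(k)}_m` and `∑_{i≤m} δ_i p_{m-i} = av a (k+1) (vv c p m) f - av a k (vv c p m) f =: w_m`.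
For `m = k`: `p j`, `j ≤ k`, is constant on the classes `cls a (k+1)`, so `∑_{i≤k} c^{(k+1)}_i p_{k-i} = av a (k+1) (vv c p k) f =: ξ_k`.
As `c^{(k+1)}_0 = 1`: `p_k - ph_k = ξ_k - D_k`, `D_k = ∑_{i≤k} δ_i p_{k-i}`.
`ident` and `ident_bound` (C := c^{(k)}, v := v^{(k)}, w):
`‖D_k‖² ≤ 2 (∑_{i≤N}‖δ_i‖²) V² + 2 μ² ∑_{m<k} ‖w_m‖²` (sum_av_sq_le for `∑_{i≤k}‖c^{(k)}_i‖² ≤ μ²` and `∑_{m<k}‖v^{(k)}_m‖² ≤ V²`).
Sum over `f` and `k ≤ N` (k in range (N+1)): `∑_k ∑_f ∑_{i≤N} ‖δ_i‖² ≤ ∑_{i≤N} ∑_f ‖c_i f‖² ≤ μ² |ι|` and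
`∑_k ∑_f ∑_{m<k} ‖w_m‖² ≤ ∑_{m≤N} ∑_k ∑_f ‖av (k+1) - av k‖² ≤ ∑_{m≤N} ∑_f ‖vv c p m f‖² ≤ V² |ι|` (av_incr_sum), and
`∑_k ∑_f ‖ξ_k‖² ≤ V² |ι|` (sum_norm_av_sq_le). Total `≤ 2 V²|ι| + 2 (4 μ² V² |ι|) ≤ 10 μ² V² |ι|`.
-/

set_option autoImplicit false

open Finset

namespace Pool.Agent.Lib.MP_7ab245_nt.Cnt

variable {ι : Type} [Fintype ι] (a : ℕ → ι → ℤ)

theorem ph_congr (c p : ℕ → ι → ℂ) (hp0 : ∀ f, p 0 f = 0)
    (hp : ∀ m k f g, m < k → (∀ j < k, a j f = a j g) → p m f = p m g) {k : ℕ} {f g : ι}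
    (h : ∀ j < k, a j f = a j g) : ph a c p k f = ph a c p k g := by
  unfold ph
  congr 1
  refine Finset.sum_congr rfl fun i hi => ?_
  rw [Finset.mem_Icc] at hi
  rw [av_congr a (c i) h, hp (k - i) k f g (by omega) h]

private theorem pred_vv (c p : ℕ → ι → ℂ)
    (hp : ∀ m k f g, m < k → (∀ j < k, a j f = a j g) → p m f = p m g) {m k : ℕ} (hmk : m < k)
    (f : ι) : ∑ i ∈ range (m + 1), av a k (c i) f * p (m - i) f = av a k (vv c p m) f := by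
  have h1 : vv c p m = fun g => ∑ i ∈ range (m + 1), c i g * p (m - i) g := by
    funext g
    rfl
  rw [h1, av_sum]
  refine Finset.sum_congr rfl fun i hi => ?_
  rw [av_mul a (c i) (p (m - i)) f]
  intro g hg
  exact hp (m - i) k g f (by omega) hg

private theorem pred_pt (c p : ℕ → ι → ℂ) (N : ℕ) (μ V : ℝ)
    (hc0 : ∀ f, c 0 f = 1)
    (hp : ∀ m k f g, m < k → (∀ j < k, a j f = a j g) → p m f = p m g)
    (hc : ∀ f, ∑ j ∈ range (N + 1), ‖c j f‖ ^ 2 ≤ μ ^ 2)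
    (hv : ∀ f, ∑ m ∈ range (N + 1), ‖vv c p m f‖ ^ 2 ≤ V ^ 2) {k : ℕ} (hk : k < N + 1) (f : ι) :
    ‖p k f - ph a c p k f‖ ^ 2 ≤ 2 * ‖av a (k + 1) (vv c p k) f‖ ^ 2 +
      2 * (2 * V ^ 2 * ∑ i ∈ range (N + 1), ‖av a (k + 1) (c i) f - av a k (c i) f‖ ^ 2 +
        2 * μ ^ 2 * ∑ m ∈ range (N + 1), ‖av a (k + 1) (vv c p m) f - av a k (vv c p m) f‖ ^ 2) := by
  obtain ⟨C, hC⟩ : ∃ C : ℕ → ℂ, C = fun i => av a k (c i) f := ⟨_, rfl⟩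
  obtain ⟨δ, hδ⟩ : ∃ δ : ℕ → ℂ, δ = fun i => av a (k + 1) (c i) f - av a k (c i) f := ⟨_, rfl⟩
  obtain ⟨v, hvd⟩ : ∃ v : ℕ → ℂ, v = fun m => av a k (vv c p m) f := ⟨_, rfl⟩
  obtain ⟨w, hw⟩ : ∃ w : ℕ → ℂ, w = fun m => av a (k + 1) (vv c p m) f - av a k (vv c p m) f :=
    ⟨_, rfl⟩
  have hav0 : ∀ l, av a l (c 0) f = 1 := by
    intro l
    rw [av_const a (c 0) f (fun g _ => by rw [hc0, hc0]), hc0]
  have hC0 : C 0 = 1 := by rw [hC]; exact hav0 k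
  have hδ0 : δ 0 = 0 := by
    rw [hδ]
    simp only [hav0]
    ring
  have h1 : ∀ m < k, ∑ i ∈ range (m + 1), C i * p (m - i) f = v m := by
    intro m hm
    rw [hC, hvd]
    exact pred_vv a c p hp hm f
  have h2 : ∀ m < k, ∑ i ∈ range (m + 1), δ i * p (m - i) f = w m := by
    intro m hm
    rw [hδ, hw]
    simp only [sub_mul, Finset.sum_sub_distrib]
    rw [pred_vv a c p hp hm f, pred_vv a c p hp (by omega : m < k + 1) f]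
  have h3 := ident k C δ (fun j => p j f) v w hC0 hδ0 h1 h2
  have h4 : p k f - ph a c p k f = av a (k + 1) (vv c p k) f -
      ∑ i ∈ range (k + 1), δ i * p (k - i) f := by
    have h5 : ∑ i ∈ range (k + 1), C i * p (k - i) f = p k f - ph a c p k f := by
      unfold ph
      rw [Finset.range_eq_Ico, Finset.sum_eq_sum_Ico_succ_bot (by omega), hC0, one_mul,
        Nat.sub_zero, sub_neg_eq_add]
      congr 1
      rw [hC]
      apply Finset.sum_congr _ (fun _ _ => rfl)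
      ext i
      rw [Finset.mem_Ico, Finset.mem_Icc]
      omega
    rw [← h5, ← pred_vv a c p hp (by omega : k < k + 1) f, ← Finset.sum_sub_distrib]
    refine Finset.sum_congr rfl fun i _ => ?_
    rw [hC, hδ]
    ring
  have h6 : ‖p k f - ph a c p k f‖ ^ 2 ≤ 2 * ‖av a (k + 1) (vv c p k) f‖ ^ 2 +
      2 * ‖∑ i ∈ range (k + 1), δ i * p (k - i) f‖ ^ 2 := by
    rw [h4]
    have h7 := norm_sub_le (av a (k + 1) (vv c p k) f) (∑ i ∈ range (k + 1), δ i * p (k - i) f)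
    have h8 := pow_le_pow_left₀ (norm_nonneg _) h7 2
    nlinarith [sq_nonneg (‖av a (k + 1) (vv c p k) f‖ - ‖∑ i ∈ range (k + 1), δ i * p (k - i) f‖)]
  have h9 := ident_bound k C δ v w
  rw [← h3] at h9
  have hCs : ∑ i ∈ range (k + 1), ‖C i‖ ^ 2 ≤ μ ^ 2 := by
    rw [hC]
    refine sum_av_sq_le a (range (k + 1)) c (μ ^ 2) (fun g => ?_) f
    refine le_trans (Finset.sum_le_sum_of_subset_of_nonneg ?_ fun _ _ _ => by positivity) (hc g)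
    exact Finset.range_subset_range.mpr (by omega)
  have hvs : ∑ m ∈ range k, ‖v m‖ ^ 2 ≤ V ^ 2 := by
    rw [hvd]
    refine sum_av_sq_le a (range k) (vv c p) (V ^ 2) (fun g => ?_) f
    refine le_trans (Finset.sum_le_sum_of_subset_of_nonneg ?_ fun _ _ _ => by positivity) (hv g)
    exact Finset.range_subset_range.mpr (by omega)
  have hδs : ∑ i ∈ range (k + 1), ‖δ i‖ ^ 2 ≤
      ∑ i ∈ range (N + 1), ‖av a (k + 1) (c i) f - av a k (c i) f‖ ^ 2 := by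
    rw [hδ]
    exact Finset.sum_le_sum_of_subset_of_nonneg (Finset.range_subset_range.mpr (by omega))
      fun _ _ _ => by positivity
  have hws : ∑ m ∈ range k, ‖w m‖ ^ 2 ≤
      ∑ m ∈ range (N + 1), ‖av a (k + 1) (vv c p m) f - av a k (vv c p m) f‖ ^ 2 := by
    rw [hw]
    exact Finset.sum_le_sum_of_subset_of_nonneg (Finset.range_subset_range.mpr (by omega))
      fun _ _ _ => by positivity
  have hδ1 : 0 ≤ ∑ i ∈ range (k + 1), ‖δ i‖ ^ 2 := Finset.sum_nonneg fun _ _ => by positivity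
  have hw1 : 0 ≤ ∑ m ∈ range k, ‖w m‖ ^ 2 := Finset.sum_nonneg fun _ _ => by positivity
  have h10 : (∑ i ∈ range (k + 1), ‖δ i‖ ^ 2) * (∑ m ∈ range k, ‖v m‖ ^ 2) ≤
      (∑ i ∈ range (N + 1), ‖av a (k + 1) (c i) f - av a k (c i) f‖ ^ 2) * V ^ 2 :=
    mul_le_mul hδs hvs (Finset.sum_nonneg fun _ _ => by positivity) (hδ1.trans hδs)
  have h11 : (∑ i ∈ range (k + 1), ‖C i‖ ^ 2) * (∑ m ∈ range k, ‖w m‖ ^ 2) ≤
      μ ^ 2 * ∑ m ∈ range (N + 1), ‖av a (k + 1) (vv c p m) f - av a k (vv c p m) f‖ ^ 2 :=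
    mul_le_mul hCs hws hw1 (sq_nonneg μ)
  nlinarith

theorem pred_main (c p : ℕ → ι → ℂ) (N : ℕ) (μ V : ℝ) (hμ : 1 ≤ μ)
    (hc0 : ∀ f, c 0 f = 1) (hp0 : ∀ f, p 0 f = 0)
    (hp : ∀ m k f g, m < k → (∀ j < k, a j f = a j g) → p m f = p m g)
    (hc : ∀ f, ∑ j ∈ range (N + 1), ‖c j f‖ ^ 2 ≤ μ ^ 2)
    (hv : ∀ f, ∑ m ∈ range (N + 1), ‖vv c p m f‖ ^ 2 ≤ V ^ 2) :
    ∑ k ∈ range (N + 1), ∑ f, ‖p k f - ph a c p k f‖ ^ 2 ≤
      10 * μ ^ 2 * V ^ 2 * Fintype.card ι := by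
  obtain ⟨n, hn⟩ : ∃ n : ℝ, n = Fintype.card ι := ⟨_, rfl⟩
  have hn0 : 0 ≤ n := by rw [hn]; positivity
  rw [← hn]
  have hcard : ∀ B : ℝ, ∑ _f : ι, B = B * n := by
    intro B
    rw [Finset.sum_const, nsmul_eq_mul, hn, Finset.card_univ]
    ring
  -- the three sums
  have hA : ∑ k ∈ range (N + 1), ∑ f, ‖av a (k + 1) (vv c p k) f‖ ^ 2 ≤ V ^ 2 * n := by
    calc ∑ k ∈ range (N + 1), ∑ f, ‖av a (k + 1) (vv c p k) f‖ ^ 2
        ≤ ∑ k ∈ range (N + 1), ∑ f, ‖vv c p k f‖ ^ 2 :=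
          Finset.sum_le_sum fun k _ => sum_norm_av_sq_le a (k + 1) (vv c p k)
      _ = ∑ f, ∑ k ∈ range (N + 1), ‖vv c p k f‖ ^ 2 := Finset.sum_comm
      _ ≤ ∑ _f : ι, V ^ 2 := Finset.sum_le_sum fun f _ => hv f
      _ = V ^ 2 * n := hcard _
  have hB : ∑ k ∈ range (N + 1), ∑ f, ∑ i ∈ range (N + 1),
      ‖av a (k + 1) (c i) f - av a k (c i) f‖ ^ 2 ≤ μ ^ 2 * n := by
    calc ∑ k ∈ range (N + 1), ∑ f, ∑ i ∈ range (N + 1), ‖av a (k + 1) (c i) f - av a k (c i) f‖ ^ 2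
        = ∑ k ∈ range (N + 1), ∑ i ∈ range (N + 1), ∑ f,
            ‖av a (k + 1) (c i) f - av a k (c i) f‖ ^ 2 :=
          Finset.sum_congr rfl fun k _ => Finset.sum_comm
      _ = ∑ i ∈ range (N + 1), ∑ k ∈ range (N + 1), ∑ f,
            ‖av a (k + 1) (c i) f - av a k (c i) f‖ ^ 2 := Finset.sum_comm
      _ ≤ ∑ i ∈ range (N + 1), ∑ f, ‖c i f‖ ^ 2 :=
          Finset.sum_le_sum fun i _ => av_incr_sum a (N + 1) (c i)
      _ = ∑ f, ∑ i ∈ range (N + 1), ‖c i f‖ ^ 2 := Finset.sum_comm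
      _ ≤ ∑ _f : ι, μ ^ 2 := Finset.sum_le_sum fun f _ => hc f
      _ = μ ^ 2 * n := hcard _
  have hD : ∑ k ∈ range (N + 1), ∑ f, ∑ m ∈ range (N + 1),
      ‖av a (k + 1) (vv c p m) f - av a k (vv c p m) f‖ ^ 2 ≤ V ^ 2 * n := by
    calc ∑ k ∈ range (N + 1), ∑ f, ∑ m ∈ range (N + 1),
          ‖av a (k + 1) (vv c p m) f - av a k (vv c p m) f‖ ^ 2
        = ∑ k ∈ range (N + 1), ∑ m ∈ range (N + 1), ∑ f,
            ‖av a (k + 1) (vv c p m) f - av a k (vv c p m) f‖ ^ 2 :=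
          Finset.sum_congr rfl fun k _ => Finset.sum_comm
      _ = ∑ m ∈ range (N + 1), ∑ k ∈ range (N + 1), ∑ f,
            ‖av a (k + 1) (vv c p m) f - av a k (vv c p m) f‖ ^ 2 := Finset.sum_comm
      _ ≤ ∑ m ∈ range (N + 1), ∑ f, ‖vv c p m f‖ ^ 2 :=
          Finset.sum_le_sum fun m _ => av_incr_sum a (N + 1) (vv c p m)
      _ = ∑ f, ∑ m ∈ range (N + 1), ‖vv c p m f‖ ^ 2 := Finset.sum_comm
      _ ≤ ∑ _f : ι, V ^ 2 := Finset.sum_le_sum fun f _ => hv f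
      _ = V ^ 2 * n := hcard _
  have hV0 : 0 ≤ V ^ 2 := sq_nonneg V
  have hμ1 : 1 ≤ μ ^ 2 := one_le_pow₀ hμ
  calc ∑ k ∈ range (N + 1), ∑ f, ‖p k f - ph a c p k f‖ ^ 2
      ≤ ∑ k ∈ range (N + 1), ∑ f, (2 * ‖av a (k + 1) (vv c p k) f‖ ^ 2 +
        2 * (2 * V ^ 2 * ∑ i ∈ range (N + 1), ‖av a (k + 1) (c i) f - av a k (c i) f‖ ^ 2 +
        2 * μ ^ 2 * ∑ m ∈ range (N + 1),
          ‖av a (k + 1) (vv c p m) f - av a k (vv c p m) f‖ ^ 2)) :=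
        Finset.sum_le_sum fun k hk => Finset.sum_le_sum fun f _ =>
          pred_pt a c p N μ V hc0 hp hc hv (Finset.mem_range.mp hk) f
    _ = 2 * (∑ k ∈ range (N + 1), ∑ f, ‖av a (k + 1) (vv c p k) f‖ ^ 2) +
        2 * (2 * V ^ 2 * (∑ k ∈ range (N + 1), ∑ f, ∑ i ∈ range (N + 1),
          ‖av a (k + 1) (c i) f - av a k (c i) f‖ ^ 2) +
        2 * μ ^ 2 * (∑ k ∈ range (N + 1), ∑ f, ∑ m ∈ range (N + 1),
          ‖av a (k + 1) (vv c p m) f - av a k (vv c p m) f‖ ^ 2)) := by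
        simp only [Finset.sum_add_distrib, ← Finset.mul_sum]
    _ ≤ 2 * (V ^ 2 * n) + 2 * (2 * V ^ 2 * (μ ^ 2 * n) + 2 * μ ^ 2 * (V ^ 2 * n)) := by gcongr
    _ ≤ 10 * μ ^ 2 * V ^ 2 * n := by
        have h1 : 0 ≤ V ^ 2 * n := by positivity
        nlinarith [mul_le_mul_of_nonneg_right hμ1 h1]

end Pool.Agent.Lib.MP_7ab245_nt.Cnt
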