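import Pool.Agent.Lib.MP_7ab245_nt.Cnt.Sf
import Pool.Agent.Lib.MP_7ab245_nt.Cnt.Split

/-!
CT-Rec: all polynomials, by induction on the degree.

PROOF. Claim: `|F| ≤ 4T exp(D · XX n T)` for all `n`, with `D = 31000`. Strong induction on `n`. `n = 0`: `sf`-like: nonzero constants `c`, `|c| = MM f ≤ T`, at most `2T` values (`XX 0 T = 0`;
a constant need not be squarefree, so count directly). `n ≥ 1`: choose for `f ∈ F` `f = s h²` (split); `deg h = j ≤ n/2`, `deg s = n - 2j`, `MM s ≤ MM f ≤ T`, `MM h ≤ MM f ≤ T`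
(MM_mul, one_le_MM). The map `f ↦ (s, h)` is injective. For each `j ≤ n/2` at most `4T exp(7600 X) · 4T exp(D XX j T)` pairs, `X := XX n T`: the image of `s` is a finite set, `sf` with
`m := 1` (hmod trivial) gives `4T exp(400 max 1 (19 XX (n-2j) T)) ≤ 4T exp(400 max 1 (19 X)) = 4T exp(7600 X)` as `19 X ≥ 1` (XX_ge, XX_mono); the induction hypothesis bounds the image of
`h`. `XX j T ≤ (3/4) X` (XX_half). Number of `j`: `≤ n/2 + 1 ≤ 2n`. So `|F| ≤ 2n · 16 T² exp(7600 X + (3/4) D X)`, which is `≤ 4T exp(DX)` iff `8 n T ≤ exp((D/4 - 7600) X) = exp(150 X)`: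
`log_le_XX`: `log(8nT) ≤ 5 X`.
-/

set_option autoImplicit false

open Finset

namespace Pool.Agent.Lib.MP_7ab245_nt.Cnt

private theorem rec_const (T : ℝ) (hT : 1 ≤ T) (F : Finset (Polynomial ℤ))
    (hF : ∀ f ∈ F, f ≠ 0 ∧ f.natDegree = 0 ∧ MM f ≤ T) :
    (F.card : ℝ) ≤ 4 * T := by
  classical
  have hsub : F ⊆ (Finset.Icc (-⌊T⌋) ⌊T⌋).image (fun c : ℤ => Polynomial.C c) := by
    intro f hf
    obtain ⟨h0, hd, hM⟩ := hF f hf
    rw [Finset.mem_image]
    refine ⟨f.coeff 0, ?_, (Polynomial.eq_C_of_natDegree_eq_zero hd).symm⟩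
    have h1 : f = Polynomial.C (f.coeff 0) := Polynomial.eq_C_of_natDegree_eq_zero hd
    have h2 : MM f = |((f.coeff 0 : ℤ) : ℝ)| := by
      unfold MM cx
      rw [h1, Polynomial.map_C, Polynomial.mahlerMeasure_const]
      simp
    rw [h2] at hM
    have h3 := abs_le.1 hM
    rw [Finset.mem_Icc]
    constructor
    · rw [neg_le]
      rw [Int.le_floor]
      push_cast
      linarith [h3.1]
    · rw [Int.le_floor]
      exact h3.2
  have hcard := Finset.card_le_card hsub
  have h4 : ((Finset.Icc (-⌊T⌋) ⌊T⌋).image (fun c : ℤ => Polynomial.C c)).card ≤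
      (Finset.Icc (-⌊T⌋) ⌊T⌋).card := Finset.card_image_le
  have hfl : (1 : ℤ) ≤ ⌊T⌋ := by
    rw [Int.le_floor]
    exact_mod_cast hT
  have h5 : ((Finset.Icc (-⌊T⌋) ⌊T⌋).card : ℤ) = 2 * ⌊T⌋ + 1 := by
    rw [Int.card_Icc]
    rw [Int.toNat_of_nonneg (by omega)]
    ring
  have h6 : (F.card : ℤ) ≤ 2 * ⌊T⌋ + 1 := by
    rw [← h5]
    exact_mod_cast hcard.trans h4
  have h7 : (F.card : ℝ) ≤ 2 * (⌊T⌋ : ℝ) + 1 := by exact_mod_cast h6
  have h8 : (⌊T⌋ : ℝ) ≤ T := Int.floor_le T
  linarith

theorem all (n : ℕ) (T : ℝ) (hT : 1 ≤ T) (F : Finset (Polynomial ℤ))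
    (hF : ∀ f ∈ F, f ≠ 0 ∧ f.natDegree = n ∧ MM f ≤ T) :
    (F.card : ℝ) ≤ 4 * T * Real.exp (31000 * XX n T) := by
  classical
  induction n using Nat.strong_induction_on generalizing F with
  | _ n ih =>
  have hT0 : (0 : ℝ) < T := by linarith
  rcases Nat.eq_zero_or_pos n with rfl | hn
  · have h1 := rec_const T hT F hF
    have h2 : 1 ≤ Real.exp (31000 * XX 0 T) := by
      rw [← Real.exp_zero]
      exact Real.exp_le_exp.2 (by have := XX_nonneg 0 T; positivity)
    nlinarith
  · -- choose the decomposition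
    have hsp : ∀ f : Polynomial ℤ, ∃ p : Polynomial ℤ × Polynomial ℤ,
        f ≠ 0 → f = p.1 * p.2 ^ 2 ∧ Squarefree p.1 := by
      intro f
      by_cases hf : f = 0
      · exact ⟨(0, 0), fun h => absurd hf h⟩
      · obtain ⟨s, h, h1, h2⟩ := split f hf
        exact ⟨(s, h), fun _ => ⟨h1, h2⟩⟩
    choose P hP using hsp
    set X := XX n T with hX
    have hX0 : 0 ≤ X := XX_nonneg n T
    have hX1 : (4 / 5 : ℝ) ≤ X := by
      have h1 := XX_ge hn T hT
      nlinarith
    -- facts for f in F
    have facts : ∀ f ∈ F, f = (P f).1 * (P f).2 ^ 2 ∧ Squarefree (P f).1 ∧ (P f).1 ≠ 0 ∧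
        (P f).2 ≠ 0 ∧ (P f).1.natDegree + 2 * (P f).2.natDegree = n ∧ MM (P f).1 ≤ T ∧
        MM (P f).2 ≤ T := by
      intro f hf
      obtain ⟨h0, hd, hM⟩ := hF f hf
      obtain ⟨h1, h2⟩ := hP f h0
      have hs0 : (P f).1 ≠ 0 := by
        intro h
        apply h0
        rw [h1, h, zero_mul]
      have hh0 : (P f).2 ≠ 0 := by
        intro h
        apply h0
        rw [h1, h]
        simp
      have hdeg : (P f).1.natDegree + 2 * (P f).2.natDegree = n := by
        rw [← hd]
        conv_rhs => rw [h1]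
        rw [Polynomial.natDegree_mul hs0 (pow_ne_zero 2 hh0), Polynomial.natDegree_pow]
      have hMf : MM f = MM (P f).1 * (MM (P f).2 * MM (P f).2) := by
        conv_lhs => rw [h1]
        rw [MM_mul, sq, MM_mul]
      have ha := one_le_MM _ hs0
      have hb := one_le_MM _ hh0
      refine ⟨h1, h2, hs0, hh0, hdeg, ?_, ?_⟩
      · have : MM (P f).1 ≤ MM (P f).1 * (MM (P f).2 * MM (P f).2) := by
          have : 1 ≤ MM (P f).2 * MM (P f).2 := by nlinarith
          nlinarith
        linarith
      · have : MM (P f).2 ≤ MM (P f).1 * (MM (P f).2 * MM (P f).2) := by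
          have h3 : MM (P f).2 ≤ MM (P f).2 * MM (P f).2 := by nlinarith
          have h4 : MM (P f).2 * MM (P f).2 ≤ MM (P f).1 * (MM (P f).2 * MM (P f).2) := by
            nlinarith
          linarith
        linarith
    -- the bound for a given degree of `h`
    have key : ∀ j ∈ Finset.range (n / 2 + 1),
        (((F.filter fun f => (P f).2.natDegree = j).card : ℕ) : ℝ) ≤
          16 * T ^ 2 * Real.exp (30850 * X) := by
      intro j hj
      rw [Finset.mem_range] at hj
      set Fj := F.filter fun f => (P f).2.natDegree = j with hFj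
      have hFjF : ∀ f ∈ Fj, f ∈ F := fun f hf => (Finset.mem_filter.1 hf).1
      have hinj : Fj.card ≤ ((Fj.image fun f => (P f).1) ×ˢ (Fj.image fun f => (P f).2)).card := by
        apply Finset.card_le_card_of_injOn (fun f => P f)
        · intro f hf
          rw [Finset.mem_coe] at hf
          simp only [Finset.coe_product, Set.mem_prod, Finset.mem_coe, Finset.mem_image]
          exact ⟨⟨f, hf, rfl⟩, ⟨f, hf, rfl⟩⟩
        · intro f hf g hg hfg
          rw [Finset.mem_coe] at hf hg
          have h1 := (facts f (hFjF f hf)).1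
          have h2 := (facts g (hFjF g hg)).1
          simp only at hfg
          rw [h1, h2, hfg]
      rw [Finset.card_product] at hinj
      have hA : (((Fj.image fun f => (P f).1).card : ℕ) : ℝ) ≤ 4 * T * Real.exp (7600 * X) := by
        have h1 := sf (n - 2 * j) 1 T le_rfl hT (Fj.image fun f => (P f).1) (by
          intro s hs
          obtain ⟨f, hf, rfl⟩ := Finset.mem_image.1 hs
          obtain ⟨-, h2, -, -, h5, h6, -⟩ := facts f (hFjF f hf)
          have hjf : (P f).2.natDegree = j := (Finset.mem_filter.1 hf).2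
          refine ⟨?_, h2, h6⟩
          rw [hjf] at h5
          omega) (by
          intro f _ g _ k
          simp)
        refine h1.trans ?_
        have h2 : 400 * max 1 (19 * XX (n - 2 * j) T / ((1 : ℕ) : ℝ)) ≤ 7600 * X := by
          have h3 : max 1 (19 * XX (n - 2 * j) T / ((1 : ℕ) : ℝ)) ≤ 19 * X := by
            apply max_le
            · linarith
            · have := XX_mono (Nat.sub_le n (2 * j)) T hT
              simp only [Nat.cast_one, div_one]
              linarith
          linarith
        exact mul_le_mul_of_nonneg_left (Real.exp_le_exp.2 h2) (by positivity)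
      have hB : (((Fj.image fun f => (P f).2).card : ℕ) : ℝ) ≤
          4 * T * Real.exp (23250 * X) := by
        have h1 := ih j (by omega) (Fj.image fun f => (P f).2) (by
          intro s hs
          obtain ⟨f, hf, rfl⟩ := Finset.mem_image.1 hs
          obtain ⟨-, -, -, h4, -, -, h7⟩ := facts f (hFjF f hf)
          exact ⟨h4, (Finset.mem_filter.1 hf).2, h7⟩)
        refine h1.trans ?_
        have h2 : 31000 * XX j T ≤ 23250 * X := by
          have := XX_half (j := j) (n := n) (by omega) T hT
          linarith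
        exact mul_le_mul_of_nonneg_left (Real.exp_le_exp.2 h2) (by positivity)
      have h3 : ((Fj.card : ℕ) : ℝ) ≤ (((Fj.image fun f => (P f).1).card : ℕ) : ℝ) *
          (((Fj.image fun f => (P f).2).card : ℕ) : ℝ) := by exact_mod_cast hinj
      refine h3.trans ?_
      refine (mul_le_mul hA hB (by positivity) (by positivity)).trans (le_of_eq ?_)
      have h4 : Real.exp (30850 * X) = Real.exp (7600 * X) * Real.exp (23250 * X) := by
        rw [← Real.exp_add]
        congr 1
        ring
      rw [h4]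
      ring
    -- sum over j
    have hsum : (F.card : ℝ) ≤ ((n / 2 + 1 : ℕ) : ℝ) * (16 * T ^ 2 * Real.exp (30850 * X)) := by
      have h1 : F.card = ∑ j ∈ Finset.range (n / 2 + 1),
          (F.filter fun f => (P f).2.natDegree = j).card := by
        apply Finset.card_eq_sum_card_fiberwise
        intro f hf
        rw [Finset.mem_coe] at hf
        obtain ⟨-, -, -, -, h5, -, -⟩ := facts f hf
        simp only [Finset.coe_range, Set.mem_Iio]
        omega
      rw [h1]
      push_cast
      refine (Finset.sum_le_sum key).trans ?_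
      rw [Finset.sum_const, Finset.card_range, nsmul_eq_mul]
      push_cast
      exact le_rfl
    refine hsum.trans ?_
    have hn1 : (1 : ℝ) ≤ n := by exact_mod_cast hn
    have hnum : ((n / 2 + 1 : ℕ) : ℝ) ≤ 2 * n := by
      have : n / 2 + 1 ≤ 2 * n := by omega
      exact_mod_cast this
    have hlog : 8 * (n : ℝ) * T ≤ Real.exp (150 * X) := by
      have h1 := log_le_XX hn T hT
      have hpos : (0 : ℝ) < 8 * n * T := by positivity
      rw [← Real.log_le_iff_le_exp hpos]
      linarith
    have hE : Real.exp (31000 * X) = Real.exp (150 * X) * Real.exp (30850 * X) := by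
      rw [← Real.exp_add]
      congr 1
      ring
    rw [hE]
    have hEpos : 0 < Real.exp (30850 * X) := Real.exp_pos _
    calc ((n / 2 + 1 : ℕ) : ℝ) * (16 * T ^ 2 * Real.exp (30850 * X))
        ≤ (2 * n) * (16 * T ^ 2 * Real.exp (30850 * X)) :=
          mul_le_mul_of_nonneg_right hnum (by positivity)
      _ = (4 * T * Real.exp (30850 * X)) * (8 * n * T) := by ring
      _ ≤ (4 * T * Real.exp (30850 * X)) * Real.exp (150 * X) :=
          mul_le_mul_of_nonneg_left hlog (by positivity)
      _ = 4 * T * (Real.exp (150 * X) * Real.exp (30850 * X)) := by ring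

end Pool.Agent.Lib.MP_7ab245_nt.Cnt
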