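import Pool.Agent.Lib.MP_7ab245_nt.Cnt.Defs

/-!
CT-Xl: elementary bounds for `XX n T = T² √(n log(2nT))`.

PROOF. `XX_mono`: `n log(2nT)` is `0` for `n = 0`, `≥ 0` and nondecreasing (`2nT ≥ 2` for `n ≥ 1`). `XX_ge`: `log 2 ≥ 0.69`, `√0.69 ≥ 0.8` (`0.64 ≤ 0.69`).
`XX_half`: `j log(2jT) ≤ (n/2) log(2nT)` and `√(1/2) ≤ 3/4`. `log_le_XX`: `log (8nT) = log 4 + L`, `L = log(2nT) = √L √L`, `√L ≤ √(2nT) ≤ 2 √n T²` (`log x ≤ x`), so
`L ≤ 2 √(nL) T² = 2 XX`; `log 4 ≤ 1.4 ≤ 2 XX`. `XX_mul`: with `l = log (2n) ≥ 0.69`, `log(6nr) ≤ log(6n²) ≤ 3 l` (`6 n² ≤ (2n)³`), so `XX (n r) 3 = 9 √(nr log(6nr)) ≤ 9 √(3 n r l)`,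
`31000·9 √(3 n r l)/r = 279000 √(3 n l (1/r)) ≤ 279000·1.7321 (√(2 lam n l) + √l) ≤ 683600 (√(lam n l) + l)` (`√(x+y) ≤ √x + √y`, `√2 ≤ 1.415`, `√l ≤ 1.21 l` as `l ≥ 0.69`;
`279000·1.7321·1.415 = 683,8..`: use `690000`, there is room).
-/

set_option autoImplicit false

open Finset

namespace Pool.Agent.Lib.MP_7ab245_nt.Cnt

private lemma two_le {n : ℕ} (hn : 1 ≤ n) (T : ℝ) (hT : 1 ≤ T) : (2 : ℝ) ≤ 2 * n * T := by
  have h1 : (1 : ℝ) ≤ n := by exact_mod_cast hn
  nlinarith [mul_le_mul h1 hT (by norm_num) (by linarith)]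

private lemma log_lower {n : ℕ} (hn : 1 ≤ n) (T : ℝ) (hT : 1 ≤ T) :
    (0.69 : ℝ) ≤ Real.log (2 * n * T) := by
  have h := Real.log_two_gt_d9
  have h2 := Real.log_le_log (by norm_num) (two_le hn T hT)
  linarith

private lemma prod_mono {m n : ℕ} (h : m ≤ n) (T : ℝ) (hT : 1 ≤ T) :
    (m : ℝ) * Real.log (2 * m * T) ≤ n * Real.log (2 * n * T) := by
  rcases Nat.eq_zero_or_pos n with hn | hn
  · have hm : m = 0 := by omega
    subst hm
    subst hn
    exact le_refl _
  rcases Nat.eq_zero_or_pos m with hm | hm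
  · subst hm
    have := log_lower (show 1 ≤ n from hn) T hT
    have hn' : (0 : ℝ) ≤ n := Nat.cast_nonneg _
    simp only [Nat.cast_zero, zero_mul]
    exact mul_nonneg hn' (by linarith)
  · have hmn : (m : ℝ) ≤ n := by exact_mod_cast h
    have h1 := log_lower (show 1 ≤ m from hm) T hT
    have h2 : Real.log (2 * m * T) ≤ Real.log (2 * n * T) := by
      apply Real.log_le_log
      · linarith [two_le (show 1 ≤ m from hm) T hT]
      · have : (0 : ℝ) ≤ T := by linarith
        nlinarith [mul_le_mul_of_nonneg_right hmn this]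
    exact mul_le_mul hmn h2 (by linarith) (Nat.cast_nonneg _)

theorem XX_mono {m n : ℕ} (h : m ≤ n) (T : ℝ) (hT : 1 ≤ T) : XX m T ≤ XX n T := by
  unfold XX
  exact mul_le_mul_of_nonneg_left (Real.sqrt_le_sqrt (prod_mono h T hT)) (sq_nonneg T)

theorem XX_nonneg (n : ℕ) (T : ℝ) : 0 ≤ XX n T := by
  unfold XX
  positivity

theorem XX_ge {n : ℕ} (hn : 1 ≤ n) (T : ℝ) (hT : 1 ≤ T) : (4 / 5) * T ^ 2 ≤ XX n T := by
  unfold XX
  have h1 : (1 : ℝ) ≤ n := by exact_mod_cast hn
  have h2 := log_lower hn T hT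
  have h3 : (4 / 5 : ℝ) ≤ √(n * Real.log (2 * n * T)) := by
    apply Real.le_sqrt_of_sq_le
    nlinarith
  nlinarith [sq_nonneg T]

theorem XX_half {j n : ℕ} (h : 2 * j ≤ n) (T : ℝ) (hT : 1 ≤ T) : XX j T ≤ (3 / 4) * XX n T := by
  unfold XX
  have hkey : (j : ℝ) * Real.log (2 * j * T) ≤ (1 / 2) * (n * Real.log (2 * n * T)) := by
    rcases Nat.eq_zero_or_pos j with hj | hj
    · subst hj
      rcases Nat.eq_zero_or_pos n with hn | hn
      · subst hn
        simp
      · have := log_lower (show 1 ≤ n from hn) T hT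
        have hn' : (0 : ℝ) ≤ n := Nat.cast_nonneg _
        simp only [Nat.cast_zero, zero_mul]
        have : 0 ≤ (n : ℝ) * Real.log (2 * n * T) := mul_nonneg hn' (by linarith)
        linarith
    · have hn : 1 ≤ n := by omega
      have hjn : (j : ℝ) ≤ n := by exact_mod_cast (by omega : j ≤ n)
      have h2j : 2 * (j : ℝ) ≤ n := by exact_mod_cast h
      have h1 := log_lower (show 1 ≤ j from hj) T hT
      have h2 : Real.log (2 * j * T) ≤ Real.log (2 * n * T) := by
        apply Real.log_le_log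
        · linarith [two_le (show 1 ≤ j from hj) T hT]
        · have : (0 : ℝ) ≤ T := by linarith
          nlinarith [mul_le_mul_of_nonneg_right hjn this]
      have h3 : 2 * (j : ℝ) * Real.log (2 * j * T) ≤ n * Real.log (2 * n * T) :=
        mul_le_mul h2j h2 (by linarith) (Nat.cast_nonneg _)
      linarith
  have h1 : √((j : ℝ) * Real.log (2 * j * T)) ≤ (3 / 4) * √(n * Real.log (2 * n * T)) := by
    have h0 : (0 : ℝ) ≤ n * Real.log (2 * n * T) := by
      rcases Nat.eq_zero_or_pos n with hn | hn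
      · subst hn; simp
      · have := log_lower (show 1 ≤ n from hn) T hT
        exact mul_nonneg (Nat.cast_nonneg _) (by linarith)
    apply Real.sqrt_le_iff.mpr
    constructor
    · positivity
    · rw [mul_pow, Real.sq_sqrt h0]
      linarith
  have h2 := mul_le_mul_of_nonneg_left h1 (sq_nonneg T)
  linarith

theorem log_le_XX {n : ℕ} (hn : 1 ≤ n) (T : ℝ) (hT : 1 ≤ T) :
    Real.log (8 * n * T) ≤ 5 * XX n T := by
  have hX := XX_ge hn T hT
  have h1 : (1 : ℝ) ≤ n := by exact_mod_cast hn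
  have h2 := log_lower hn T hT
  have hT2 : (1 : ℝ) ≤ T ^ 2 := by nlinarith
  have hpos := two_le hn T hT
  have hlog : Real.log (8 * n * T) = Real.log 4 + Real.log (2 * n * T) := by
    rw [← Real.log_mul (by norm_num) (by linarith)]
    congr 1
    ring
  have h4 : Real.log 4 ≤ 1.4 := by
    have : Real.log 4 = 2 * Real.log 2 := by
      rw [show (4 : ℝ) = 2 ^ 2 by norm_num, Real.log_pow]
      norm_num
    have := Real.log_two_lt_d9
    linarith
  have hL : Real.log (2 * n * T) ≤ 2 * XX n T := by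
    unfold XX
    set L := Real.log (2 * n * T) with hLdef
    have hL0 : 0 ≤ L := by linarith
    have hLle : L ≤ 2 * n * T := by
      have := Real.log_le_sub_one_of_pos (show (0 : ℝ) < 2 * n * T by linarith)
      linarith
    rw [Real.sqrt_mul (by linarith)]
    have hs : √L * √L = L := Real.mul_self_sqrt hL0
    have hsn : √(n : ℝ) * √(n : ℝ) = n := Real.mul_self_sqrt (by linarith)
    have hLs : √L ≤ 2 * √(n : ℝ) * T ^ 2 := by
      apply Real.sqrt_le_iff.mpr
      constructor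
      · positivity
      · have : (2 * √(n : ℝ) * T ^ 2) ^ 2 = 4 * n * T ^ 4 := by
          calc (2 * √(n : ℝ) * T ^ 2) ^ 2 = 4 * (√(n : ℝ) * √(n : ℝ)) * T ^ 4 := by ring
            _ = 4 * n * T ^ 4 := by rw [hsn]
        rw [this]
        have hT4 : T ≤ T ^ 4 := by
          have : T * 1 ≤ T * T ^ 3 := by
            apply mul_le_mul_of_nonneg_left _ (by linarith)
            exact one_le_pow₀ hT
          nlinarith
        nlinarith [mul_le_mul_of_nonneg_left hT4 (show (0 : ℝ) ≤ n by linarith)]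
    calc L = √L * √L := hs.symm
      _ ≤ (2 * √(n : ℝ) * T ^ 2) * √L := mul_le_mul_of_nonneg_right hLs (Real.sqrt_nonneg _)
      _ = 2 * (T ^ 2 * (√(n : ℝ) * √L)) := by ring
  rw [hlog]
  nlinarith

theorem XX_mul {n r : ℕ} (hr : 1 ≤ r) (hrn : r ≤ n) (lam : ℝ) (h0 : 0 ≤ lam)
    (h : 1 / (r : ℝ) ≤ 2 * lam + 1 / n) :
    31000 * XX (n * r) 3 / r ≤
      690000 * (√(lam * n * Real.log (2 * n)) + Real.log (2 * n)) := by
  have hn : 1 ≤ n := le_trans hr hrn
  have hn1 : (1 : ℝ) ≤ n := by exact_mod_cast hn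
  have hr1 : (1 : ℝ) ≤ r := by exact_mod_cast hr
  have hrn' : (r : ℝ) ≤ n := by exact_mod_cast hrn
  set l := Real.log (2 * n) with hl
  have hl0 : (0.69 : ℝ) ≤ l := by
    have := log_lower hn 1 (le_refl _)
    rw [mul_one] at this
    exact this
  -- the logarithm
  have hlog : Real.log (2 * ((n * r : ℕ) : ℝ) * 3) ≤ 3 * l := by
    have : 3 * l = Real.log ((2 * n) ^ 3) := by
      rw [Real.log_pow]
      norm_num
      rfl
    rw [this]
    apply Real.log_le_log
    · push_cast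
      positivity
    · push_cast
      have h1 : (n : ℝ) * r ≤ n * n := mul_le_mul_of_nonneg_left hrn' (by linarith)
      have h2 : (n : ℝ) * n ≤ n * n * n := by nlinarith [mul_nonneg (show (0:ℝ) ≤ n by linarith) (show (0:ℝ) ≤ n by linarith)]
      nlinarith
  have hXX : XX (n * r) 3 ≤ 9 * √(3 * l * (n * r)) := by
    unfold XX
    have h9 : ((3 : ℝ)) ^ 2 = 9 := by norm_num
    rw [h9]
    apply mul_le_mul_of_nonneg_left _ (by norm_num)
    apply Real.sqrt_le_sqrt
    have : ((n * r : ℕ) : ℝ) = n * r := by push_cast; ring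
    calc ((n * r : ℕ) : ℝ) * Real.log (2 * ((n * r : ℕ) : ℝ) * 3) ≤ ((n * r : ℕ) : ℝ) * (3 * l) :=
          mul_le_mul_of_nonneg_left hlog (Nat.cast_nonneg _)
      _ = 3 * l * (n * r) := by rw [this]; ring
  have hr0 : (0 : ℝ) < r := by linarith
  -- divide by r
  have hdiv : √(3 * l * (n * r)) / r = √(3 * l * n * (1 / r)) := by
    have : 3 * l * n * (1 / (r : ℝ)) = (3 * l * (n * r)) / (r ^ 2) := by
      field_simp
    rw [this, Real.sqrt_div' _ (by positivity), Real.sqrt_sq (by linarith)]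
  have hbound : √(3 * l * n * (1 / r)) ≤ √3 * (√(2 * (lam * n * l)) + √l) := by
    have h1 : 3 * l * n * (1 / (r : ℝ)) ≤ 3 * (2 * (lam * n * l) + l) := by
      have h2 : 3 * l * n * (1 / (r : ℝ)) ≤ 3 * l * n * (2 * lam + 1 / n) :=
        mul_le_mul_of_nonneg_left h (by positivity)
      have h3 : 3 * l * n * (2 * lam + 1 / n) = 3 * (2 * (lam * n * l) + l) := by
        field_simp
      linarith
    calc √(3 * l * n * (1 / r)) ≤ √(3 * (2 * (lam * n * l) + l)) := Real.sqrt_le_sqrt h1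
      _ = √3 * √(2 * (lam * n * l) + l) := Real.sqrt_mul (by norm_num) _
      _ ≤ √3 * (√(2 * (lam * n * l)) + √l) := by
          apply mul_le_mul_of_nonneg_left _ (Real.sqrt_nonneg _)
          have hA : 0 ≤ 2 * (lam * n * l) := by positivity
          have hB : (0 : ℝ) ≤ l := by linarith
          rw [Real.sqrt_le_left (by positivity)]
          have e1 := Real.sq_sqrt hA
          have e2 := Real.sq_sqrt hB
          nlinarith [mul_nonneg (Real.sqrt_nonneg (2 * (lam * n * l))) (Real.sqrt_nonneg l)]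
  have hs2 : √(2 * (lam * n * l)) ≤ 1.415 * √(lam * n * l) := by
    rw [Real.sqrt_mul (by norm_num)]
    apply mul_le_mul_of_nonneg_right _ (Real.sqrt_nonneg _)
    rw [Real.sqrt_le_left (by norm_num)]
    norm_num
  have hs3 : √(3 : ℝ) ≤ 1.7321 := by
    rw [Real.sqrt_le_left (by norm_num)]
    norm_num
  have hsl : √l ≤ 1.21 * l := by
    rw [Real.sqrt_le_left (by nlinarith)]
    nlinarith
  have hfin : √3 * (√(2 * (lam * n * l)) + √l) ≤
      1.7321 * (1.415 * √(lam * n * l) + 1.21 * l) := by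
    apply mul_le_mul hs3 (by linarith) (by positivity) (by norm_num)
  have hq : 31000 * XX (n * r) 3 / r ≤ 279000 * (√(3 * l * (n * r)) / r) := by
    rw [mul_div_assoc, ]
    have : XX (n * r) 3 / r ≤ 9 * √(3 * l * (n * r)) / r := by gcongr
    calc 31000 * (XX (n * r) 3 / r) ≤ 31000 * (9 * √(3 * l * (n * r)) / r) := by gcongr
      _ = 279000 * (√(3 * l * (n * r)) / r) := by ring
  have hfs := Real.sqrt_nonneg (lam * n * l)
  calc 31000 * XX (n * r) 3 / r ≤ 279000 * (√(3 * l * (n * r)) / r) := hq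
    _ = 279000 * √(3 * l * n * (1 / r)) := by rw [hdiv]
    _ ≤ 279000 * (1.7321 * (1.415 * √(lam * n * l) + 1.21 * l)) := by
        apply mul_le_mul_of_nonneg_left (le_trans hbound hfin) (by norm_num)
    _ ≤ 690000 * (√(lam * n * l) + l) := by
        nlinarith

end Pool.Agent.Lib.MP_7ab245_nt.Cnt
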