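import Pool.Agent.Lib.MP_7ab245_nt.Cnt.Fam
import Pool.Agent.Lib.MP_7ab245_nt.Cnt.Xl

/-!
CT-Sf: all squarefree polynomials of degree `n` in one residue class mod `m`.

PROOF. `E n := exp (400 max 1 (19 XX n T/m))`, nondecreasing in `n` (XX_mono; `XX 0 T = 0`), `≥ 1`. (0) `n = 0`: `f` is a nonzero constant `c`, `|c| = MM f ≤ T`: at most `2T` values
(integers `c ≠ 0` with `|c| ≤ ⌊T⌋`). (1) `n ≥ 1`, `f.coeff 0 ≠ 0`: `|f.coeff 0| ≤ MM f ≤ T` (mu_ge), so at most `2T` values of the constant coefficient, and at most `E n` polynomials for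
each (fam): at most `2T E n` (sum over the fibres, `Finset.card_eq_sum_card_fiberwise`). (2) `f.coeff 0 = 0`: `f = X g`, `g` squarefree of degree `n-1`, `g.coeff 0 ≠ 0` (otherwise `X² ∣ f`),
`MM g = MM f` (the Mahler measure of `X` is 1, mahlerMeasure_mul; `coeff k g = coeff (k+1) f` so the `g` are again in one class mod `m`): at most `2T E (n-1)` if `n ≥ 2`, at most `2T` if
`n = 1` (constants). In all cases at most `2T E n`. Total: `≤ 4T E n`.
-/

set_option autoImplicit false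

open Finset

namespace Pool.Agent.Lib.MP_7ab245_nt.Cnt

private theorem fib (n m : ℕ) (T : ℝ) (hm : 1 ≤ m) (hT : 1 ≤ T) (F : Finset (Polynomial ℤ))
    (hF : ∀ f ∈ F, f.natDegree = n ∧ Squarefree f ∧ MM f ≤ T) (h0 : ∀ f ∈ F, f.coeff 0 ≠ 0)
    (hmod : ∀ f ∈ F, ∀ g ∈ F, ∀ k, (m : ℤ) ∣ f.coeff k - g.coeff k) :
    (F.card : ℝ) ≤ 2 * T * Real.exp (400 * max 1 (19 * XX n T / m)) := by
  classical
  set E := Real.exp (400 * max 1 (19 * XX n T / m)) with hE
  have hE1 : 1 ≤ E := Real.one_le_exp (by positivity)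
  set V : Finset ℤ := (Icc (-(⌊T⌋₊ : ℤ)) ⌊T⌋₊).erase 0 with hV
  have hmap : ∀ f ∈ F, f.coeff 0 ∈ V := by
    intro f hf
    have h1 := mu_ge f (h0 f hf)
    have h2 : 0 < |(f.coeff 0 : ℝ)| := abs_pos.mpr (by exact_mod_cast h0 f hf)
    rw [le_div_iff₀ h2, one_mul] at h1
    have h3 : |(f.coeff 0 : ℝ)| ≤ T := h1.trans (hF f hf).2.2
    have h4 : (f.coeff 0).natAbs ≤ ⌊T⌋₊ := by
      apply Nat.le_floor
      rw [Nat.cast_natAbs]
      exact_mod_cast h3
    rw [hV, mem_erase, mem_Icc]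
    refine ⟨h0 f hf, ?_, ?_⟩ <;> omega
  have hfib : ∀ a ∈ V, ((F.filter fun f => f.coeff 0 = a).card : ℝ) ≤ E := by
    intro a ha
    have ha0 : a ≠ 0 := (mem_erase.mp ha).1
    rcases Nat.eq_zero_or_pos n with hn | hn
    · have : (F.filter fun f => f.coeff 0 = a).card ≤ 1 := by
        rw [card_le_one]
        intro f hf g hg
        rw [mem_filter] at hf hg
        rw [Polynomial.eq_C_of_natDegree_eq_zero ((hF f hf.1).1.trans hn),
          Polynomial.eq_C_of_natDegree_eq_zero ((hF g hg.1).1.trans hn), hf.2, hg.2]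
      calc ((F.filter fun f => f.coeff 0 = a).card : ℝ) ≤ 1 := by exact_mod_cast this
        _ ≤ E := hE1
    · refine fam n m T hn hm hT a ha0 _ ?_ ?_
      · intro f hf
        rw [mem_filter] at hf
        exact ⟨(hF f hf.1).1, hf.2, (hF f hf.1).2⟩
      · intro f hf g hg
        exact hmod f (mem_filter.mp hf).1 g (mem_filter.mp hg).1
  have hVc : (V.card : ℝ) ≤ 2 * T := by
    have h1 : V.card = 2 * ⌊T⌋₊ := by
      rw [hV, card_erase_of_mem (by rw [mem_Icc]; omega), Int.card_Icc]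
      omega
    rw [h1]
    push_cast
    linarith [Nat.floor_le (show 0 ≤ T by linarith)]
  calc (F.card : ℝ) = ∑ a ∈ V, ((F.filter fun f => f.coeff 0 = a).card : ℝ) := by
        rw [card_eq_sum_card_fiberwise hmap]; push_cast; rfl
    _ ≤ ∑ _a ∈ V, E := sum_le_sum hfib
    _ = V.card * E := by rw [sum_const, nsmul_eq_mul]
    _ ≤ 2 * T * E := by gcongr

theorem sf (n m : ℕ) (T : ℝ) (hm : 1 ≤ m) (hT : 1 ≤ T) (F : Finset (Polynomial ℤ))
    (hF : ∀ f ∈ F, f.natDegree = n ∧ Squarefree f ∧ MM f ≤ T)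
    (hmod : ∀ f ∈ F, ∀ g ∈ F, ∀ k, (m : ℤ) ∣ f.coeff k - g.coeff k) :
    (F.card : ℝ) ≤ 4 * T * Real.exp (400 * max 1 (19 * XX n T / m)) := by
  classical
  have hm0 : (0 : ℝ) < m := by exact_mod_cast hm
  have h1 : ((F.filter fun f => f.coeff 0 ≠ 0).card : ℝ) ≤
      2 * T * Real.exp (400 * max 1 (19 * XX n T / m)) := by
    refine fib n m T hm hT _ ?_ ?_ ?_
    · intro f hf
      exact hF f (mem_filter.mp hf).1
    · intro f hf
      exact (mem_filter.mp hf).2
    · intro f hf g hg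
      exact hmod f (mem_filter.mp hf).1 g (mem_filter.mp hg).1
  have hX : ∀ f ∈ F.filter (fun f => ¬ f.coeff 0 ≠ 0), f.divX * Polynomial.X = f := by
    intro f hf
    have := Polynomial.divX_mul_X_add f
    rw [not_not.mp (mem_filter.mp hf).2, map_zero, add_zero] at this
    exact this
  have h2 : ((F.filter fun f => ¬ f.coeff 0 ≠ 0).card : ℝ) ≤
      2 * T * Real.exp (400 * max 1 (19 * XX n T / m)) := by
    have hinj : Set.InjOn Polynomial.divX
        ((F.filter fun f => ¬ f.coeff 0 ≠ 0 : Finset (Polynomial ℤ)) : Set (Polynomial ℤ)) := by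
      intro f hf g hg hfg
      rw [← hX f (mem_coe.mp hf), ← hX g (mem_coe.mp hg), hfg]
    rw [← card_image_of_injOn hinj]
    have hm1 : XX (n - 1) T ≤ XX n T := XX_mono (Nat.sub_le n 1) T hT
    refine (fib (n - 1) m T hm hT _ ?_ ?_ ?_).trans ?_
    · intro g hg
      obtain ⟨f, hf, rfl⟩ := mem_image.mp hg
      have hf' := hF f (mem_filter.mp hf).1
      refine ⟨?_, ?_, ?_⟩
      · rw [Polynomial.natDegree_divX_eq_natDegree_tsub_one, hf'.1]
      · refine hf'.2.1.squarefree_of_dvd ?_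
        exact ⟨Polynomial.X, (hX f hf).symm⟩
      · have h3 : MM f = MM f.divX := by
          have h6 : (Polynomial.X : Polynomial ℂ).mahlerMeasure = 1 := by
            have := Polynomial.mahlerMeasure_X_sub_C 0
            rwa [map_zero, sub_zero, norm_zero, max_eq_left zero_le_one] at this
          conv_lhs => rw [← hX f hf]
          rw [MM, MM, cx, cx, Polynomial.map_mul, Polynomial.map_X, Polynomial.mahlerMeasure_mul,
            h6, mul_one]
        rw [← h3]
        exact hf'.2.2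
    · intro g hg h0
      obtain ⟨f, hf, rfl⟩ := mem_image.mp hg
      have hf' := hF f (mem_filter.mp hf).1
      have h4 : Polynomial.X * Polynomial.X ∣ f := by
        have h5 : Polynomial.X ∣ f.divX := Polynomial.X_dvd_iff.mpr h0
        rw [← hX f hf]
        exact mul_dvd_mul h5 dvd_rfl
      exact Polynomial.not_isUnit_X (hf'.2.1 _ h4)
    · intro g hg g' hg' k
      obtain ⟨f, hf, rfl⟩ := mem_image.mp hg
      obtain ⟨f', hf', rfl⟩ := mem_image.mp hg'
      rw [Polynomial.coeff_divX, Polynomial.coeff_divX]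
      exact hmod f (mem_filter.mp hf).1 f' (mem_filter.mp hf').1 _
    · gcongr
  have h3 : (F.card : ℝ) = ((F.filter fun f => f.coeff 0 ≠ 0).card : ℝ) +
      ((F.filter fun f => ¬ f.coeff 0 ≠ 0).card : ℝ) := by
    exact_mod_cast (card_filter_add_card_filter_not (s := F) (fun f => f.coeff 0 ≠ 0)).symm
  rw [h3]
  linarith

end Pool.Agent.Lib.MP_7ab245_nt.Cnt
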